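import Pool.Agent.WNP.CDF

/-!
FLD. The parameter `t = (1 + α u) / v` of the conic over `K₂ = K(α)`.

PROOFS. `isFractionRing_aeval`: `aeval t` is injective (`transcendental_iff_injective`); every
element of `M` is a quotient of values of polynomials at `t`: the set of these quotients is an
intermediate field containing `t` (or: `IntermediateField.mem_adjoin_simple_iff`). Use
`IsLocalization`/`IsFractionRing.of_field` (`IsFractionRing.of_field` or
`IsLocalization.of_…`; the constructor `IsLocalization.mk`…).
`adjoin_t`: `v ≠ 0` (otherwise `a u² = 1`, `u` algebraic over `K`). In `F₂`, with `α² = a`: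
`(1 + α u)(1 - α u) = b v²`, `t ≠ 0` (`1 + α u = 0` would give `a u² = 1`), `1 + α u = t v`,
`1 - α u = b v / t`, so `v (t² + b) = 2 t`, `t² + b ≠ 0`, `v = 2 t / (t² + b)`,
`α u = (t² - b) / (t² + b)`. (1) `K(α)(t)` contains `α ≠ 0`, `v`, `u`, so the image of
`F = K(u, v)` (`h.htop`), so everything (`hF₂`). (2) If `t` were algebraic over `K(α)` then `u`
would be algebraic over `K(α)`, so over `K` (`α` is algebraic over `K`): contradiction
(`u` in `F₂` is transcendental over `K` as in `F`: `transcendental_algebraMap_iff`).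
(3) elements of `K(α)`: the `k + k' α` form a subfield (`IntermediateField.adjoin` of an integral
element of degree `≤ 2`; `IntermediateField.adjoin_induction`, inverse: if `k² - k'² a ≠ 0` use
`(k - k' α) / (k² - k'² a)`; if `k² = k'² a`, `k' ≠ 0`, then `α² = (k/k')²`, so `α = ± k/k'` lies in
`K`; or use `IntermediateField.adjoin_simple_toSubalgebra_of_integral` and
`Algebra.adjoin_induction`).
-/

open Polynomial WNV

namespace WNP

theorem isFractionRing_aeval {L M : Type} [Field L] [Field M] [Algebra L M] (t : M)
    (ht : Transcendental L t) (htop : IntermediateField.adjoin L {t} = ⊤) :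
    @IsFractionRing L[X] _ M _ (aeval (R := L) t).toRingHom.toAlgebra := by
  letI : Algebra L[X] M := (aeval (R := L) t).toRingHom.toAlgebra
  have hinj : Function.Injective (algebraMap L[X] M) := by
    have h1 := transcendental_iff_injective.1 ht
    exact h1
  haveI : FaithfulSMul L[X] M := (faithfulSMul_iff_algebraMap_injective L[X] M).2 hinj
  apply IsFractionRing.of_field
  intro z
  have hz : z ∈ IntermediateField.adjoin L {t} := by rw [htop]; trivial
  obtain ⟨r, s, hrs⟩ := (IntermediateField.mem_adjoin_simple_iff L z).1 hz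
  exact ⟨r, s, hrs⟩

theorem adjoin_t {K F F₂ : Type} [Field K] [Field F] [Field F₂] [CharZero K] [Algebra K F]
    [Algebra F F₂] [Algebra K F₂] [IsScalarTower K F F₂] {a b : K} {u v : F}
    (h : IsConic a b u v) (α : F₂) (hα : α ^ 2 = algebraMap K F₂ a)
    (hF₂ : ∀ g : F₂, ∃ x y : F, g = algebraMap F F₂ x + algebraMap F F₂ y * α) (t : F₂)
    (ht : t * algebraMap F F₂ v = 1 + α * algebraMap F F₂ u) :
    Transcendental (IntermediateField.adjoin K {α}) t ∧
      IntermediateField.adjoin (IntermediateField.adjoin K {α}) {t} = ⊤ ∧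
      ∀ z : IntermediateField.adjoin K {α}, ∃ k k' : K,
        (z : F₂) = algebraMap K F₂ k + algebraMap K F₂ k' * α := by
  haveI : CharZero F₂ := charZero_of_injective_algebraMap (algebraMap K F₂).injective
  have hv : v ≠ 0 := by
    intro hv
    apply h.htr
    refine ⟨C a * X ^ 2 - 1, ?_, ?_⟩
    · intro h0
      have h1 := congrArg (fun p => p.coeff 2) h0
      simp [coeff_one] at h1
      exact h.ha h1
    · have h1 := h.heq
      rw [hv] at h1
      simp only [map_sub, map_mul, aeval_C, map_pow, aeval_X, map_one]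
      rw [← h1]; ring
  have hAa : algebraMap K F₂ a ≠ 0 := by
    intro h0; exact h.ha ((algebraMap K F₂).injective (by rw [h0, map_zero]))
  have hBb : algebraMap K F₂ b ≠ 0 := by
    intro h0; exact h.hb ((algebraMap K F₂).injective (by rw [h0, map_zero]))
  have hV : algebraMap F F₂ v ≠ 0 := by
    intro h0; exact hv ((algebraMap F F₂).injective (by rw [h0, map_zero]))
  have heq : algebraMap K F₂ a * (algebraMap F F₂ u) ^ 2 +
      algebraMap K F₂ b * (algebraMap F F₂ v) ^ 2 = 1 := by
    have h1 := congrArg (algebraMap F F₂) h.heq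
    rw [map_add, map_mul, map_mul, map_pow, map_pow, map_one,
      ← IsScalarTower.algebraMap_apply K F F₂, ← IsScalarTower.algebraMap_apply K F F₂] at h1
    exact h1
  have hα0 : α ≠ 0 := by
    rintro rfl
    apply hAa
    rw [← hα]; ring
  have ht0 : t ≠ 0 := by
    rintro rfl
    have h1 : (1 + α * algebraMap F F₂ u) = 0 := by rw [← ht]; ring
    have h2 : algebraMap K F₂ b * (algebraMap F F₂ v) ^ 2 = 0 := by
      have : algebraMap K F₂ b * (algebraMap F F₂ v) ^ 2 =
          (1 + α * algebraMap F F₂ u) * (1 - α * algebraMap F F₂ u) := by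
        rw [← hα] at heq
        linear_combination heq
      rw [this, h1, zero_mul]
    rcases mul_eq_zero.1 h2 with h3 | h3
    · exact hBb h3
    · exact hV (pow_eq_zero_iff (two_ne_zero) |>.1 h3)
  have hmin : (1 - α * algebraMap F F₂ u) * t = algebraMap K F₂ b * algebraMap F F₂ v := by
    apply mul_right_cancel₀ hV
    rw [← hα] at heq
    linear_combination (1 - α * algebraMap F F₂ u) * ht - heq
  have hV2 : algebraMap F F₂ v * (t ^ 2 + algebraMap K F₂ b) = 2 * t := by
    linear_combination t * ht - hmin
  have htb : t ^ 2 + algebraMap K F₂ b ≠ 0 := by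
    intro h0
    rw [h0, mul_zero] at hV2
    exact (mul_ne_zero two_ne_zero ht0) hV2.symm
  have hVeq : algebraMap F F₂ v = 2 * t * (t ^ 2 + algebraMap K F₂ b)⁻¹ := by
    rw [eq_mul_inv_iff_mul_eq₀ htb]; exact hV2
  have hUeq : algebraMap F F₂ u = α⁻¹ * (t * algebraMap F F₂ v - 1) := by
    rw [ht]
    field_simp
    ring
  have hint : IsIntegral K α := ⟨X ^ 2 - C a, monic_X_pow_sub_C a two_ne_zero, by
    rw [eval₂_sub, eval₂_pow, eval₂_X, eval₂_C, hα, sub_self]⟩
  refine ⟨?_, ?_, ?_⟩
  · intro hta
    haveI : Algebra.IsAlgebraic K (IntermediateField.adjoin K {α}) :=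
      IntermediateField.isAlgebraic_adjoin_simple hint
    have hb' : IsAlgebraic (IntermediateField.adjoin K {α}) (algebraMap K F₂ b) := by
      rw [IsScalarTower.algebraMap_apply K (IntermediateField.adjoin K {α}) F₂]
      exact isAlgebraic_algebraMap _
    have hα' : IsAlgebraic (IntermediateField.adjoin K {α}) α :=
      isAlgebraic_algebraMap
        (⟨α, IntermediateField.mem_adjoin_simple_self K α⟩ : IntermediateField.adjoin K {α})
    have h2' : IsAlgebraic (IntermediateField.adjoin K {α}) (2 : F₂) := by
      have := isAlgebraic_algebraMap (R := IntermediateField.adjoin K {α}) (A := F₂) 2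
      rwa [map_ofNat] at this
    have hVa : IsAlgebraic (IntermediateField.adjoin K {α}) (algebraMap F F₂ v) := by
      rw [hVeq]
      exact (h2'.mul hta).mul ((hta.pow 2).add hb').inv
    have hUa : IsAlgebraic (IntermediateField.adjoin K {α}) (algebraMap F F₂ u) := by
      rw [hUeq]
      exact hα'.inv.mul ((hta.mul hVa).sub isAlgebraic_one)
    have hUK : IsAlgebraic K (algebraMap F F₂ u) := hUa.restrictScalars K
    exact h.htr ((isAlgebraic_algebraMap_iff (algebraMap F F₂).injective).1 hUK)
  · set S : IntermediateField (IntermediateField.adjoin K {α}) F₂ :=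
      IntermediateField.adjoin (IntermediateField.adjoin K {α}) {t} with hS
    have htS : t ∈ S := IntermediateField.mem_adjoin_simple_self _ t
    have hαS : α ∈ S := S.algebraMap_mem
      (⟨α, IntermediateField.mem_adjoin_simple_self K α⟩ : IntermediateField.adjoin K {α})
    have hKS : ∀ k : K, algebraMap K F₂ k ∈ S := by
      intro k
      rw [IsScalarTower.algebraMap_apply K (IntermediateField.adjoin K {α}) F₂]
      exact S.algebraMap_mem _
    have hVS : algebraMap F F₂ v ∈ S := by
      rw [hVeq]
      refine S.mul_mem (S.mul_mem ?_ htS) (S.inv_mem (S.add_mem (pow_mem htS 2) (hKS b)))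
      have := hKS 2
      rwa [map_ofNat] at this
    have hUS : algebraMap F F₂ u ∈ S := by
      rw [hUeq]
      exact S.mul_mem (S.inv_mem hαS) (S.sub_mem (S.mul_mem htS hVS) S.one_mem)
    have hle : IntermediateField.adjoin K {u, v} ≤
        (S.restrictScalars K).comap (IsScalarTower.toAlgHom K F F₂) := by
      rw [IntermediateField.adjoin_le_iff]
      intro x hx
      rcases hx with rfl | hx
      · exact hUS
      · rw [Set.mem_singleton_iff.1 hx]; exact hVS
    have hFS : ∀ x : F, algebraMap F F₂ x ∈ S := by
      intro x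
      have hx : x ∈ IntermediateField.adjoin K {u, v} := by rw [h.htop]; trivial
      exact hle hx
    rw [eq_top_iff]
    intro g _
    obtain ⟨x, y, rfl⟩ := hF₂ g
    exact S.add_mem (hFS x) (S.mul_mem (hFS y) hαS)
  · intro z
    have hz : (z : F₂) ∈ (IntermediateField.adjoin K {α}).toSubalgebra := z.2
    rw [IntermediateField.adjoin_simple_toSubalgebra_of_isAlgebraic hint.isAlgebraic,
      Algebra.adjoin_singleton_eq_range_aeval] at hz
    obtain ⟨p, hp⟩ := hz
    have hmon : (X ^ 2 - C a : K[X]).Monic := monic_X_pow_sub_C a two_ne_zero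
    have hdeg : (X ^ 2 - C a : K[X]).natDegree = 2 := natDegree_X_pow_sub_C
    have h1 : (p %ₘ (X ^ 2 - C a)).natDegree ≤ 1 := by
      have := natDegree_modByMonic_lt p hmon (fun h => by
        rw [h, natDegree_one] at hdeg; exact absurd hdeg (by norm_num))
      omega
    obtain ⟨y, x, hxy⟩ := exists_eq_X_add_C_of_natDegree_le_one h1
    refine ⟨x, y, ?_⟩
    have h2 : aeval α p = aeval α (p %ₘ (X ^ 2 - C a)) := by
      conv_lhs => rw [← modByMonic_add_div p (X ^ 2 - C a)]
      rw [map_add, map_mul, map_sub, map_pow, aeval_X, aeval_C, hα, sub_self, zero_mul, add_zero]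
    have h3 : (z : F₂) = aeval α p := hp.symm
    rw [h3, h2, hxy, map_add, map_mul, aeval_X, aeval_C, aeval_C, add_comm]

end WNP
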