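import Mathlib

/-!
SPL. Adjoining a square root.
-/

namespace WNP

open Polynomial in
theorem exists_sqrt (F : Type) [Field F] [CharZero F] (a : F) :
    ∃ (F₂ : Type) (_ : Field F₂) (_ : Algebra F F₂) (α : F₂) (σ : F₂ ≃+* F₂),
      α ^ 2 = algebraMap F F₂ a ∧
      (∀ g : F₂, ∃ x y : F, g = algebraMap F F₂ x + algebraMap F F₂ y * α) ∧
      (∀ f : F, σ (algebraMap F F₂ f) = algebraMap F F₂ f) ∧
      (∀ g : F₂, ∃ f : F, algebraMap F F₂ f = g * σ g) := by
  by_cases h : ∃ α : F, α ^ 2 = a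
  · obtain ⟨α, hα⟩ := h
    refine ⟨F, inferInstance, Algebra.id F, α, RingEquiv.refl F, hα, ?_, ?_, ?_⟩
    · intro g
      exact ⟨g, 0, by simp⟩
    · intro f; rfl
    · intro g
      exact ⟨g * g, rfl⟩
  · push Not at h
    have hirr : Irreducible (X ^ 2 - C a : F[X]) :=
      X_pow_sub_C_irreducible_of_prime Nat.prime_two h
    have : Fact (Irreducible (X ^ 2 - C a : F[X])) := ⟨hirr⟩
    have hmon : (X ^ 2 - C a : F[X]).Monic := monic_X_pow_sub_C a two_ne_zero
    have hdeg : (X ^ 2 - C a : F[X]).natDegree = 2 := natDegree_X_pow_sub_C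
    have hroot : (AdjoinRoot.root (X ^ 2 - C a : F[X])) ^ 2 =
        algebraMap F (AdjoinRoot (X ^ 2 - C a : F[X])) a := by
      have h1 := AdjoinRoot.eval₂_root (X ^ 2 - C a : F[X])
      rw [eval₂_sub, eval₂_pow, eval₂_X, eval₂_C, sub_eq_zero] at h1
      exact h1
    have hneg : (X ^ 2 - C a : F[X]).eval₂
        (Algebra.ofId F (AdjoinRoot (X ^ 2 - C a : F[X])) : F →+* _)
        (-(AdjoinRoot.root (X ^ 2 - C a : F[X]))) = 0 := by
      rw [eval₂_sub, eval₂_pow, eval₂_X, eval₂_C, neg_sq, hroot]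
      exact sub_self _
    let s : AdjoinRoot (X ^ 2 - C a : F[X]) →ₐ[F] AdjoinRoot (X ^ 2 - C a : F[X]) :=
      AdjoinRoot.liftAlgHom _ (Algebra.ofId F _) (-(AdjoinRoot.root (X ^ 2 - C a : F[X]))) hneg
    have hs : s (AdjoinRoot.root (X ^ 2 - C a : F[X])) =
        -(AdjoinRoot.root (X ^ 2 - C a : F[X])) := AdjoinRoot.liftAlgHom_root _ _ _ _
    have hss : s.comp s = AlgHom.id F _ := by
      apply AdjoinRoot.algHom_ext
      rw [AlgHom.comp_apply, hs, map_neg, hs, neg_neg]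
      rfl
    have hrep : ∀ g : AdjoinRoot (X ^ 2 - C a : F[X]), ∃ x y : F,
        g = algebraMap F _ x + algebraMap F _ y * AdjoinRoot.root (X ^ 2 - C a : F[X]) := by
      intro g
      obtain ⟨f, rfl⟩ := AdjoinRoot.mk_surjective g
      have h1 : (f %ₘ (X ^ 2 - C a)).natDegree ≤ 1 := by
        have := natDegree_modByMonic_lt f hmon (fun h => by
          rw [h, natDegree_one] at hdeg; exact absurd hdeg (by norm_num))
        omega
      obtain ⟨y, x, hxy⟩ := exists_eq_X_add_C_of_natDegree_le_one h1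
      refine ⟨x, y, ?_⟩
      have h2 : AdjoinRoot.mk (X ^ 2 - C a) f = AdjoinRoot.mk (X ^ 2 - C a) (f %ₘ (X ^ 2 - C a)) := by
        conv_lhs => rw [← modByMonic_add_div f (X ^ 2 - C a)]
        rw [map_add, map_mul, AdjoinRoot.mk_self, zero_mul, add_zero]
      rw [h2, hxy, map_add, map_mul, AdjoinRoot.mk_X, AdjoinRoot.mk_C, AdjoinRoot.mk_C, add_comm]
      rfl
    refine ⟨AdjoinRoot (X ^ 2 - C a : F[X]), inferInstance, inferInstance, AdjoinRoot.root _,
      (AlgEquiv.ofAlgHom s s hss hss).toRingEquiv, hroot, hrep, ?_, ?_⟩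
    · intro f
      exact s.commutes f
    · intro g
      obtain ⟨x, y, rfl⟩ := hrep g
      refine ⟨x ^ 2 - a * y ^ 2, ?_⟩
      have hsx : ∀ z, (AlgEquiv.ofAlgHom s s hss hss).toRingEquiv z = s z := fun _ => rfl
      rw [hsx, map_add s, map_mul s, hs, s.commutes, s.commutes]
      have : (algebraMap F (AdjoinRoot (X ^ 2 - C a : F[X]))) (x ^ 2 - a * y ^ 2) =
          (algebraMap F _ x) ^ 2 -
            (AdjoinRoot.root (X ^ 2 - C a : F[X])) ^ 2 * (algebraMap F _ y) ^ 2 := by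
        rw [hroot, map_sub, map_mul, map_pow, map_pow]
      rw [this]
      ring

end WNP
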