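import Pool.Agent.WNP.FIN
import Pool.Agent.WNP.SPL
import Pool.Agent.WNP.FLD

/-!
ASM. The final theorem.
-/

set_option linter.unusedSectionVars false

open Polynomial WNV

namespace WNP

theorem conic_sit {c N : ℕ} {K F : Type} [Field K] [Algebra ℂ K] [Field F] [Algebra ℂ F]
    [Algebra K F] [IsScalarTower ℂ K F] (y : Fin c → K) (hy : IsTranscendenceBasis ℂ y)
    {a b : K} {u v : F} (hF : IsConic a b u v) {x : Fin (N + 1) → F} {Δ D : DVal F → ℝ}
    (S : Sit K x (cform y u) Δ D) (hB : IsBaseEff x y Δ) : IsLinEff x D := by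
  haveI : CharZero F := charZero_of_injective_algebraMap (algebraMap ℂ F).injective
  haveI : CharZero K := charZero_of_injective_algebraMap (algebraMap ℂ K).injective
  obtain ⟨F₂, hfield, halg, α, σ, hα, hF₂, hσ, hN⟩ := exists_sqrt F (algebraMap K F a)
  letI iKF₂ : Algebra K F₂ := ((algebraMap F F₂).comp (algebraMap K F)).toAlgebra
  letI iCF₂ : Algebra ℂ F₂ := ((algebraMap F F₂).comp (algebraMap ℂ F)).toAlgebra
  haveI : IsScalarTower K F F₂ := IsScalarTower.of_algebraMap_eq fun _ => rfl
  haveI : IsScalarTower ℂ F F₂ := IsScalarTower.of_algebraMap_eq fun _ => rfl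
  haveI : IsScalarTower ℂ K F₂ := IsScalarTower.of_algebraMap_eq fun z => by
    exact congrArg (algebraMap F F₂) (IsScalarTower.algebraMap_apply ℂ K F z)
  have hv : v ≠ 0 := by
    rintro rfl
    refine hF.htr ⟨C a * X ^ 2 - 1, ?_, ?_⟩
    · intro h
      have := congrArg (fun p : K[X] => p.coeff 0) h
      simp at this
    · have := hF.heq
      simp only [map_sub, map_mul, aeval_C, map_pow, aeval_X, map_one]
      linear_combination this
  have hv₂ : algebraMap F F₂ v ≠ 0 := (map_ne_zero_iff _ (algebraMap F F₂).injective).2 hv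
  set t : F₂ := (1 + α * algebraMap F F₂ u) / algebraMap F F₂ v with ht
  have htv : t * algebraMap F F₂ v = 1 + α * algebraMap F F₂ u := by
    rw [ht]; field_simp
  obtain ⟨h1, h2, h3⟩ := adjoin_t hF α hα hF₂ t htv
  letI iP : Algebra (IntermediateField.adjoin K {α})[X] F₂ :=
    (aeval (R := IntermediateField.adjoin K {α}) t).toRingHom.toAlgebra
  haveI : IsFractionRing (IntermediateField.adjoin K {α})[X] F₂ := isFractionRing_aeval t h1 h2
  haveI : IsScalarTower (IntermediateField.adjoin K {α}) (IntermediateField.adjoin K {α})[X] F₂ :=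
    IsScalarTower.of_algebraMap_eq fun z => by
      show _ = aeval (R := IntermediateField.adjoin K {α}) t (C z)
      rw [aeval_C]
  haveI : IsScalarTower ℂ (IntermediateField.adjoin K {α}) F₂ :=
    IsScalarTower.of_algebraMap_eq fun z => rfl
  have hmem : α ∈ IntermediateField.adjoin K {α} := IntermediateField.mem_adjoin_simple_self K α
  have htt : tv (IntermediateField.adjoin K {α}) F₂ = t := by
    show aeval (R := IntermediateField.adjoin K {α}) t X = t
    rw [aeval_X]
  have C : Cov a b u v (⟨α, hmem⟩ : IntermediateField.adjoin K {α}) σ :=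
    { hcon := hF
      hα := by
        apply Subtype.ext
        show α ^ 2 = _
        rw [hα]
        rfl
      hcomm := fun k => rfl
      ht := by
        rw [htt]
        exact htv
      hK₂ := fun z => by
        obtain ⟨k, k', h⟩ := h3 z
        refine ⟨k, k', ?_⟩
        apply Subtype.ext
        show (z : F₂) = algebraMap K F₂ k + algebraMap K F₂ k' * α
        exact h
      hF₂ := hF₂
      hσ := hσ
      hN := hN }
  exact main C y hy S hB

theorem conic_final {c N : ℕ} {K F : Type} [Field K] [Algebra ℂ K] [Field F] [Algebra ℂ F]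
    [Algebra K F] [IsScalarTower ℂ K F] (y : Fin c → K) (hy : IsTranscendenceBasis ℂ y)
    (a b : K) (u v : F) (hF : IsConic a b u v) (x : Fin (N + 1) → F) (hx : ∀ j, x j ≠ 0)
    (hn : IsNormalModel x) (KX Δ : DVal F → ℝ) (hK : IsCanonical x (cform y u) KX)
    (hΔ : IsBoundary x Δ) (hB : IsBaseEff x y Δ) (hC : IsRCartier x (KX + Δ))
    (hlc : ∀ E : DVal F, (∀ k : K, E (algebraMap K F k) = 0) →
      IsLcAt x (cform y u) (KX + Δ) E)
    (hps : IsPsef x (KX + Δ)) : IsLinEff x (KX + Δ) := by
  refine conic_sit y hy hF (Δ := Δ) ?_ hB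
  exact
    { hx := hx
      hn := fun i => (hn i).1
      hf := fun i => (hn i).2
      hΔ := hΔ.1
      hfin := hΔ.2
      hD := fun i E hE => by
        obtain ⟨k, hk, hko⟩ := hK i E hE
        exact ⟨k, hko, by rw [Pi.add_apply, hk]⟩
      hC := hC
      hP := hps
      hlc := hlc }

end WNP
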