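import Pool.Agent.WNV.Defs2

/-!
Definitions for conic bundles. `K` is the function field of `Y` and `F` the function field of `X`.
-/

open WNV

namespace WNP

section

variable {K F : Type} [Field K] [Field F] [Algebra K F]

/-- `F` is the function field of the conic `a u² + b v² = 1` over `K`. -/
structure IsConic (a b : K) (u v : F) : Prop where
  ha : a ≠ 0
  hb : b ≠ 0
  heq : algebraMap K F a * u ^ 2 + algebraMap K F b * v ^ 2 = 1
  htr : Transcendental K u
  htop : IntermediateField.adjoin K {u, v} = ⊤

end

section

variable {c : ℕ} {K F : Type} [Field K] [Field F] [Algebra ℂ F] [Algebra K F]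

/-- The functions `y_1, …, y_c` (of `K`) and `u`. -/
def ycoord (y : Fin c → K) (u : F) : Fin (c + 1) → F :=
  Fin.append (fun j => algebraMap K F (y j)) (fun _ : Fin 1 => u)

/-- The form `dy_1 ∧ … ∧ dy_c ∧ du`. -/
noncomputable def cform (y : Fin c → K) (u : F) : RForm F (c + 1) := wedge (ycoord y u)

end

end WNP
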