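import Mathlib

/-!
CHO. Scaling of weights.

PROOF. Let `T = ∑_{q ∈ S} deg q * δ q + δ₀ ≥ 2`, `c = (2/T) δ`, `c₀ = (2/T) δ₀`, `0 < 2/T ≤ 1`.
Enumerate `S`: `S.equivFin`, `p i = (S.equivFin.symm i : K[X])`; the sum over `Fin s` is the sum over
`S` (`Finset.sum_coe_sort`, `Equiv.sum_comp`).
-/

open Polynomial

namespace WNP

theorem choose_weights {K : Type} [Field K] (S : Finset K[X]) (δ : K[X] → ℝ) (δ₀ : ℝ)
    (h0 : ∀ q ∈ S, 0 ≤ δ q) (h00 : 0 ≤ δ₀)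
    (hs : 2 ≤ ∑ q ∈ S, (q.natDegree : ℝ) * δ q + δ₀) :
    ∃ (s : ℕ) (p : Fin s → K[X]) (c : Fin s → ℝ) (c₀ : ℝ), (∀ i, p i ∈ S) ∧
      Function.Injective p ∧ (∀ i, 0 ≤ c i ∧ c i ≤ δ (p i)) ∧ (0 ≤ c₀ ∧ c₀ ≤ δ₀) ∧
      ∑ i, ((p i).natDegree : ℝ) * c i + c₀ = 2 := by
  obtain ⟨T, hT⟩ : ∃ T : ℝ, T = ∑ q ∈ S, (q.natDegree : ℝ) * δ q + δ₀ := ⟨_, rfl⟩
  have hT2 : (2 : ℝ) ≤ T := by rw [hT]; exact hs
  have hT0 : (0 : ℝ) < T := by linarith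
  have hr0 : (0 : ℝ) ≤ 2 / T := by positivity
  have hr1 : (2 : ℝ) / T ≤ 1 := by rw [div_le_one hT0]; exact hT2
  have hmem : ∀ i : Fin S.card, ((S.equivFin.symm i : S) : K[X]) ∈ S :=
    fun i => (S.equivFin.symm i).2
  refine ⟨S.card, fun i => ((S.equivFin.symm i : S) : K[X]),
    fun i => (2 / T) * δ ((S.equivFin.symm i : S) : K[X]), (2 / T) * δ₀, hmem, ?_, ?_, ?_, ?_⟩
  · intro i j hij
    exact S.equivFin.symm.injective (Subtype.ext hij)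
  · intro i
    have h := h0 _ (hmem i)
    refine ⟨mul_nonneg hr0 h, ?_⟩
    exact mul_le_of_le_one_left h hr1
  · exact ⟨mul_nonneg hr0 h00, mul_le_of_le_one_left h00 hr1⟩
  · have h1 : ∑ i : Fin S.card, ((((S.equivFin.symm i : S) : K[X]).natDegree : ℕ) : ℝ) *
        ((2 / T) * δ ((S.equivFin.symm i : S) : K[X]))
        = ∑ q : S, (((q : K[X]).natDegree : ℕ) : ℝ) * ((2 / T) * δ (q : K[X])) :=
      Equiv.sum_comp S.equivFin.symm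
        (fun q : S => (((q : K[X]).natDegree : ℕ) : ℝ) * ((2 / T) * δ (q : K[X])))
    have h2 : ∑ q : S, (((q : K[X]).natDegree : ℕ) : ℝ) * ((2 / T) * δ (q : K[X]))
        = ∑ q ∈ S, ((q.natDegree : ℕ) : ℝ) * ((2 / T) * δ q) :=
      Finset.sum_coe_sort S (fun q : K[X] => ((q.natDegree : ℕ) : ℝ) * ((2 / T) * δ q))
    have h3 : ∑ q ∈ S, ((q.natDegree : ℕ) : ℝ) * ((2 / T) * δ q) + (2 / T) * δ₀ = (2 / T) * T := by
      rw [hT, mul_add, Finset.mul_sum]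
      congr 1
      refine Finset.sum_congr rfl fun q _ => ?_
      ring
    rw [h1, h2, h3]
    field_simp

end WNP
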