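import Pool.Agent.WNV.FAR

/-!
CIR. Pairing of weights: `c` is a combination of pairs of geometric points.
-/

namespace WNP

private theorem CIR_pos {ι : Type} [Fintype ι] [DecidableEq ι] (d : ι → ℕ) (hd : ∀ i, 0 < d i)
    (c : ι → ℝ) (h0 : ∀ i, 0 ≤ c i) (h1 : ∀ i, c i ≤ 1) (h2 : ∑ i, (d i : ℝ) * c i = 2)
    (w : ι → ℝ) (ha : ∀ i j, i ≠ j → 0 ≤ (d j : ℝ) * w i + (d i : ℝ) * w j)
    (hb : ∀ i, 0 ≤ ((d i : ℝ) - 1) * w i) : 0 ≤ ∑ i, c i * w i := by
  by_cases hw : ∀ i, 0 ≤ w i
  · exact Finset.sum_nonneg fun i _ => mul_nonneg (h0 i) (hw i)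
  push Not at hw
  obtain ⟨k, hk⟩ := hw
  have hdk : (d k : ℝ) = 1 := by
    have h3 := hb k
    have h4 : (1 : ℝ) ≤ d k := by exact_mod_cast hd k
    nlinarith
  have h5 : ∀ i, i ≠ k → (d i : ℝ) * (-w k) ≤ w i := by
    intro i hi
    have := ha i k hi
    rw [hdk] at this
    linarith
  have h6 : ∑ i ∈ Finset.univ.erase k, c i * ((d i : ℝ) * (-w k)) ≤
      ∑ i ∈ Finset.univ.erase k, c i * w i :=
    Finset.sum_le_sum fun i hi => mul_le_mul_of_nonneg_left (h5 i (Finset.ne_of_mem_erase hi)) (h0 i)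
  have h7 : ∑ i ∈ Finset.univ.erase k, c i * ((d i : ℝ) * (-w k)) =
      (-w k) * ∑ i ∈ Finset.univ.erase k, (d i : ℝ) * c i := by
    rw [Finset.mul_sum]
    exact Finset.sum_congr rfl fun i _ => by ring
  have h8 : ∑ i ∈ Finset.univ.erase k, (d i : ℝ) * c i = 2 - c k := by
    have := Finset.add_sum_erase Finset.univ (fun i => (d i : ℝ) * c i) (Finset.mem_univ k)
    simp only [hdk, one_mul] at this
    linarith
  have h9 := Finset.add_sum_erase Finset.univ (fun i => c i * w i) (Finset.mem_univ k)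
  rw [← h9]
  rw [h7, h8] at h6
  nlinarith [h1 k, h0 k]

theorem exists_pairing {ι : Type} [Fintype ι] (d : ι → ℕ) (hd : ∀ i, 0 < d i) (c : ι → ℝ)
    (h0 : ∀ i, 0 ≤ c i) (h1 : ∀ i, c i ≤ 1) (h2 : ∑ i, (d i : ℝ) * c i = 2) :
    ∃ m : ι → ι → ℝ, (∀ i j, 0 ≤ m i j) ∧ (∀ i j, m i j = m j i) ∧
      ∀ i, ∑ j, m i j * (d j : ℝ) - m i i = c i := by
  classical
  let A : ι × ι → ((ι → ℝ) →ₗ[ℝ] ℝ) := fun p =>
    if p.1 = p.2 then ((d p.1 : ℝ) - 1) • LinearMap.proj p.1
    else (d p.2 : ℝ) • LinearMap.proj p.1 + (d p.1 : ℝ) • LinearMap.proj p.2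
  let b : (ι → ℝ) →ₗ[ℝ] ℝ := ∑ i, c i • LinearMap.proj i
  have hA1 : ∀ i (w : ι → ℝ), A (i, i) w = ((d i : ℝ) - 1) * w i := by
    intro i w
    simp [A]
  have hA2 : ∀ i j, i ≠ j → ∀ (w : ι → ℝ), A (i, j) w = (d j : ℝ) * w i + (d i : ℝ) * w j := by
    intro i j hij w
    simp [A, hij]
  have hb : ∀ w : ι → ℝ, b w = ∑ i, c i * w i := by
    intro w
    simp [b, LinearMap.sum_apply]
  obtain ⟨x, hx, hxb⟩ := WNV.farkas_fintype A b (by
    intro w hw
    rw [hb]
    refine CIR_pos d hd c h0 h1 h2 w (fun i j hij => ?_) (fun i => ?_)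
    · rw [← hA2 i j hij]
      exact hw _
    · rw [← hA1]
      exact hw _)
  refine ⟨fun i j => if i = j then x (i, i) else x (i, j) + x (j, i), fun i j => ?_, fun i j => ?_,
    fun k => ?_⟩
  · dsimp only
    split_ifs
    · exact hx _
    · exact add_nonneg (hx _) (hx _)
  · dsimp only
    by_cases hij : i = j
    · subst hij; rfl
    · rw [if_neg hij, if_neg (Ne.symm hij), add_comm]
  · have h3 : b (Pi.single k 1) = c k := by
      rw [hb]
      simp [Pi.single_apply]
    rw [hxb, LinearMap.sum_apply] at h3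
    simp only [LinearMap.smul_apply, smul_eq_mul] at h3
    have h4 : ∀ i j, A (i, j) (Pi.single k 1) =
        (if i = k then (if j = k then ((d k : ℝ) - 1) else (d j : ℝ)) else
          (if j = k then (d i : ℝ) else 0)) := by
      intro i j
      by_cases hij : i = j
      · subst hij
        rw [hA1]
        by_cases hik : i = k
        · subst hik; simp
        · simp [hik]
      · rw [hA2 i j hij]
        by_cases hik : i = k
        · subst hik
          simp [Ne.symm hij]
        · by_cases hjk : j = k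
          · subst hjk
            simp [hik]
          · simp [hik, hjk]
    rw [Fintype.sum_prod_type] at h3
    have h5 : ∀ i, ∑ j, x (i, j) * A (i, j) (Pi.single k 1) =
        if i = k then (∑ j, x (k, j) * (d j : ℝ)) - x (k, k) else x (i, k) * (d i : ℝ) := by
      intro i
      by_cases hik : i = k
      · subst hik
        rw [if_pos rfl]
        have : ∀ j, x (i, j) * A (i, j) (Pi.single i 1) =
            x (i, j) * (d j : ℝ) - (if j = i then x (i, i) else 0) := by
          intro j
          rw [h4, if_pos rfl]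
          by_cases hj : j = i
          · subst hj; simp; ring
          · simp [hj]
        rw [Finset.sum_congr rfl fun j _ => this j, Finset.sum_sub_distrib]
        simp
      · rw [if_neg hik]
        have : ∀ j, x (i, j) * A (i, j) (Pi.single k 1) =
            if j = k then x (i, k) * (d i : ℝ) else 0 := by
          intro j
          rw [h4, if_neg hik]
          by_cases hj : j = k
          · subst hj; simp
          · simp [hj]
        rw [Finset.sum_congr rfl fun j _ => this j]
        simp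
    rw [Finset.sum_congr rfl fun i _ => h5 i] at h3
    have h6 : (∑ i, if i = k then (∑ j, x (k, j) * (d j : ℝ)) - x (k, k)
        else x (i, k) * (d i : ℝ)) = ((∑ j, x (k, j) * (d j : ℝ)) - x (k, k)) +
          ((∑ j, x (j, k) * (d j : ℝ)) - x (k, k) * (d k : ℝ)) := by
      have h7 : ∀ i, (if i = k then (∑ j, x (k, j) * (d j : ℝ)) - x (k, k)
          else x (i, k) * (d i : ℝ)) = (if i = k then
            ((∑ j, x (k, j) * (d j : ℝ)) - x (k, k) - x (k, k) * (d k : ℝ)) else 0)
            + x (i, k) * (d i : ℝ) := by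
        intro i
        by_cases hik : i = k
        · subst hik; simp
        · simp [hik]
      rw [Finset.sum_congr rfl fun i _ => h7 i, Finset.sum_add_distrib]
      simp
      ring
    rw [h6] at h3
    have h8 : ∑ j, (if k = j then x (k, k) else x (k, j) + x (j, k)) * (d j : ℝ) =
        (∑ j, x (k, j) * (d j : ℝ)) + (∑ j, x (j, k) * (d j : ℝ)) - x (k, k) * (d k : ℝ) := by
      have h9 : ∀ j, (if k = j then x (k, k) else x (k, j) + x (j, k)) * (d j : ℝ) =
          x (k, j) * (d j : ℝ) + x (j, k) * (d j : ℝ) -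
            (if j = k then x (k, k) * (d k : ℝ) else 0) := by
        intro j
        by_cases hj : k = j
        · subst hj; simp
        · rw [if_neg hj, if_neg (Ne.symm hj)]; ring
      rw [Finset.sum_congr rfl fun j _ => h9 j, Finset.sum_sub_distrib, Finset.sum_add_distrib]
      simp
    dsimp only
    rw [h8, if_pos rfl]
    linarith

end WNP
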