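import Pool.Agent.WNP.Defs
import Pool.Agent.WNP.CDF

/-!
The (possibly trivial) quadratic extension `F₂ = F(α)`, `α² = a`, of the function field `F` of a
conic over `K`, over which the conic gets a rational point: `F₂ = K₂(t)`, `K₂ = K(α)`,
`t = (1 + α u) / v`.
-/

open Polynomial WNV

namespace WNP

/-- See the head of the file. `σ` is the conjugation of `F₂ / F` (the identity if `F₂ = F`). -/
structure Cov {K F K₂ F₂ : Type} [Field K] [Field F] [Field K₂] [Field F₂]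
    [Algebra K F] [Algebra K K₂] [Algebra F F₂] [Algebra K₂ F₂] [Algebra K₂[X] F₂]
    (a b : K) (u v : F) (α : K₂) (σ : F₂ ≃+* F₂) : Prop where
  hcon : IsConic a b u v
  hα : α ^ 2 = algebraMap K K₂ a
  hcomm : ∀ k : K, algebraMap K₂ F₂ (algebraMap K K₂ k) = algebraMap F F₂ (algebraMap K F k)
  ht : tv K₂ F₂ * algebraMap F F₂ v = 1 + algebraMap K₂ F₂ α * algebraMap F F₂ u
  hK₂ : ∀ z : K₂, ∃ k k' : K, z = algebraMap K K₂ k + algebraMap K K₂ k' * α
  hF₂ : ∀ g : F₂, ∃ x y : F, g = algebraMap F F₂ x + algebraMap F F₂ y * algebraMap K₂ F₂ α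
  hσ : ∀ f : F, σ (algebraMap F F₂ f) = algebraMap F F₂ f
  hN : ∀ g : F₂, ∃ f : F, algebraMap F F₂ f = g * σ g

/-- The element `g₀ = b v² / (α t)` of `F₂`; `du = g₀ dt` (relative to `K`). -/
noncomputable def gz {K F K₂ F₂ : Type} [Field K] [Field F] [Field K₂] [Field F₂]
    [Algebra K F] [Algebra F F₂] [Algebra K₂ F₂] [Algebra K₂[X] F₂]
    (b : K) (v : F) (α : K₂) : F₂ :=
  algebraMap F F₂ (algebraMap K F b * v ^ 2) / (algebraMap K₂ F₂ α * tv K₂ F₂)

end WNP
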