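import Pool.Agent.WNP.Defs

/-!
DBC. From a bound for a `K`-linear derivation of `K(t)` to a bound for `d/dt` on polynomials.

PROOF. For `q : K[X]`: `δ (algebraMap q) = algebraMap (derivative q) * δ (tv K F)`
(`Polynomial.induction_on`; `algebraMap K[X] F (C k) = algebraMap K F k` by the scalar tower,
`Derivation.leibniz`, `Derivation.leibniz_pow`). So if `derivative q ≠ 0`, its value is
`E (δ (algebraMap q)) - E (δ (tv K F)) ≥ E (algebraMap q) - ρ - E (δ (tv K F))`.
-/

open Polynomial WNV

namespace WNP

private theorem dbc_poly {K F : Type} [Field K] [Algebra ℂ K] [Field F] [Algebra ℂ F]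
    [Algebra K F] [IsScalarTower ℂ K F] [Algebra K[X] F] [IsScalarTower K K[X] F]
    [IsFractionRing K[X] F] (δ : Derivation ℂ F F) (hk : ∀ k : K, δ (algebraMap K F k) = 0)
    (q : K[X]) :
    δ (algebraMap K[X] F q) = algebraMap K[X] F (derivative q) * δ (tv K F) := by
  have hC : ∀ k : K, algebraMap K[X] F (C k) = algebraMap K F k := fun k => by
    rw [IsScalarTower.algebraMap_apply K K[X] F, Polynomial.algebraMap_eq]
  induction q using Polynomial.induction_on' with
  | add p q hp hq =>
    rw [map_add, map_add, hp, hq, derivative_add, map_add, add_mul]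
  | monomial n a =>
    have e1 : algebraMap K[X] F (monomial n a) = algebraMap K F a * tv K F ^ n := by
      rw [← C_mul_X_pow_eq_monomial, map_mul, map_pow, hC]
      rfl
    have e2 : algebraMap K[X] F (derivative (monomial n a)) =
        algebraMap K F a * n * tv K F ^ (n - 1) := by
      rw [derivative_monomial, ← C_mul_X_pow_eq_monomial, map_mul, map_pow, hC, map_mul,
        map_natCast]
      rfl
    rw [e1, e2, Derivation.leibniz, Derivation.leibniz_pow, hk, smul_zero, add_zero]
    simp only [smul_eq_mul, nsmul_eq_mul]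
    ring

theorem derivBd_of {K F : Type} [Field K] [Algebra ℂ K] [Field F] [Algebra ℂ F]
    [Algebra K F] [IsScalarTower ℂ K F] [Algebra K[X] F] [IsScalarTower K K[X] F]
    [IsFractionRing K[X] F] (δ : Derivation ℂ F F) (hk : ∀ k : K, δ (algebraMap K F k) = 0)
    (ht : δ (tv K F) ≠ 0) (E : QVal F) (ρ : ℤ) (h : ∀ g : F, Ge E (E g - ρ) (δ g)) :
    DerivBd K E (ρ + E (δ (tv K F))) := by
  intro q
  have h1 := h (algebraMap K[X] F q)
  rw [dbc_poly δ hk q] at h1
  by_cases h0 : algebraMap K[X] F (derivative q) = 0
  · exact Or.inl h0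
  · rcases h1 with h1 | h1
    · exact absurd h1 (mul_ne_zero h0 ht)
    · right
      have h2 := E.mul' _ _ h0 ht
      have h3 : E (algebraMap K[X] F (derivative q) * δ (tv K F)) =
        E (algebraMap K[X] F (derivative q)) + E (δ (tv K F)) := h2
      rw [h3] at h1
      omega

end WNP
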