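import Pool.Agent.WNP.Cov

/-!
TRB. Transcendence bases.

PROOFS. `tb_F`: `{u}` is a transcendence basis of `F / K`: `u` is transcendental
(`algebraicIndependent_unique_type_iff` or similar), and `F = K(u, v)` is algebraic over `K(u)` since
`v² = (1 - a u²) / b` (`IntermediateField.adjoin` of algebraic elements). Then
`IsTranscendenceBasis.sumElim_comp` as in `WNV.transcendence_append` (`Pool/Agent/WNV/BRG.lean`,
which shows how to pass from `Sum.elim` to `Fin.append`).
`tb_F₂`: `F₂` is algebraic over `F` (`C.hF₂`, `α` is a root of `X² - a`; every element is integral),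
and the image of a transcendence basis in an algebraic extension is a transcendence basis
(`IsTranscendenceBasis.of_comp`…, `IsTranscendenceBasis.algebraMap_comp`).
`tb_K₂`: the same for `K₂ / K` (`C.hK₂`, `C.hα`).
-/

open Polynomial WNV

namespace WNP

open scoped IntermediateField.algebraAdjoinAdjoin in
private theorem tb_u {K F : Type} [Field K] [Field F] [Algebra K F] {a b : K} {u v : F}
    (h : IsConic a b u v) : IsTranscendenceBasis K (fun _ : Fin 1 => u) := by
  have h1 : AlgebraicIndependent K (fun _ : Fin 1 => u) :=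
    algebraicIndependent_unique_type_iff.2 h.htr
  rw [h1.isTranscendenceBasis_iff_isAlgebraic]
  set S : Set F := Set.range (fun _ : Fin 1 => u) with hS
  have hu : u ∈ IntermediateField.adjoin K S :=
    IntermediateField.subset_adjoin K S ⟨0, rfl⟩
  have h2 : Algebra.IsAlgebraic (Algebra.adjoin K S) (IntermediateField.adjoin K S) :=
    IsLocalization.isAlgebraic _ (nonZeroDivisors _)
  have h3 : Algebra.IsAlgebraic (IntermediateField.adjoin K S) F := by
    have hv : IsIntegral (IntermediateField.adjoin K S) v := by
      refine IsIntegral.of_pow (n := 2) (by norm_num) ?_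
      have hb : algebraMap K F b ≠ 0 := by
        intro h0
        exact h.hb ((map_eq_zero _).1 h0)
      have e1 : v ^ 2 = (1 - algebraMap K F a * u ^ 2) / algebraMap K F b := by
        rw [eq_div_iff hb]
        linear_combination h.heq
      have e2 : v ^ 2 ∈ IntermediateField.adjoin K S := by
        rw [e1]
        exact div_mem (sub_mem (one_mem _) (mul_mem (IntermediateField.algebraMap_mem _ a)
          (pow_mem hu 2))) (IntermediateField.algebraMap_mem _ b)
      exact isIntegral_algebraMap (R := IntermediateField.adjoin K S) (x := ⟨v ^ 2, e2⟩)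
    have h4 : Algebra.IsAlgebraic (IntermediateField.adjoin K S)
        (IntermediateField.adjoin (IntermediateField.adjoin K S) {v}) := by
      refine IntermediateField.isAlgebraic_adjoin ?_
      rintro x rfl
      exact hv
    have h5 : (IntermediateField.adjoin (IntermediateField.adjoin K S) {v}).restrictScalars K = ⊤ := by
      rw [IntermediateField.adjoin_adjoin_left, ← h.htop]
      congr 1
      ext x
      constructor
      · rintro (⟨_, rfl⟩ | rfl)
        · exact Set.mem_insert _ _
        · exact Set.mem_insert_of_mem _ rfl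
      · rintro (rfl | rfl)
        · exact Or.inl ⟨0, rfl⟩
        · exact Or.inr rfl
    refine ⟨fun x => ?_⟩
    have hx : x ∈ IntermediateField.adjoin (IntermediateField.adjoin K S) {v} := by
      have : x ∈ (IntermediateField.adjoin (IntermediateField.adjoin K S) {v}).restrictScalars K := by
        rw [h5]
        exact IntermediateField.mem_top
      exact this
    have h6 := h4.isAlgebraic ⟨x, hx⟩
    exact h6.algebraMap (A := F)
  exact Algebra.IsAlgebraic.trans (Algebra.adjoin K S) (IntermediateField.adjoin K S) F

theorem tb_F {c : ℕ} {K F : Type} [Field K] [Field F] [Algebra ℂ K] [Algebra ℂ F] [Algebra K F]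
    [IsScalarTower ℂ K F] {a b : K} {u v : F} (h : IsConic a b u v) (y : Fin c → K)
    (hy : IsTranscendenceBasis ℂ y) : IsTranscendenceBasis ℂ (ycoord y u) := by
  have h1 := hy.sumElim_comp (tb_u h)
  have h2 := (isTranscendenceBasis_equiv' ((Equiv.sumComm (Fin 1) (Fin c)).trans finSumFinEquiv)
    (f := ycoord y u)
    (g := Sum.elim (fun _ : Fin 1 => u) (algebraMap K F ∘ y)) (by
      funext s
      rcases s with j | j
      · simp [ycoord]
      · simp [ycoord])).1 h1
  exact h2

variable {c : ℕ} {K F K₂ F₂ : Type} [Field K] [Field F] [Field K₂] [Field F₂]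
    [Algebra ℂ K] [Algebra ℂ F] [Algebra ℂ K₂] [Algebra ℂ F₂]
    [Algebra K F] [Algebra K K₂] [Algebra F F₂] [Algebra K₂ F₂] [Algebra K₂[X] F₂]
    [IsScalarTower ℂ K F] [IsScalarTower ℂ K K₂] [IsScalarTower ℂ F F₂] [IsScalarTower ℂ K₂ F₂]
    {a b : K} {u v : F} {α : K₂} {σ : F₂ ≃+* F₂}

theorem tb_F₂ (C : Cov a b u v α σ) (y : Fin c → K) (hy : IsTranscendenceBasis ℂ y) :
    IsTranscendenceBasis ℂ (fun i => algebraMap F F₂ (ycoord y u i)) := by
  have hα : IsIntegral F (algebraMap K₂ F₂ α) := by
    refine IsIntegral.of_pow (n := 2) (by norm_num) ?_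
    rw [← map_pow, C.hα, C.hcomm]
    exact isIntegral_algebraMap
  have halg : Algebra.IsAlgebraic F F₂ := by
    refine ⟨fun g => IsIntegral.isAlgebraic ?_⟩
    obtain ⟨x, z, rfl⟩ := C.hF₂ g
    exact isIntegral_algebraMap.add (isIntegral_algebraMap.mul hα)
  exact (tb_F C.hcon y hy).algebraMap_comp (A := F₂)

theorem tb_K₂ (C : Cov a b u v α σ) (y : Fin c → K) (hy : IsTranscendenceBasis ℂ y) :
    IsTranscendenceBasis ℂ (fun j => algebraMap K K₂ (y j)) := by
  have hα : IsIntegral K α := by
    refine IsIntegral.of_pow (n := 2) (by norm_num) ?_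
    rw [C.hα]
    exact isIntegral_algebraMap
  have halg : Algebra.IsAlgebraic K K₂ := by
    refine ⟨fun g => IsIntegral.isAlgebraic ?_⟩
    obtain ⟨x, z, rfl⟩ := C.hK₂ g
    exact isIntegral_algebraMap.add (isIntegral_algebraMap.mul hα)
  exact hy.algebraMap_comp (A := K₂)

end WNP
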