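import Pool.Agent.WNP.ZER
import Pool.Agent.WNP.TRB

/-!
DEL. The derivation `δ = ∂/∂u` of `F / K` and its extension `δ₂` to `F₂ / K₂`; `δ₂ t = g₀⁻¹`.

PROOF. `δ` is the derivation dual to `u` for the transcendence basis `ycoord y u` (`tb_F`,
`WNV.exists_deriv`); it vanishes on the `y j`, so on `K` by `deriv_eq_zero` (the derivation
`k ↦ δ (algebraMap k)` of `K` with values in `F`: `Derivation.compAlgebraMap`/`restrictScalars`; or
build it by `Derivation.mk'`). `δ₂` is the derivation dual to `u` for the basis `tb_F₂` of `F₂`; it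
vanishes on `y`, so on `K₂` (`tb_K₂`). The derivations `f ↦ δ₂ (algebraMap f)` and
`f ↦ algebraMap (δ f)` from `F` to `F₂` agree on `ycoord y u`, so their difference is zero.
`δ₂ t`: write everything in `F₂`, `α² = a` (`C.hα`, `C.hcomm`). `v ≠ 0` (otherwise `a u² = 1`
and `u` is algebraic), `u ≠ 0`, `α ≠ 0` (`a ≠ 0`). From `a u² + b v² = 1`: `2 a u + 2 b v (δ₂ v) = 0`, so
`δ₂ v = - a u / (b v)`. From `t v = 1 + α u`: `(δ₂ t) v + t (δ₂ v) = α`, so
`(δ₂ t) b v³ = α b v² + (t v) a u = α b v² + (1 + α u) a u = α (b v² + a u²) + a u = α + a u =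
α (1 + α u) = α t v`, hence `(δ₂ t) b v² = α t`. Finally `t ≠ 0`: otherwise `1 + α u = 0`, `a u² = 1`
(or: `b v² = (1 + α u)(1 - α u)`).
-/

open Polynomial WNV

namespace WNP

variable {c : ℕ} {K F K₂ F₂ : Type} [Field K] [Field F] [Field K₂] [Field F₂]
    [Algebra ℂ K] [Algebra ℂ F] [Algebra ℂ K₂] [Algebra ℂ F₂]
    [Algebra K F] [Algebra K K₂] [Algebra F F₂] [Algebra K₂ F₂] [Algebra K₂[X] F₂]
    [IsScalarTower ℂ K F] [IsScalarTower ℂ K K₂] [IsScalarTower ℂ F F₂] [IsScalarTower ℂ K₂ F₂]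
    {a b : K} {u v : F} {α : K₂} {σ : F₂ ≃+* F₂}

theorem exists_delta (C : Cov a b u v α σ) (y : Fin c → K) (hy : IsTranscendenceBasis ℂ y) :
    ∃ (δ : Derivation ℂ F F) (δ₂ : Derivation ℂ F₂ F₂), δ u = 1 ∧
      (∀ k : K, δ (algebraMap K F k) = 0) ∧ (∀ z : K₂, δ₂ (algebraMap K₂ F₂ z) = 0) ∧
      (∀ f : F, δ₂ (algebraMap F F₂ f) = algebraMap F F₂ (δ f)) ∧
      gz b v α * δ₂ (tv K₂ F₂) = 1 := by
  classical
  obtain ⟨δ, hδ⟩ := exists_deriv (ycoord y u) (tb_F C.hcon y hy) (Fin.natAdd c (0 : Fin 1))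
  obtain ⟨δ₂, hδ₂⟩ := exists_deriv (fun i => algebraMap F F₂ (ycoord y u i)) (tb_F₂ C y hy)
    (Fin.natAdd c (0 : Fin 1))
  have hyl : ycoord y u (Fin.natAdd c (0 : Fin 1)) = u := by
    unfold ycoord
    rw [Fin.append_right]
  have hyj : ∀ j : Fin c, ycoord y u (Fin.castAdd 1 j) = algebraMap K F (y j) := by
    intro j
    unfold ycoord
    rw [Fin.append_left]
  have hne : ∀ j : Fin c, Fin.castAdd 1 j ≠ Fin.natAdd c (0 : Fin 1) := by
    intro j h
    have h1 := congrArg Fin.val h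
    have h2 := j.isLt
    simp at h1
    omega
  have hu1 : δ u = 1 := by
    have h := hδ (Fin.natAdd c (0 : Fin 1))
    rw [hyl, if_pos rfl] at h
    exact h
  have hK : ∀ k : K, δ (algebraMap K F k) = 0 := by
    have h0 : δ.compAlgebraMap K = 0 := by
      refine deriv_eq_zero y hy _ (fun j => ?_)
      have h := hδ (Fin.castAdd 1 j)
      rw [hyj, if_neg (hne j)] at h
      exact h
    intro k
    exact congrArg (fun D : Derivation ℂ K F => D k) h0
  have hK₂ : ∀ z : K₂, δ₂ (algebraMap K₂ F₂ z) = 0 := by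
    have h0 : δ₂.compAlgebraMap K₂ = 0 := by
      refine deriv_eq_zero (fun j => algebraMap K K₂ (y j)) (tb_K₂ C y hy) _ (fun j => ?_)
      have h := hδ₂ (Fin.castAdd 1 j)
      rw [if_neg (hne j)] at h
      show δ₂ (algebraMap K₂ F₂ (algebraMap K K₂ (y j))) = 0
      rw [C.hcomm, ← hyj]
      exact h
    intro z
    exact congrArg (fun D : Derivation ℂ K₂ F₂ => D z) h0
  have hF : ∀ f : F, δ₂ (algebraMap F F₂ f) = algebraMap F F₂ (δ f) := by
    have h0 : δ₂.compAlgebraMap F - (Algebra.linearMap F F₂).compDer δ = 0 := by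
      refine deriv_eq_zero (ycoord y u) (tb_F C.hcon y hy) _ (fun j => ?_)
      show δ₂ (algebraMap F F₂ (ycoord y u j)) - algebraMap F F₂ (δ (ycoord y u j)) = 0
      rw [hδ j, hδ₂ j]
      by_cases h : j = Fin.natAdd c (0 : Fin 1)
      · rw [if_pos h, if_pos h, map_one, sub_self]
      · rw [if_neg h, if_neg h, map_zero, sub_self]
    intro f
    have h1 := congrArg (fun D : Derivation ℂ F F₂ => D f) h0
    exact sub_eq_zero.1 h1
  refine ⟨δ, δ₂, hu1, hK, hK₂, hF, ?_⟩
  -- the computation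
  set U : F₂ := algebraMap F F₂ u with hU
  set V : F₂ := algebraMap F F₂ v with hV
  set T : F₂ := tv K₂ F₂ with hT
  set A : F₂ := algebraMap K₂ F₂ α with hA
  set B : F₂ := algebraMap F F₂ (algebraMap K F b) with hB
  have hA2 : A ^ 2 = algebraMap F F₂ (algebraMap K F a) := by
    rw [hA, ← map_pow, C.hα, C.hcomm]
  have hKF : Function.Injective (algebraMap K F) := (algebraMap K F).injective
  have hFF : Function.Injective (algebraMap F F₂) := (algebraMap F F₂).injective
  have hA0 : A ≠ 0 := by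
    intro h
    rw [h] at hA2
    have h1 : algebraMap F F₂ (algebraMap K F a) = 0 := by rw [← hA2]; ring
    rw [map_eq_zero, map_eq_zero] at h1
    exact C.hcon.ha h1
  have hB0 : B ≠ 0 := by
    intro h
    rw [hB, map_eq_zero, map_eq_zero] at h
    exact C.hcon.hb h
  have heq : A ^ 2 * U ^ 2 + B * V ^ 2 = 1 := by
    rw [hA2, hB, hU, hV, ← map_pow, ← map_pow, ← map_mul, ← map_mul, ← map_add, C.hcon.heq, map_one]
  have hv0 : V ≠ 0 := by
    intro h
    have hv : v = 0 := by
      rw [hV, map_eq_zero] at h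
      exact h
    have h1 := C.hcon.heq
    rw [hv] at h1
    apply C.hcon.htr
    refine ⟨Polynomial.C a * Polynomial.X ^ 2 - 1, ?_, ?_⟩
    · intro h2
      have h3 := congrArg (fun p : K[X] => p.coeff 2) h2
      simp [Polynomial.coeff_one] at h3
      exact C.hcon.ha h3
    · simp only [map_sub, map_mul, Polynomial.aeval_C, map_pow, Polynomial.aeval_X, map_one]
      rw [← h1]
      ring
  have hTV : T * V = 1 + A * U := C.ht
  have hT0 : T ≠ 0 := by
    intro h
    rw [h, zero_mul] at hTV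
    have h1 : A ^ 2 * U ^ 2 = 1 := by
      have : A * U = -1 := by linear_combination -hTV
      calc A ^ 2 * U ^ 2 = (A * U) ^ 2 := by ring
        _ = 1 := by rw [this]; ring
    have h2 : B * V ^ 2 = 0 := by linear_combination heq - h1
    rcases mul_eq_zero.1 h2 with h3 | h3
    · exact hB0 h3
    · exact hv0 (pow_eq_zero_iff (two_ne_zero)|>.1 h3)
  have dU : δ₂ U = 1 := by rw [hU, hF, hu1, map_one]
  have dA : δ₂ A = 0 := hK₂ α
  have dB : δ₂ B = 0 := by rw [hB, hF, hK, map_zero]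
  have e1 : A ^ 2 * (2 * U) + B * (2 * V * δ₂ V) = 0 := by
    have h := congrArg (fun x => δ₂ x) heq
    simp only [map_add, Derivation.leibniz, Derivation.leibniz_pow, dU, dA, dB,
      Derivation.map_one_eq_zero, smul_eq_mul, nsmul_eq_mul] at h
    simp at h
    linear_combination h
  have e2 : T * δ₂ V + V * δ₂ T = A := by
    have h := congrArg (fun x => δ₂ x) hTV
    simp only [map_add, Derivation.leibniz, dU, dA,
      Derivation.map_one_eq_zero, smul_eq_mul] at h
    linear_combination h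
  have e3 : δ₂ T * (B * V ^ 2) = A * T := by
    haveI : CharZero F₂ := charZero_of_injective_algebraMap (algebraMap ℂ F₂).injective
    have h2 : (2 : F₂) ≠ 0 := two_ne_zero
    have e1' : B * (V * δ₂ V) = - (A ^ 2 * U) := by
      have h3 : (2 : F₂) * (B * (V * δ₂ V) + A ^ 2 * U) = 0 := by linear_combination e1
      rcases mul_eq_zero.1 h3 with h4 | h4
      · exact absurd h4 h2
      · linear_combination h4
    have e4 : V * (δ₂ T * (B * V ^ 2) - A * T) = 0 := by
      linear_combination (B * V ^ 2) * e2 - (T * V) * e1' + (A ^ 2 * U - A) * hTV + A * heq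
    rcases mul_eq_zero.1 e4 with h5 | h5
    · exact absurd h5 hv0
    · linear_combination h5
  unfold gz
  have e5 : algebraMap F F₂ (algebraMap K F b * v ^ 2) = B * V ^ 2 := by
    rw [map_mul, map_pow]
  rw [e5]
  show B * V ^ 2 / (A * T) * δ₂ T = 1
  rw [div_mul_eq_mul_div, div_eq_one_iff_eq (mul_ne_zero hA0 hT0)]
  linear_combination e3

end WNP
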