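import Pool.Agent.WNV.BRG
import Pool.Agent.WNV.PSH

/-!
FOR. Orders of forms (functions of derivations).
-/

set_option linter.unusedSectionVars false

open WNV

namespace WNP

section

variable {F : Type} [Field F] [Algebra ℂ F] {n : ℕ}

theorem fOrdGE_mono {E : F → ℤ} {ω : RForm F n} {k l : ℤ} (h : l ≤ k) (hk : FOrdGE E ω k) :
    FOrdGE E ω l := by
  refine AddSubgroup.closure_mono ?_ hk
  rintro τ ⟨f, x, hf, hx, rfl⟩
  exact ⟨f, x, hf.imp id fun h' => h.trans h', hx, rfl⟩

theorem fOrdGE_smul (E : QVal F) {ω : RForm F n} {k l : ℤ} {g : F} (hg : Ge E l g)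
    (hk : FOrdGE E ω k) : FOrdGE E (fun d => g * ω d) (l + k) := by
  unfold FOrdGE at hk
  induction hk using AddSubgroup.closure_induction with
  | mem τ hτ =>
    obtain ⟨f, x, hf, hx, rfl⟩ := hτ
    refine AddSubgroup.subset_closure ⟨g * f, x, E.ge_mul hg hf, hx, ?_⟩
    funext d
    rw [mul_assoc]
  | zero =>
    have : (fun d => g * (0 : RForm F n) d) = 0 := by
      funext d
      simp
    rw [this]
    exact AddSubgroup.zero_mem _
  | add σ τ _ _ h1 h2 =>
    have : (fun d => g * (σ + τ) d) = (fun d => g * σ d) + (fun d => g * τ d) := by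
      funext d
      simp [mul_add]
    rw [this]
    exact AddSubgroup.add_mem _ h1 h2
  | neg τ _ h1 =>
    have : (fun d => g * (-τ) d) = -(fun d => g * τ d) := by
      funext d
      simp
    rw [this]
    exact AddSubgroup.neg_mem _ h1

theorem le_of_fIsOrd {E : F → ℤ} {ω : RForm F n} {k l : ℤ} (h : FIsOrd E ω k)
    (hl : FOrdGE E ω l) : l ≤ k := by
  by_contra hlt
  push Not at hlt
  exact h.2 (fOrdGE_mono (by omega) hl)

theorem fIsOrd_unique {E : F → ℤ} {ω : RForm F n} {k l : ℤ} (h : FIsOrd E ω k)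
    (hl : FIsOrd E ω l) : k = l :=
  le_antisymm (le_of_fIsOrd hl h.1) (le_of_fIsOrd h hl.1)

theorem le_of_fIsOrd_smul (E : QVal F) {ω : RForm F n} {k l : ℤ} {g : F} (hg : g ≠ 0)
    (h : FIsOrd E ω k) (hl : FOrdGE E (fun d => g * ω d) l) : l ≤ k + E g := by
  have h1 := fOrdGE_smul E (g := g⁻¹) (l := E g⁻¹) (Or.inr le_rfl) hl
  have h2 : (fun d => g⁻¹ * (g * ω d)) = ω := by
    funext d
    rw [← mul_assoc, inv_mul_cancel₀ hg, one_mul]
  rw [h2] at h1
  have h3 := le_of_fIsOrd h h1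
  rw [E.inv] at h3
  omega

theorem fOrdGE_wedge (E : QVal F) (x : Fin n → F) (hx : ∀ i, Ge E 0 (x i)) :
    FOrdGE E (wedge x) 0 := by
  refine AddSubgroup.subset_closure ⟨1, x, Or.inr (by rw [E.one]), hx, ?_⟩
  funext d
  rw [one_mul]

end

theorem push_ge {n : ℕ} {F F₂ : Type} [Field F] [Algebra ℂ F] [Field F₂] [Algebra ℂ F₂]
    [Algebra F F₂] [IsScalarTower ℂ F F₂] (E : DVal F) (E₂ : DVal F₂)
    (h : ∀ f : F, E f = E₂ (algebraMap F F₂ f)) (z : Fin n → F) (hz : IsTranscendenceBasis ℂ z)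
    (k : ℤ) (hk : FOrdGE E (wedge z) k) :
    FOrdGE E₂ (wedge (fun i => algebraMap F F₂ (z i))) k := by
  obtain ⟨Φ, hΦ⟩ := exists_push (K := F) (F := F₂) (c := n) (r := 0)
    (Fin.elim0 : Fin 0 → KaehlerDifferential ℂ F₂)
  have key : ∀ (f : F) (x : Fin n → F),
      Φ (f • exteriorPower.ιMulti F n (fun i => KaehlerDifferential.D ℂ F (x i))) =
        algebraMap F F₂ f • exteriorPower.ιMulti F₂ n
          (fun i => KaehlerDifferential.D ℂ F₂ (algebraMap F F₂ (x i))) := by
    intro f x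
    rw [hΦ, Fin.append_elim0]
    rfl
  rw [← pairMap_D] at hk
  have h1 := ordGE_of (pairMap_injective z hz) hk
  have h2 : ∀ ω, OrdGE (E : F → ℤ) ω k → OrdGE (E₂ : F₂ → ℤ) (n := n) (Φ ω) k := by
    intro ω hω
    unfold OrdGE at hω
    induction hω using AddSubgroup.closure_induction with
    | mem τ hτ =>
      obtain ⟨f, x, hf, hx, rfl⟩ := hτ
      rw [key]
      refine AddSubgroup.subset_closure ⟨algebraMap F F₂ f, fun i => algebraMap F F₂ (x i),
        ?_, fun i => ?_, rfl⟩
      · rcases hf with hf | hf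
        · exact Or.inl (by rw [hf, map_zero])
        · exact Or.inr (by rw [← h]; exact hf)
      · rcases hx i with hf | hf
        · exact Or.inl (by simp only [hf, map_zero])
        · exact Or.inr (by rw [← h]; exact hf)
    | zero => rw [map_zero]; exact AddSubgroup.zero_mem _
    | add τ τ' _ _ h h' => rw [map_add]; exact AddSubgroup.add_mem _ h h'
    | neg τ _ h => rw [map_neg]; exact AddSubgroup.neg_mem _ h
  have h3 := h2 _ h1
  have h4 := key 1 z
  rw [one_smul, map_one, one_smul] at h4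
  rw [h4] at h3
  have h5 := fOrdGE_of h3
  rw [pairMap_D] at h5
  exact h5

end WNP
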