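import Pool.Agent.WNP.PSA
import Pool.Agent.WNP.FOR

/-!
DGA. The inequality of pseudo-effectivity at a valuation which is trivial on `K`, prime divisor of
`X` or not.

PROOF. If `E` is a prime of `chart x k`: then `E (x j / x k) ≥ 0` for all `j` (the elements
`x j / x k` lie in the chart), so `E (x k) = E (x i)` and `E (x 0 / x k) = E (x 0 / x i)` (`QVal.div`,
`S.hx`). `hφ k E` and `S.hD k E`: `D E = a + Δ E` with `FIsOrd E ω a`, `a = a'` by
`fIsOrd_unique`. Otherwise `δ = 1` and `psef_at` for the chart `i` (every element of `chart x i` is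
`Ge E 0`: `Algebra.adjoin_induction`, see `exists_chart` in `Pool/Agent/WNV/NOE.lean`).
-/

set_option linter.unusedSectionVars false

open WNV

namespace WNP

variable {n N : ℕ} {K F : Type} [Field K] [Field F] [Algebra ℂ F] [Algebra K F]
    {x : Fin (N + 1) → F} {ω : RForm F n} {Δ D : DVal F → ℝ}

theorem ineq_at (S : Sit K x ω Δ D) (ε : ℝ) (φ : F →₀ ℝ)
    (hφ : ∀ i (E : DVal F), IsPrimeOf (chart x i) E → 0 ≤ D E + ε * (E (x 0 / x i) : ℝ) + val φ E)
    (E : DVal F) (h₀ : ∀ a : K, E (algebraMap K F a) = 0) (a' : ℤ) (ha' : FIsOrd E ω a')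
    (δ : ℝ) (h1 : (∃ k, IsPrimeOf (chart x k) E) → δ = Δ E)
    (h2 : (¬ ∃ k, IsPrimeOf (chart x k) E) → δ = 1) (i : Fin (N + 1))
    (hi : ∀ j, E (x i) ≤ E (x j)) :
    0 ≤ (a' : ℝ) + δ + ε * (E (x 0 / x i) : ℝ) + val φ E := by
  have hx := S.hx
  by_cases hp : ∃ k, IsPrimeOf (chart x k) E
  · rw [h1 hp]
    obtain ⟨k, hk⟩ := hp
    obtain ⟨a, ha, hDa⟩ := S.hD k E hk
    have hEk : E (x k) = E (x i) := by
      refine le_antisymm ?_ (hi k)
      have hmem : x i / x k ∈ chart x k := Algebra.subset_adjoin ⟨i, rfl⟩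
      have h3 : 0 ≤ E (x i / x k) := hk.1 _ hmem (div_ne_zero (hx i) (hx k))
      have h4 : E (x i / x k) = E (x i) - E (x k) := E.toQVal.div (hx i) (hx k)
      omega
    have h5 : E (x 0 / x k) = E (x 0 / x i) := by
      have e1 : E (x 0 / x k) = E (x 0) - E (x k) := E.toQVal.div (hx 0) (hx k)
      have e2 : E (x 0 / x i) = E (x 0) - E (x i) := E.toQVal.div (hx 0) (hx i)
      rw [e1, e2, hEk]
    have h6 := hφ k E hk
    rw [hDa, h5, fIsOrd_unique ha ha'] at h6
    linarith
  · rw [h2 hp]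
    refine psef_at S ε φ hφ E h₀ a' ha' i ?_
    have key : ∀ a ∈ chart x i, Ge E 0 a := by
      intro a ha
      induction ha using Algebra.adjoin_induction with
      | mem y hy =>
        obtain ⟨j, rfl⟩ := hy
        right
        have e1 : E (x j / x i) = E (x j) - E (x i) := E.toQVal.div (hx j) (hx i)
        have := hi j
        show 0 ≤ E (x j / x i)
        omega
      | algebraMap c => exact E.toQVal.ge_const c
      | add a b _ _ h1 h2 => exact E.toQVal.ge_add h1 h2
      | mul a b _ _ h1 h2 => simpa using E.toQVal.ge_mul h1 h2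
    intro a ha ha0
    exact (key a ha).resolve_left ha0

end WNP
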