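import Pool.Agent.WNP.ORH
import Pool.Agent.WNP.DEL

/-!
ORC. The order of `cform y u` at the valuations which are trivial on `K`.
-/

set_option linter.unusedSectionVars false

open Polynomial WNV

namespace WNP

variable {c : ℕ} {K F K₂ F₂ : Type} [Field K] [Field F] [Field K₂] [Field F₂]
    [Algebra ℂ K] [Algebra ℂ F] [Algebra ℂ K₂] [Algebra ℂ F₂]
    [Algebra K F] [Algebra K K₂] [Algebra F F₂] [Algebra K₂ F₂] [Algebra K₂[X] F₂]
    [IsScalarTower ℂ K F] [IsScalarTower ℂ K K₂] [IsScalarTower ℂ F F₂] [IsScalarTower ℂ K₂ F₂]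
    [IsScalarTower K₂ K₂[X] F₂] [IsFractionRing K₂[X] F₂]
    {a b : K} {u v : F} {α : K₂} {σ : F₂ ≃+* F₂}

theorem ORC_u_ne (C : Cov a b u v α σ) : u ≠ 0 := by
  intro h
  have := C.hcon.htr
  rw [h] at this
  exact this (isAlgebraic_zero)

theorem ORC_alpha_ne (C : Cov a b u v α σ) : α ≠ 0 := by
  intro h
  have h1 := C.hα
  rw [h, zero_pow two_ne_zero] at h1
  exact C.hcon.ha ((map_eq_zero (algebraMap K K₂)).mp h1.symm)

theorem ORC_v_ne (C : Cov a b u v α σ) : v ≠ 0 := by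
  intro h
  have h1 := C.hcon.heq
  rw [h, zero_pow two_ne_zero, mul_zero, add_zero] at h1
  apply C.hcon.htr
  refine ⟨Polynomial.C a * X ^ 2 - 1, ?_, ?_⟩
  · intro h2
    have h3 := congrArg (fun p => Polynomial.coeff p 2) h2
    simp only [coeff_sub, coeff_C_mul, coeff_X_pow, if_true, mul_one, coeff_zero] at h3
    rw [coeff_one, if_neg (by norm_num), sub_zero] at h3
    exact C.hcon.ha h3
  · rw [map_sub, map_mul, map_pow, aeval_X, aeval_C, map_one, h1, sub_self]

/-- the facts in `F₂` -/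
theorem ORC_facts (C : Cov a b u v α σ) :
    tv K₂ F₂ ≠ 0 ∧
    algebraMap F F₂ v * (tv K₂ F₂ ^ 2 + algebraMap F F₂ (algebraMap K F b)) = 2 * tv K₂ F₂ ∧
    algebraMap F F₂ v * (tv K₂ F₂ ^ 2 - algebraMap F F₂ (algebraMap K F b)) =
      2 * (algebraMap K₂ F₂ α * algebraMap F F₂ u * tv K₂ F₂) := by
  have h1 : algebraMap F F₂ (algebraMap K F a) * algebraMap F F₂ u ^ 2 +
      algebraMap F F₂ (algebraMap K F b) * algebraMap F F₂ v ^ 2 = 1 := by
    have := congrArg (algebraMap F F₂) C.hcon.heq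
    simpa only [map_add, map_mul, map_pow, map_one] using this
  have h2 : algebraMap K₂ F₂ α ^ 2 = algebraMap F F₂ (algebraMap K F a) := by
    rw [← map_pow, C.hα, C.hcomm]
  have h3 := C.ht
  have hv : algebraMap F F₂ v ≠ 0 := (_root_.map_ne_zero _).mpr (ORC_v_ne C)
  have hb : algebraMap F F₂ (algebraMap K F b) ≠ 0 :=
    (_root_.map_ne_zero _).mpr ((_root_.map_ne_zero _).mpr C.hcon.hb)
  rw [← h2] at h1
  set t := tv K₂ F₂
  set V := algebraMap F F₂ v
  set U := algebraMap F F₂ u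
  set A := algebraMap K₂ F₂ α
  set B := algebraMap F F₂ (algebraMap K F b)
  have h4 : t * (1 - A * U) = B * V := by
    have : V * (t * (1 - A * U)) = V * (B * V) := by
      linear_combination (1 - A * U) * h3 - h1
    exact mul_left_cancel₀ hv this
  have ht : t ≠ 0 := by
    intro ht
    rw [ht, zero_mul] at h4
    rcases mul_eq_zero.mp h4.symm with h | h
    · exact hb h
    · exact hv h
  refine ⟨ht, ?_, ?_⟩
  · linear_combination t * h3 - h4
  · linear_combination t * h3 + h4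

theorem ORC_gz_ne (C : Cov a b u v α σ) : (gz b v α : F₂) ≠ 0 := by
  unfold gz
  refine div_ne_zero ((_root_.map_ne_zero _).mpr (mul_ne_zero ((_root_.map_ne_zero _).mpr C.hcon.hb)
    (pow_ne_zero 2 (ORC_v_ne C)))) (mul_ne_zero ((_root_.map_ne_zero _).mpr (ORC_alpha_ne C))
    (ORC_facts C).1)

theorem ORC_gz_val (C : Cov a b u v α σ) (E₂ : DVal F₂)
    (hK : ∀ z : K₂, E₂ (algebraMap K₂ F₂ z) = 0) :
    E₂ (gz b v α : F₂) = 2 * E₂ (algebraMap F F₂ v) - E₂ (tv K₂ F₂) := by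
  have hv : algebraMap F F₂ v ≠ 0 := (_root_.map_ne_zero _).mpr (ORC_v_ne C)
  have hb : algebraMap F F₂ (algebraMap K F b) ≠ 0 :=
    (_root_.map_ne_zero _).mpr ((_root_.map_ne_zero _).mpr C.hcon.hb)
  have hA : algebraMap K₂ F₂ α ≠ 0 := (_root_.map_ne_zero _).mpr (ORC_alpha_ne C)
  have hb0 : E₂ (algebraMap F F₂ (algebraMap K F b)) = 0 := by
    rw [← C.hcomm]; exact hK _
  unfold gz
  rw [map_mul, map_pow, E₂.toQVal.div (mul_ne_zero hb (pow_ne_zero 2 hv))
    (mul_ne_zero hA (ORC_facts C).1), E₂.toQVal.mul hb (pow_ne_zero 2 hv),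
    E₂.toQVal.pow hv, E₂.toQVal.mul hA (ORC_facts C).1, hb0, hK]
  push_cast
  ring

theorem upper (C : Cov a b u v α σ) (y : Fin c → K) (hy : IsTranscendenceBasis ℂ y)
    (E₂ : DVal F₂) (E : DVal F) (hE : ∀ f : F, E f = E₂ (algebraMap F F₂ f)) (κ : ℤ)
    (hκ : FIsOrd E₂ (cform (fun j => algebraMap K K₂ (y j)) (tv K₂ F₂)) κ) (k : ℤ)
    (hk : FOrdGE E (cform y u) k) : k ≤ κ + E₂ (gz b v α : F₂) := by
  have h1 := push_ge E E₂ hE (ycoord y u) (tb_F C.hcon y hy) k hk
  obtain ⟨δ, δ₂, hδ1, hδ2, hδ3, hδ4, hδ5⟩ := exists_delta C y hy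
  have h2 : (fun i => algebraMap F F₂ (ycoord y u i)) =
      Fin.append (fun j => algebraMap K₂ F₂ (algebraMap K K₂ (y j)))
        (fun _ : Fin 1 => algebraMap F F₂ u) := by
    funext i
    unfold ycoord
    refine Fin.addCases (fun j => ?_) (fun j => ?_) i
    · rw [Fin.append_left, Fin.append_left, C.hcomm]
    · rw [Fin.append_right, Fin.append_right]
  have h3 := wedge_last (fun j => algebraMap K₂ F₂ (algebraMap K K₂ (y j))) (tv K₂ F₂)
    (tb_t (K := K₂) (F := F₂) (fun j => algebraMap K K₂ (y j)) (tb_K₂ C y hy))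
    ((gz b v α : F₂) • δ₂) (by rw [Derivation.smul_apply, smul_eq_mul, hδ5])
    (fun j => by rw [Derivation.smul_apply, smul_eq_mul, hδ3, mul_zero]) (algebraMap F F₂ u)
  rw [h2, h3] at h1
  have h4 : ((gz b v α : F₂) • δ₂) (algebraMap F F₂ u) = gz b v α := by
    rw [Derivation.smul_apply, smul_eq_mul, hδ4, hδ1, map_one, mul_one]
  rw [h4] at h1
  exact le_of_fIsOrd_smul E₂.toQVal (ORC_gz_ne C) hκ h1

/-- reduction of the lower bound to another function `f` in place of `u` -/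
theorem ORC_change (C : Cov a b u v α σ) (y : Fin c → K) (hy : IsTranscendenceBasis ℂ y)
    (δ : Derivation ℂ F F) (hδ1 : δ u = 1) (hδ2 : ∀ k : K, δ (algebraMap K F k) = 0)
    (E : DVal F) (hEK : ∀ k : K, E (algebraMap K F k) = 0) (f : F) (hf : δ f ≠ 0)
    (hEf : 0 ≤ E f) :
    FOrdGE E (cform y u) (- E (δ f)) := by
  have h1 := wedge_last (fun j => algebraMap K F (y j)) u (tb_F C.hcon y hy) δ hδ1
    (fun j => hδ2 _) f
  have h2 : cform y u = fun d => (δ f)⁻¹ * cform y f d := by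
    funext d
    have h3 := congrFun h1 d
    change _ = (δ f)⁻¹ * wedge (Fin.append (fun j => algebraMap K F (y j)) (fun _ : Fin 1 => f)) d
    rw [h3, ← mul_assoc, inv_mul_cancel₀ hf, one_mul]
    rfl
  rw [h2]
  have h4 : FOrdGE E (cform y f) 0 := by
    refine fOrdGE_wedge E.toQVal _ ?_
    intro i
    unfold ycoord
    refine Fin.addCases (fun j => ?_) (fun j => ?_) i
    · rw [Fin.append_left]
      exact Or.inr (le_of_eq (hEK _).symm)
    · rw [Fin.append_right]
      exact Or.inr hEf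
  have h5 := fOrdGE_smul E.toQVal (g := (δ f)⁻¹) (l := - E (δ f))
    (Or.inr (le_of_eq (E.toQVal.inv _).symm)) h4
  rwa [add_zero] at h5

theorem ORC_two (E₂ : DVal F₂) : E₂ (2 : F₂) = 0 := by
  have := E₂.toQVal.const (2 : ℂ)
  rwa [map_ofNat] at this

theorem ORC_delta_v (C : Cov a b u v α σ)
    (δ : Derivation ℂ F F) (hδ1 : δ u = 1) (hδ2 : ∀ k : K, δ (algebraMap K F k) = 0) :
    algebraMap K F b * v * δ v = - (algebraMap K F a * u) := by
  have h1 := congrArg δ C.hcon.heq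
  rw [map_add, Derivation.leibniz, Derivation.leibniz, Derivation.leibniz_pow,
    Derivation.leibniz_pow, hδ2, hδ2, hδ1, Derivation.map_one_eq_zero] at h1
  simp only [smul_eq_mul, nsmul_eq_mul, Nat.cast_ofNat, mul_zero, add_zero, pow_one, mul_one,
    Nat.add_one_sub_one] at h1
  have h3 : (2 : F) * (algebraMap K F b * v * δ v) = 2 * (- (algebraMap K F a * u)) := by
    linear_combination h1
  have : CharZero F := charZero_of_injective_algebraMap (algebraMap ℂ F).injective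
  exact mul_left_cancel₀ two_ne_zero h3

/-- the values of the functions in the three cases -/
theorem ORC_lower (C : Cov a b u v α σ) (y : Fin c → K) (hy : IsTranscendenceBasis ℂ y)
    (E₂ : DVal F₂) (E : DVal F) (hE : ∀ f : F, E f = E₂ (algebraMap F F₂ f))
    (hK : ∀ z : K₂, E₂ (algebraMap K₂ F₂ z) = 0) :
    (E₂ (tv K₂ F₂) = 0 → FOrdGE E (cform y u) (E₂ (gz b v α : F₂))) ∧
    (E₂ (tv K₂ F₂) ≠ 0 → E₂ (gz b v α : F₂) = 2 * |E₂ (tv K₂ F₂)| - E₂ (tv K₂ F₂) ∧
      FOrdGE E (cform y u) |E₂ (tv K₂ F₂)|) := by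
  obtain ⟨δ, δ₂, hδ1, hδ2, hδ3, hδ4, hδ5⟩ := exists_delta C y hy
  obtain ⟨ht, hp, hm⟩ := ORC_facts C
  have hg := ORC_gz_val C E₂ hK
  have hv0 := ORC_v_ne C
  have hu0 := ORC_u_ne C
  have hv : algebraMap F F₂ v ≠ 0 := (_root_.map_ne_zero _).mpr hv0
  have hu : algebraMap F F₂ u ≠ 0 := (_root_.map_ne_zero _).mpr hu0
  have hb : algebraMap F F₂ (algebraMap K F b) ≠ 0 :=
    (_root_.map_ne_zero _).mpr ((_root_.map_ne_zero _).mpr C.hcon.hb)
  have hA : algebraMap K₂ F₂ α ≠ 0 := (_root_.map_ne_zero _).mpr (ORC_alpha_ne C)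
  have hb0 : E₂ (algebraMap F F₂ (algebraMap K F b)) = 0 := by
    rw [← C.hcomm]; exact hK _
  have hA0 : E₂ (algebraMap K₂ F₂ α) = 0 := hK _
  have h20 := ORC_two E₂
  have hch : CharZero F₂ := charZero_of_injective_algebraMap (algebraMap ℂ F₂).injective
  have h2 : (2 : F₂) ≠ 0 := two_ne_zero
  have hEK : ∀ k : K, E (algebraMap K F k) = 0 := by
    intro k
    rw [hE, ← C.hcomm]; exact hK _
  have hdv := ORC_delta_v C δ hδ1 hδ2
  have hEv : E v = E₂ (algebraMap F F₂ v) := hE v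
  have hEu : E u = E₂ (algebraMap F F₂ u) := hE u
  have hta : tv K₂ F₂ ^ 2 + algebraMap F F₂ (algebraMap K F b) ≠ 0 := by
    intro h
    rw [h, mul_zero] at hp
    exact mul_ne_zero h2 ht hp.symm
  have htb : tv K₂ F₂ ^ 2 - algebraMap F F₂ (algebraMap K F b) ≠ 0 := by
    intro h
    rw [h, mul_zero] at hm
    exact mul_ne_zero h2 (mul_ne_zero (mul_ne_zero hA hu) ht) hm.symm
  have hp' : E₂ (algebraMap F F₂ v) + E₂ (tv K₂ F₂ ^ 2 + algebraMap F F₂ (algebraMap K F b)) =
      E₂ (tv K₂ F₂) := by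
    have := congrArg E₂.v hp
    rw [E₂.toQVal.mul hv hta, E₂.toQVal.mul h2 ht, h20, zero_add] at this
    exact this
  have hm' : E₂ (algebraMap F F₂ v) + E₂ (tv K₂ F₂ ^ 2 - algebraMap F F₂ (algebraMap K F b)) =
      E₂ (algebraMap F F₂ u) + E₂ (tv K₂ F₂) := by
    have := congrArg E₂.v hm
    rw [E₂.toQVal.mul hv htb, E₂.toQVal.mul h2 (mul_ne_zero (mul_ne_zero hA hu) ht),
      E₂.toQVal.mul (mul_ne_zero hA hu) ht, E₂.toQVal.mul hA hu, hA0, h20, zero_add,
      zero_add] at this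
    exact this
  have ht2 : E₂ (tv K₂ F₂ ^ 2) = 2 * E₂ (tv K₂ F₂) := by
    rw [E₂.toQVal.pow ht]; norm_num
  have hbneg : E₂ (-algebraMap F F₂ (algebraMap K F b)) = 0 := by
    rw [E₂.toQVal.neg]; exact hb0
  constructor
  · intro hr
    have hge : 0 ≤ E₂ (tv K₂ F₂ ^ 2 + algebraMap F F₂ (algebraMap K F b)) := by
      have := E₂.toQVal.ge_add (a := 0) (f := tv K₂ F₂ ^ 2)
        (g := algebraMap F F₂ (algebraMap K F b)) (Or.inr (by rw [ht2, hr]; norm_num))
        (Or.inr (by rw [hb0]))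
      rcases this with h | h
      · exact absurd h hta
      · exact h
    rcases eq_or_lt_of_le hge with h0 | hpos
    · -- everything regular
      have hW : E₂ (algebraMap F F₂ v) = 0 := by omega
      have hg0 : E₂ (gz b v α : F₂) = 0 := by rw [hg, hW, hr]; norm_num
      rw [hg0]
      have hge2 : 0 ≤ E₂ (tv K₂ F₂ ^ 2 - algebraMap F F₂ (algebraMap K F b)) := by
        have := E₂.toQVal.ge_sub (a := 0) (f := tv K₂ F₂ ^ 2)
          (g := algebraMap F F₂ (algebraMap K F b)) (Or.inr (by rw [ht2, hr]; norm_num))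
          (Or.inr (by rw [hb0]))
        rcases this with h | h
        · exact absurd h htb
        · exact h
      have h5 := ORC_change C y hy δ hδ1 hδ2 E hEK u (by rw [hδ1]; exact one_ne_zero)
        (by rw [hEu]; omega)
      rw [hδ1, E.toQVal.one, neg_zero] at h5
      exact h5
    · -- pole of `u`
      have hmb : E₂ (tv K₂ F₂ ^ 2 - algebraMap F F₂ (algebraMap K F b)) = 0 := by
        have h6 : tv K₂ F₂ ^ 2 - algebraMap F F₂ (algebraMap K F b) =
            -(2 * algebraMap F F₂ (algebraMap K F b)) +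
              (tv K₂ F₂ ^ 2 + algebraMap F F₂ (algebraMap K F b)) := by ring
        have h7 : E₂ (-(2 * algebraMap F F₂ (algebraMap K F b))) = 0 := by
          rw [E₂.toQVal.neg, E₂.toQVal.mul h2 hb, h20, hb0]; norm_num
        rw [h6]
        rw [(E₂.toQVal.add_of_gt (f := -(2 * algebraMap F F₂ (algebraMap K F b)))
          (g := tv K₂ F₂ ^ 2 + algebraMap F F₂ (algebraMap K F b))
          (neg_ne_zero.mpr (mul_ne_zero h2 hb)) (Or.inr (by rw [h7]; omega))).2, h7]
      have hUneg : E u = E₂ (algebraMap F F₂ v) := by rw [hEu]; omega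
      have hui : δ u⁻¹ = -(u ^ 2)⁻¹ := by
        rw [Derivation.leibniz_inv, hδ1, smul_eq_mul, mul_one, inv_pow]
      have hdu : E (δ u⁻¹) = -(2 * E u) := by
        rw [hui, E.toQVal.neg, E.toQVal.inv, E.toQVal.pow hu0]; norm_num
      have h5 := ORC_change C y hy δ hδ1 hδ2 E hEK u⁻¹
        (by rw [hui]; exact neg_ne_zero.mpr (inv_ne_zero (pow_ne_zero 2 hu0)))
        (by rw [E.toQVal.inv, hUneg]; omega)
      rw [hdu, neg_neg, hUneg] at h5
      rw [hg, hr, sub_zero]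
      exact h5
  · intro hr
    have hW : E₂ (algebraMap F F₂ v) = |E₂ (tv K₂ F₂)| := by
      rcases lt_or_gt_of_ne hr with hneg | hpos
      · rw [abs_of_neg hneg]
        have h6 : E₂ (tv K₂ F₂ ^ 2 + algebraMap F F₂ (algebraMap K F b)) =
            2 * E₂ (tv K₂ F₂) := by
          rw [(E₂.toQVal.add_of_gt (f := tv K₂ F₂ ^ 2)
            (g := algebraMap F F₂ (algebraMap K F b)) (pow_ne_zero 2 ht)
            (Or.inr (by rw [ht2, hb0]; omega))).2, ht2]
        omega
      · rw [abs_of_pos hpos]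
        have h6 : E₂ (tv K₂ F₂ ^ 2 + algebraMap F F₂ (algebraMap K F b)) = 0 := by
          rw [add_comm, (E₂.toQVal.add_of_gt (f := algebraMap F F₂ (algebraMap K F b))
            (g := tv K₂ F₂ ^ 2) hb (Or.inr (by rw [ht2, hb0]; omega))).2, hb0]
        omega
    have hU : E₂ (algebraMap F F₂ u) = 0 := by
      rcases lt_or_gt_of_ne hr with hneg | hpos
      · have h6 : E₂ (tv K₂ F₂ ^ 2 - algebraMap F F₂ (algebraMap K F b)) =
            2 * E₂ (tv K₂ F₂) := by
          rw [sub_eq_add_neg, (E₂.toQVal.add_of_gt (f := tv K₂ F₂ ^ 2)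
            (g := -algebraMap F F₂ (algebraMap K F b)) (pow_ne_zero 2 ht)
            (Or.inr (by rw [ht2, hbneg]; omega))).2, ht2]
        rw [abs_of_neg hneg] at hW
        omega
      · have h6 : E₂ (tv K₂ F₂ ^ 2 - algebraMap F F₂ (algebraMap K F b)) = 0 := by
          rw [sub_eq_neg_add, (E₂.toQVal.add_of_gt
            (f := -algebraMap F F₂ (algebraMap K F b))
            (g := tv K₂ F₂ ^ 2) (neg_ne_zero.mpr hb) (Or.inr (by rw [ht2, hbneg]; omega))).2,
            hbneg]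
        rw [abs_of_pos hpos] at hW
        omega
    refine ⟨by rw [hg, hW], ?_⟩
    have hbF : algebraMap K F b ≠ 0 := (_root_.map_ne_zero _).mpr C.hcon.hb
    have haF : algebraMap K F a ≠ 0 := (_root_.map_ne_zero _).mpr C.hcon.ha
    have hdv0 : δ v ≠ 0 := by
      intro h
      rw [h, mul_zero] at hdv
      exact neg_ne_zero.mpr (mul_ne_zero haF hu0) hdv.symm
    have hdvE : E (δ v) = - |E₂ (tv K₂ F₂)| := by
      have h7 := congrArg E.v hdv
      rw [E.toQVal.mul (mul_ne_zero hbF hv0) hdv0, E.toQVal.mul hbF hv0] at h7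
      have h8 : E.v (-(algebraMap K F a * u)) = 0 := by
        rw [E.toQVal.neg, E.toQVal.mul haF hu0, hEu, hU, add_zero]
        exact hEK a
      rw [h8, hEv, hW] at h7
      have h9 : E.v (algebraMap K F b) = 0 := hEK b
      rw [h9] at h7
      omega
    have h5 := ORC_change C y hy δ hδ1 hδ2 E hEK v hdv0
      (by rw [hEv, hW]; exact abs_nonneg _)
    rw [hdvE, neg_neg] at h5
    exact h5

theorem cform_ordPol (C : Cov a b u v α σ) (y : Fin c → K) (hy : IsTranscendenceBasis ℂ y)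
    (E₂ : DVal F₂) (E : DVal F) (hE : ∀ f : F, E f = E₂ (algebraMap F F₂ f)) (q : K₂[X])
    (hq : Irreducible q) (h : IsOrdPol (K := K₂) E₂ q) :
    FIsOrd E (cform y u) (E₂ (gz b v α : F₂)) := by
  have hK : ∀ z : K₂, E₂ (algebraMap K₂ F₂ z) = 0 := fun z => ordPol_const hq h z
  obtain ⟨h1, h2⟩ := ORC_lower C y hy E₂ E hE hK
  have hlow : FOrdGE E (cform y u) (E₂ (gz b v α : F₂)) := by
    by_cases hdvd : q ∣ X
    · have hr : E₂ (tv K₂ F₂) = 1 := by
        obtain ⟨s, hs⟩ := hdvd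
        have hs0 : s ≠ 0 := by
          rintro rfl
          rw [mul_zero] at hs
          exact X_ne_zero hs
        have hns : ¬ q ∣ s := by
          intro hqs
          have hirr : Irreducible (X : K₂[X]) := irreducible_X
          rcases hirr.isUnit_or_isUnit hs with hu | hu
          · exact hq.not_isUnit hu
          · exact hq.not_isUnit (isUnit_of_dvd_unit hqs hu)
        have h3 := h 1 s hs0 hns
        rw [pow_one, ← hs] at h3
        exact_mod_cast h3
      obtain ⟨h3, h4⟩ := h2 (by rw [hr]; norm_num)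
      rw [h3]
      rw [hr] at h4 ⊢
      norm_num at h4 ⊢
      exact h4
    · have hr : E₂ (tv K₂ F₂) = 0 := ordPol_of_not_dvd h X X_ne_zero hdvd
      exact h1 hr
  refine ⟨hlow, ?_⟩
  intro hk
  have h3 := cform_pol (K := K₂) (F := F₂) (fun j => algebraMap K K₂ (y j)) (tb_K₂ C y hy) E₂ q hq h
  have h4 := upper C y hy E₂ E hE 0 h3 _ hk
  omega

theorem cform_ordInf (C : Cov a b u v α σ) (y : Fin c → K) (hy : IsTranscendenceBasis ℂ y)
    (E₂ : DVal F₂) (E : DVal F) (hE : ∀ f : F, E f = E₂ (algebraMap F F₂ f))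
    (h : IsOrdInf K₂ E₂) : FIsOrd E (cform y u) (E₂ (gz b v α : F₂) - 2) := by
  have hK : ∀ z : K₂, E₂ (algebraMap K₂ F₂ z) = 0 := fun z => ordInf_const h z
  obtain ⟨h1, h2⟩ := ORC_lower C y hy E₂ E hE hK
  have hr : E₂ (tv K₂ F₂) = -1 := by
    have h3 := h X X_ne_zero
    rw [natDegree_X] at h3
    exact_mod_cast h3
  obtain ⟨h3, h4⟩ := h2 (by rw [hr]; norm_num)
  have hg : E₂ (gz b v α : F₂) - 2 = |E₂ (tv K₂ F₂)| := by
    rw [h3, hr]; norm_num
  refine ⟨by rw [hg]; exact h4, ?_⟩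
  intro hk
  have h5 := cform_inf (K := K₂) (F := F₂) (fun j => algebraMap K K₂ (y j)) (tb_K₂ C y hy) E₂ h
  have h6 := upper C y hy E₂ E hE (-2) h5 _ hk
  omega

end WNP
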