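import Pool.Agent.WNP.PRD

/-!
PRV. The product formula for real combinations of rational functions.
-/

set_option linter.unusedSectionVars false

open Polynomial WNV

namespace WNP

variable {K F : Type} [Field K] [Algebra ℂ K] [Field F] [Algebra ℂ F]
    [Algebra K F] [IsScalarTower ℂ K F] [Algebra K[X] F] [IsScalarTower K K[X] F]
    [IsFractionRing K[X] F]

theorem product_val (φ : F →₀ ℝ) (Ev : K[X] → DVal F)
    (hEv : ∀ q, q.Monic → Irreducible q → IsOrdPol (K := K) (Ev q) q) (E₀ : DVal F)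
    (h₀ : IsOrdInf K E₀) (S : Finset K[X]) (hm : ∀ q ∈ S, q.Monic) (hi : ∀ q ∈ S, Irreducible q)
    (hS : ∀ f ∈ φ.support, f ≠ 0 → ∀ q : K[X], q.Monic → Irreducible q → Ev q f ≠ 0 → q ∈ S) :
    ∑ q ∈ S, (q.natDegree : ℝ) * val φ (Ev q) + val φ E₀ = 0 := by
  have key : ∀ f ∈ φ.support,
      ∑ q ∈ S, (q.natDegree : ℝ) * (Ev q f : ℝ) + (E₀ f : ℝ) = 0 := by
    intro f hf
    by_cases hf0 : f = 0
    · subst hf0
      simp
    · have h := product_formula (K := K) (ι := {q // q ∈ S}) (fun q => q.1) (fun q => hm q.1 q.2)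
        (fun q => hi q.1 q.2) Subtype.val_injective (fun q => Ev q.1)
        (fun q => hEv q.1 (hm q.1 q.2) (hi q.1 q.2)) E₀ h₀ f hf0 (by
          intro q E' hqm hqi hE' hne
          have hEq : E' = Ev q := ordPol_unique hqi hE' (hEv q hqm hqi)
          subst hEq
          exact ⟨⟨q, hS f hf hf0 q hqm hqi hne⟩, rfl⟩)
      have h2 : ∑ q ∈ S, ((q.natDegree : ℤ)) * Ev q f + E₀ f = 0 := by
        rw [← Finset.sum_coe_sort S (fun q => ((q.natDegree : ℤ)) * Ev q f)]
        exact h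
      exact_mod_cast h2
  simp only [val_eq_sum, Finset.mul_sum]
  rw [Finset.sum_comm, ← Finset.sum_add_distrib]
  refine Finset.sum_eq_zero fun f hf => ?_
  have := key f hf
  have h3 : ∑ q ∈ S, (q.natDegree : ℝ) * (φ f * (Ev q f : ℝ)) + φ f * (E₀ f : ℝ)
      = φ f * (∑ q ∈ S, (q.natDegree : ℝ) * (Ev q f : ℝ) + (E₀ f : ℝ)) := by
    rw [mul_add, Finset.mul_sum]
    congr 1
    refine Finset.sum_congr rfl fun q _ => ?_
    ring
  rw [h3, this, mul_zero]

end WNP
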