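import Pool.Agent.WNP.DGA
import Pool.Agent.WNP.PRV
import Pool.Agent.WNP.ORC
import Pool.Agent.WNV.ASC

/-!
DGB. The degree of `K_X + Δ` on the generic fibre is nonnegative: `∑ deg P · δ_P ≥ 2`.

PROOF. For `E : DVal F` put `h E = E (x 0) - min_j E (x j) ≥ 0`. Let `S₁ ⊇ S₀` be a finite set of
monic irreducible polynomials which contains all `q` with `Ev q (algebraMap (x j)) ≠ 0` for some `j` or
`Ev q (gz) ≠ 0` (`finite_support`; `gz ≠ 0`, see `exists_delta`), and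
`M = ∑ q ∈ S₁, deg q * h (Rv q) + h R₀`, a fixed real number. It is enough to show
`0 ≤ -2 + ∑ q ∈ S₀, deg q * δ q + δ₀ + ε * M` for all `ε > 0`. Let `φ` be given by `S.hP ε`. Let
`S₂ ⊇ S₁` be finite and contain also the `q` with `Ev q (algebraMap f) ≠ 0` for some `f ≠ 0` in the
support of `φ`. For `q ∈ S₂`, `ineq_at` with `E = Rv q` (trivial on `K`: `ordPol_const`, `C.hcomm`),
`a' = Ev q gz` (`cform_ordPol`), `i` with `E (x i)` minimal (`Finite.exists_min`):
`0 ≤ Ev q gz + δ q + ε h (Rv q) + val φ (Rv q)`; at infinity: `0 ≤ E₀ gz - 2 + δ₀ + ε h R₀ + val φ R₀`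
(`cform_ordInf`, `ordInf_const`). Multiply with `deg q` and add up over `S₂`:
`∑ deg q * Ev q gz + E₀ gz = 0` (`product_val` for `Finsupp.single gz 1`), and
`∑ deg q * val φ (Rv q) + val φ R₀ = 0` (`product_val` for the image `φ₂` of `φ` in `F₂`,
`WNV.lift F₂ φ` and `val_lift`, from `Pool/Agent/WNV/ASC.lean`); the terms with `q ∉ S₀` of
`∑ deg q * δ q` vanish (`hz`), the terms with `q ∉ S₁` of `∑ deg q * h (Rv q)` vanish.
-/

set_option linter.unusedSectionVars false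

open Polynomial WNV

namespace WNP

variable {c N : ℕ} {K F K₂ F₂ : Type} [Field K] [Field F] [Field K₂] [Field F₂]
    [Algebra ℂ K] [Algebra ℂ F] [Algebra ℂ K₂] [Algebra ℂ F₂]
    [Algebra K F] [Algebra K K₂] [Algebra F F₂] [Algebra K₂ F₂] [Algebra K₂[X] F₂]
    [IsScalarTower ℂ K F] [IsScalarTower ℂ K K₂] [IsScalarTower ℂ F F₂] [IsScalarTower ℂ K₂ F₂]
    [IsScalarTower K₂ K₂[X] F₂] [IsFractionRing K₂[X] F₂]
    {a b : K} {u v : F} {α : K₂} {σ : F₂ ≃+* F₂} {x : Fin (N + 1) → F} {Δ D : DVal F → ℝ}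

/-- `DGB` helper: only finitely many valuations see a finite set of functions. -/
private lemma dgb_fin (Ev : K₂[X] → DVal F₂)
    (hEv : ∀ q, q.Monic → Irreducible q → IsOrdPol (K := K₂) (Ev q) q) (T : Finset F₂) :
    {q : K₂[X] | q.Monic ∧ Irreducible q ∧ ∃ f ∈ T, f ≠ 0 ∧ Ev q f ≠ 0}.Finite := by
  have h1 : ∀ f ∈ (T : Set F₂), {q : K₂[X] | q.Monic ∧ Irreducible q ∧ f ≠ 0 ∧
      ∃ E : DVal F₂, IsOrdPol (K := K₂) E q ∧ E f ≠ 0}.Finite := by
    intro f _
    by_cases hf : f = 0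
    · refine Set.Finite.subset Set.finite_empty ?_
      rintro q ⟨_, _, h, _⟩
      exact absurd hf h
    · refine Set.Finite.subset (finite_support K₂ f hf) ?_
      rintro q ⟨h1, h2, _, h3⟩
      exact ⟨h1, h2, h3⟩
  refine Set.Finite.subset (Set.Finite.biUnion T.finite_toSet h1) ?_
  rintro q ⟨hm, hi, f, hf, hf0, hne⟩
  rw [Set.mem_iUnion₂]
  exact ⟨f, hf, hm, hi, hf0, Ev q, hEv q hm hi, hne⟩

/-- `DGB` helper: from all `ε > 0` to `0`. -/
private lemma dgb_eps {A M : ℝ} (h : ∀ ε : ℝ, 0 < ε → 0 ≤ A + ε * M) : 0 ≤ A := by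
  by_contra hA
  rw [not_le] at hA
  have h1 : 0 < |M| + 1 := by positivity
  have h2 := h (-A / (|M| + 1)) (div_pos (neg_pos.mpr hA) h1)
  have h3 : -A / (|M| + 1) * M ≤ -A / (|M| + 1) * |M| :=
    mul_le_mul_of_nonneg_left (le_abs_self M) (div_pos (neg_pos.mpr hA) h1).le
  have h4 : -A / (|M| + 1) * |M| < -A := by
    rw [div_mul_eq_mul_div, div_lt_iff₀ h1]
    nlinarith [neg_pos.mpr hA]
  linarith

theorem degree_ge (C : Cov a b u v α σ) (y : Fin c → K) (hy : IsTranscendenceBasis ℂ y)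
    (S : Sit K x (cform y u) Δ D) (Ev : K₂[X] → DVal F₂) (Rv : K₂[X] → DVal F)
    (hEv : ∀ q, q.Monic → Irreducible q → IsOrdPol (K := K₂) (Ev q) q)
    (hRv : ∀ q, q.Monic → Irreducible q → ∀ f : F, Rv q f = Ev q (algebraMap F F₂ f))
    (E₀ : DVal F₂) (R₀ : DVal F) (hE₀ : IsOrdInf K₂ E₀)
    (hR₀ : ∀ f : F, R₀ f = E₀ (algebraMap F F₂ f)) (δ : K₂[X] → ℝ) (δ₀ : ℝ)
    (h1 : ∀ q, q.Monic → Irreducible q → (∃ k, IsPrimeOf (chart x k) (Rv q)) → δ q = Δ (Rv q))
    (h2 : ∀ q, q.Monic → Irreducible q → (¬ ∃ k, IsPrimeOf (chart x k) (Rv q)) → δ q = 1)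
    (h3 : (∃ k, IsPrimeOf (chart x k) R₀) → δ₀ = Δ R₀)
    (h4 : (¬ ∃ k, IsPrimeOf (chart x k) R₀) → δ₀ = 1)
    (S₀ : Finset K₂[X]) (hS₀ : ∀ q ∈ S₀, q.Monic ∧ Irreducible q)
    (hz : ∀ q, q.Monic → Irreducible q → q ∉ S₀ → δ q = 0) :
    2 ≤ ∑ q ∈ S₀, (q.natDegree : ℝ) * δ q + δ₀ := by
  classical
  choose im him using fun E : DVal F => Finite.exists_min (fun j => E (x j))
  have hx := S.hx
  set hh : DVal F → ℝ := fun E => (E (x 0 / x (im E)) : ℝ) with hhdef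
  set T₁ : Finset F₂ := insert (gz b v α) (Finset.univ.image fun j => algebraMap F F₂ (x j))
    with hT₁
  set S₁ : Finset K₂[X] := S₀ ∪ (dgb_fin Ev hEv T₁).toFinset with hS₁
  have hmi₁ : ∀ q ∈ S₁, q.Monic ∧ Irreducible q := by
    intro q hq
    rcases Finset.mem_union.mp hq with h | h
    · exact hS₀ q h
    · have := (Set.Finite.mem_toFinset _).mp h
      exact ⟨this.1, this.2.1⟩
  have hout₁ : ∀ q, q.Monic → Irreducible q → q ∉ S₁ → ∀ f ∈ T₁, f ≠ 0 → Ev q f = 0 := by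
    intro q hm hi hq f hf hf0
    by_contra hne
    exact hq (Finset.mem_union_right _ ((Set.Finite.mem_toFinset _).mpr ⟨hm, hi, f, hf, hf0, hne⟩))
  have hh0 : ∀ q, q.Monic → Irreducible q → q ∉ S₁ → hh (Rv q) = 0 := by
    intro q hm hi hq
    have h5 : ∀ j, Rv q (x j) = 0 := by
      intro j
      rw [hRv q hm hi]
      refine hout₁ q hm hi hq _ ?_ ((_root_.map_ne_zero _).mpr (hx j))
      exact Finset.mem_insert_of_mem (Finset.mem_image_of_mem _ (Finset.mem_univ j))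
    have h6 : Rv q (x 0 / x (im (Rv q))) = 0 := by
      have e1 : Rv q (x 0 / x (im (Rv q))) = Rv q (x 0) - Rv q (x (im (Rv q))) :=
        (Rv q).toQVal.div (hx 0) (hx _)
      rw [e1, h5, h5, sub_zero]
    show ((Rv q (x 0 / x (im (Rv q))) : ℤ) : ℝ) = 0
    rw [h6, Int.cast_zero]
  have hmain : ∀ ε : ℝ, 0 < ε → 0 ≤ (-2 + ∑ q ∈ S₀, (q.natDegree : ℝ) * δ q + δ₀) +
      ε * (∑ q ∈ S₁, (q.natDegree : ℝ) * hh (Rv q) + hh R₀) := by
    intro ε hε
    obtain ⟨φ, hφ⟩ := S.hP ε hε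
    set S₂ : Finset K₂[X] := S₁ ∪ (dgb_fin Ev hEv (lift F₂ φ).support).toFinset with hS₂
    have hmi₂ : ∀ q ∈ S₂, q.Monic ∧ Irreducible q := by
      intro q hq
      rcases Finset.mem_union.mp hq with h | h
      · exact hmi₁ q h
      · have := (Set.Finite.mem_toFinset _).mp h
        exact ⟨this.1, this.2.1⟩
    have hineq : ∀ q ∈ S₂, 0 ≤ (Ev q (gz b v α) : ℝ) + δ q + ε * hh (Rv q) + val φ (Rv q) := by
      intro q hq
      obtain ⟨hm, hi⟩ := hmi₂ q hq
      have hK : ∀ a : K, Rv q (algebraMap K F a) = 0 := by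
        intro a
        rw [hRv q hm hi, ← C.hcomm]
        exact ordPol_const hi (hEv q hm hi) _
      exact ineq_at S ε φ hφ (Rv q) hK (Ev q (gz b v α))
        (cform_ordPol C y hy (Ev q) (Rv q) (hRv q hm hi) q hi (hEv q hm hi)) (δ q)
        (h1 q hm hi) (h2 q hm hi) (im (Rv q)) (him (Rv q))
    have hinf : 0 ≤ ((E₀ (gz b v α) - 2 : ℤ) : ℝ) + δ₀ + ε * hh R₀ + val φ R₀ := by
      have hK : ∀ a : K, R₀ (algebraMap K F a) = 0 := by
        intro a
        rw [hR₀, ← C.hcomm]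
        exact ordInf_const hE₀ _
      exact ineq_at S ε φ hφ R₀ hK (E₀ (gz b v α) - 2) (cform_ordInf C y hy E₀ R₀ hR₀ hE₀) δ₀
        h3 h4 (im R₀) (him R₀)
    have hgz : ∑ q ∈ S₂, (q.natDegree : ℝ) * (Ev q (gz b v α) : ℝ) + (E₀ (gz b v α) : ℝ) = 0 := by
      have h5 := product_val (K := K₂) (Finsupp.single (gz b v α) (1 : ℝ)) Ev hEv E₀ hE₀ S₂
        (fun q hq => (hmi₂ q hq).1) (fun q hq => (hmi₂ q hq).2) (by
          intro f hf hf0 q hm hi hne
          have hf1 : f = gz b v α := by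
            have := Finsupp.support_single_subset hf
            exact Finset.mem_singleton.mp this
          subst hf1
          by_contra hq
          exact hne (hout₁ q hm hi (fun h => hq (Finset.mem_union_left _ h)) _
            (Finset.mem_insert_self _ _) hf0))
      simpa only [val_single, one_mul] using h5
    have hlift : ∑ q ∈ S₂, (q.natDegree : ℝ) * val φ (Rv q) + val φ R₀ = 0 := by
      have h5 := product_val (K := K₂) (lift F₂ φ) Ev hEv E₀ hE₀ S₂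
        (fun q hq => (hmi₂ q hq).1) (fun q hq => (hmi₂ q hq).2) (by
          intro f hf hf0 q hm hi hne
          exact Finset.mem_union_right _ ((Set.Finite.mem_toFinset _).mpr
            ⟨hm, hi, f, hf, hf0, hne⟩))
      rw [val_lift] at h5
      have h6 : (fun f => E₀ (algebraMap F F₂ f)) = (R₀ : F → ℤ) := by
        funext f
        exact (hR₀ f).symm
      rw [h6] at h5
      rw [← h5]
      congr 1
      refine Finset.sum_congr rfl fun q hq => ?_
      obtain ⟨hm, hi⟩ := hmi₂ q hq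
      rw [val_lift]
      have h7 : (fun f => Ev q (algebraMap F F₂ f)) = (Rv q : F → ℤ) := by
        funext f
        exact (hRv q hm hi f).symm
      rw [h7]
    have hsum : 0 ≤ ∑ q ∈ S₂, (q.natDegree : ℝ) *
        ((Ev q (gz b v α) : ℝ) + δ q + ε * hh (Rv q) + val φ (Rv q)) :=
      Finset.sum_nonneg fun q hq => mul_nonneg (Nat.cast_nonneg _) (hineq q hq)
    have hsplit : ∑ q ∈ S₂, (q.natDegree : ℝ) *
        ((Ev q (gz b v α) : ℝ) + δ q + ε * hh (Rv q) + val φ (Rv q)) =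
        ∑ q ∈ S₂, (q.natDegree : ℝ) * (Ev q (gz b v α) : ℝ) +
        ∑ q ∈ S₂, (q.natDegree : ℝ) * δ q + ε * ∑ q ∈ S₂, (q.natDegree : ℝ) * hh (Rv q) +
        ∑ q ∈ S₂, (q.natDegree : ℝ) * val φ (Rv q) := by
      rw [Finset.mul_sum, ← Finset.sum_add_distrib, ← Finset.sum_add_distrib,
        ← Finset.sum_add_distrib]
      refine Finset.sum_congr rfl fun q _ => ?_
      ring
    have hδ : ∑ q ∈ S₂, (q.natDegree : ℝ) * δ q = ∑ q ∈ S₀, (q.natDegree : ℝ) * δ q := by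
      symm
      refine Finset.sum_subset (fun q hq => Finset.mem_union_left _ (Finset.mem_union_left _ hq))
        fun q hq hq0 => ?_
      rw [hz q (hmi₂ q hq).1 (hmi₂ q hq).2 hq0, mul_zero]
    have hhs : ∑ q ∈ S₂, (q.natDegree : ℝ) * hh (Rv q) =
        ∑ q ∈ S₁, (q.natDegree : ℝ) * hh (Rv q) := by
      symm
      refine Finset.sum_subset (fun q hq => Finset.mem_union_left _ hq) fun q hq hq0 => ?_
      rw [hh0 q (hmi₂ q hq).1 (hmi₂ q hq).2 hq0, mul_zero]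
    rw [hsplit, hδ, hhs] at hsum
    push_cast at hinf
    linear_combination hsum + hinf + hgz + hlift
  have := dgb_eps hmain
  linarith

end WNP
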