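import Pool.Agent.WNV.VAL

/-!
EXQ. Extension of a discrete valuation to a (possibly trivial) quadratic extension `F₂ = F(α)`,
multiplied by `2`.

PROOF. Let `A : Subring F₂` be the image of the valuation ring `{f : f = 0 ∨ 0 ≤ E f}` of `E`, `I` the
ideal of `A` of the elements of value `≥ 1` (`I ≠ ⊤`). By `Ideal.image_subset_nonunits_valuationSubring`
there is a valuation subring `V` of `F₂` with `A ≤ V` and `I ⊆ V.nonunits`. Choose `π : F` with
`E π = 1` (`E.surj'`). For `f : F`, `f ≠ 0`, `E f = n`: `f π^(-n)` and its inverse lie in `A`, so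
`algebraMap (f / π^n)` is a unit of `V`.
Claim: for every `g : F₂`, `g ≠ 0` there is `m : ℤ` with `g² / π^m` a unit of `V` (write `v h = 0` for
this; use the valuation `V.valuation`, an element `h ≠ 0` is a unit of `V` iff `V.valuation h = 1`).
Let `g = x + y α` (`x y : F`), `T = 2x`, `N = x² - a y²`, so `g² - T g + N = 0`. If `T = 0` then
`g² = -N` (`N ≠ 0`). If `N = 0` then `g = T`. Else of the three values `v(g²)`, `v(T g)`, `v(N)` the
two largest (multiplicatively) agree: if `v(g²) = v(N)`: done; if `v(g²) = v(T g)` then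
`v(g) = v(T)`, `v(g²) = v(T²)`; if `v(T g) = v(N)` then `v(g²) = v(N²/T²)`. In every case
`v(g²) = v(f)` for some `f : F`, `f ≠ 0`, and `v(f) = v(π^(E f))`. The number `m` is unique, since
`π^n` is a unit of `V` only for `n = 0` (`π ∈ I` is a nonunit). Put `E₂ g = m` (`E₂ 0 = 0`).
`mul'`: clear. `add'`: if `E₂ g ≤ E₂ h` then `(h/g)² = π^(E₂ h - E₂ g) · unit` lies in `V`, so `h/g` lies in
`V` (`v(h/g)² ≤ 1` implies `v(h/g) ≤ 1`), so `(g + h)/g ∈ V`, its square has `v ≤ 1`, which gives
`E₂ (g + h) ≥ E₂ g`. `const'`: for a constant `c ≠ 0`, `E c = 0`. Restriction: `f² / π^(2 E f)` is a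
unit of `V`.
-/

open WNV

namespace WNP

private theorem EXQ_val {F₂ : Type} [Field F₂] (F : Type) [Field F] [Algebra ℂ F] [Algebra F F₂]
    (E : DVal F) (p : F) (hp : p ≠ 0) (hEp : E p = 1) :
    ∃ V : ValuationSubring F₂, V.valuation (algebraMap F F₂ p) < 1 ∧
      ∀ f : F, f ≠ 0 → V.valuation (algebraMap F F₂ f) =
        V.valuation (algebraMap F F₂ p) ^ (E f : ℤ) := by
  classical
  let A : Subring F₂ :=
    { carrier := {g | ∃ f : F, Ge E 0 f ∧ g = algebraMap F F₂ f}
      mul_mem' := by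
        rintro _ _ ⟨f, hf, rfl⟩ ⟨g, hg, rfl⟩
        exact ⟨f * g, by simpa using E.toQVal.ge_mul hf hg, by rw [map_mul]⟩
      one_mem' := ⟨1, E.toQVal.ge_one, by rw [map_one]⟩
      add_mem' := by
        rintro _ _ ⟨f, hf, rfl⟩ ⟨g, hg, rfl⟩
        exact ⟨f + g, E.toQVal.ge_add hf hg, by rw [map_add]⟩
      zero_mem' := ⟨0, Or.inl rfl, by rw [map_zero]⟩
      neg_mem' := by
        rintro _ ⟨f, hf, rfl⟩
        exact ⟨-f, E.toQVal.ge_neg hf, by rw [map_neg]⟩ }
  let I : Ideal A :=
    { carrier := {g | ∃ f : F, Ge E 1 f ∧ (g : F₂) = algebraMap F F₂ f}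
      add_mem' := by
        rintro a b ⟨f, hf, hf'⟩ ⟨g, hg, hg'⟩
        exact ⟨f + g, E.toQVal.ge_add hf hg, by rw [map_add, ← hf', ← hg']; rfl⟩
      zero_mem' := ⟨0, Or.inl rfl, by rw [map_zero]; rfl⟩
      smul_mem' := by
        rintro ⟨_, ⟨f, hf, rfl⟩⟩ b ⟨g, hg, hg'⟩
        refine ⟨f * g, by simpa using E.toQVal.ge_mul hf hg, ?_⟩
        rw [map_mul, ← hg']; rfl }
  have hI : I ≠ ⊤ := by
    intro h
    have h1 : (1 : A) ∈ I := by rw [h]; trivial
    obtain ⟨f, hf, hf'⟩ := h1
    have h2 : f = 1 := by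
      apply (algebraMap F F₂).injective
      rw [map_one, ← hf']; rfl
    subst h2
    rcases hf with hf | hf
    · exact one_ne_zero hf
    · have h3 : E (1 : F) = 0 := E.toQVal.one
      omega
  obtain ⟨V, hAV, hIV⟩ := Ideal.image_subset_nonunits_valuationSubring I hI
  have hle : ∀ f : F, Ge E 0 f → V.valuation (algebraMap F F₂ f) ≤ 1 := by
    intro f hf
    rw [V.valuation_le_one_iff]
    exact hAV (show algebraMap F F₂ f ∈ A from ⟨f, hf, rfl⟩)
  have h0 : ∀ f : F, f ≠ 0 → E f = 0 → V.valuation (algebraMap F F₂ f) = 1 := by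
    intro f hf hEf
    have h1 := hle f (Or.inr (le_of_eq hEf.symm))
    have h2 := hle f⁻¹ (Or.inr (by
      have h3 : E f⁻¹ = - E f := E.toQVal.inv f
      omega))
    rw [map_inv₀, map_inv₀] at h2
    have hne : V.valuation (algebraMap F F₂ f) ≠ 0 := by
      rw [Valuation.ne_zero_iff]
      simpa using hf
    refine le_antisymm h1 ?_
    have h4 := (inv_le_one₀ (zero_lt_iff.2 hne)).1 h2
    exact h4
  have hlt : V.valuation (algebraMap F F₂ p) < 1 := by
    rw [← V.mem_nonunits_iff]
    have hpA : algebraMap F F₂ p ∈ A := ⟨p, Or.inr (by omega), rfl⟩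
    exact hIV ⟨⟨algebraMap F F₂ p, hpA⟩, ⟨p, Or.inr (by omega), rfl⟩, rfl⟩
  refine ⟨V, hlt, ?_⟩
  intro f hf
  have hne : p ^ (E f : ℤ) ≠ 0 := zpow_ne_zero _ hp
  have h1 : E (f / p ^ (E f : ℤ)) = 0 := by
    have h2 : E (f / p ^ (E f : ℤ)) = E f - E (p ^ (E f : ℤ)) := E.toQVal.div hf hne
    have h3 : E (p ^ (E f : ℤ)) = E f * E p := E.toQVal.zpow hp _
    rw [h2, h3, hEp]; ring
  have h2 := h0 _ (div_ne_zero hf hne) h1
  rw [map_div₀, map_div₀, map_zpow₀, map_zpow₀] at h2
  have hne' : V.valuation (algebraMap F F₂ p) ^ (E f : ℤ) ≠ 0 := by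
    apply zpow_ne_zero
    rw [Valuation.ne_zero_iff]
    simpa using hp
  field_simp at h2
  exact h2

private theorem EXQ_three {G : Type} [LinearOrderedCommGroupWithZero G] (g t n : G)
    (h1 : g ^ 2 ≤ max (t * g) n) (h2 : t * g ≤ max (g ^ 2) n) (h3 : n ≤ max (t * g) (g ^ 2)) :
    g ^ 2 = n ∨ g ^ 2 = t * g ∨ t * g = n := by
  by_contra hcon
  push Not at hcon
  obtain ⟨h4, h5, h6⟩ := hcon
  rcases lt_or_gt_of_ne h4 with h4 | h4 <;> rcases lt_or_gt_of_ne h5 with h5 | h5 <;>
    rcases lt_or_gt_of_ne h6 with h6 | h6 <;> rcases le_max_iff.1 h1 with h7 | h7 <;>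
    rcases le_max_iff.1 h2 with h8 | h8 <;> rcases le_max_iff.1 h3 with h9 | h9 <;> order

theorem exists_extQ {F F₂ : Type} [Field F] [Algebra ℂ F] [Field F₂] [Algebra ℂ F₂]
    [Algebra F F₂] [IsScalarTower ℂ F F₂] (a : F) (α : F₂) (hα : α ^ 2 = algebraMap F F₂ a)
    (hF₂ : ∀ g : F₂, ∃ x y : F, g = algebraMap F F₂ x + algebraMap F F₂ y * α) (E : DVal F) :
    ∃ E₂ : QVal F₂, ∀ f : F, E₂ (algebraMap F F₂ f) = 2 * E f := by
  classical
  obtain ⟨p, hp, hEp⟩ := E.exists_unif
  obtain ⟨V, hlt, hV⟩ := EXQ_val (F₂ := F₂) F E p hp hEp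
  set P := V.valuation (algebraMap F F₂ p) with hP
  have hP0 : 0 < P := by
    rw [zero_lt_iff, hP, Valuation.ne_zero_iff]
    simpa using hp
  have hP1 : P ≠ 0 := hP0.ne'
  have key : ∀ g : F₂, g ≠ 0 → ∃ m : ℤ, V.valuation g ^ 2 = P ^ m := by
    intro g hg
    have hvg : V.valuation g ≠ 0 := (Valuation.ne_zero_iff _).2 hg
    obtain ⟨x, y, hxy⟩ := hF₂ g
    set T : F := 2 * x with hT
    set N : F := x ^ 2 - a * y ^ 2 with hN
    have heq : g ^ 2 - algebraMap F F₂ T * g + algebraMap F F₂ N = 0 := by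
      rw [hxy, hT, hN]
      simp only [map_mul, map_sub, map_pow, map_ofNat]
      linear_combination (algebraMap F F₂ y) ^ 2 * hα
    by_cases hT0 : T = 0
    · have h1 : g ^ 2 = - algebraMap F F₂ N := by
        rw [hT0, map_zero] at heq
        linear_combination heq
      have hN0 : N ≠ 0 := by
        intro h
        rw [h, map_zero, neg_zero] at h1
        exact hg (pow_eq_zero_iff (two_ne_zero) |>.1 h1)
      refine ⟨E N, ?_⟩
      rw [← map_pow, h1, Valuation.map_neg, hV N hN0]
    by_cases hN0 : N = 0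
    · have h1 : g = algebraMap F F₂ T := by
        rw [hN0, map_zero, add_zero] at heq
        have h2 : g * (g - algebraMap F F₂ T) = 0 := by linear_combination heq
        rcases mul_eq_zero.1 h2 with h3 | h3
        · exact absurd h3 hg
        · linear_combination h3
      refine ⟨2 * E T, ?_⟩
      rw [h1, hV T hT0, ← zpow_natCast, ← zpow_mul]
      congr 1
      push_cast; ring
    · have hvT := hV T hT0
      have hvN := hV N hN0
      have h1 : V.valuation g ^ 2 ≤ max (V.valuation (algebraMap F F₂ T) * V.valuation g)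
          (V.valuation (algebraMap F F₂ N)) := by
        have h2 : g ^ 2 = algebraMap F F₂ T * g - algebraMap F F₂ N := by linear_combination heq
        rw [← map_pow, ← map_mul, h2]
        exact Valuation.map_sub _ _ _
      have h2 : V.valuation (algebraMap F F₂ T) * V.valuation g ≤ max (V.valuation g ^ 2)
          (V.valuation (algebraMap F F₂ N)) := by
        have h2 : algebraMap F F₂ T * g = g ^ 2 + algebraMap F F₂ N := by
          linear_combination -heq
        rw [← map_pow, ← map_mul, h2]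
        exact Valuation.map_add _ _ _
      have h3 : V.valuation (algebraMap F F₂ N) ≤
          max (V.valuation (algebraMap F F₂ T) * V.valuation g) (V.valuation g ^ 2) := by
        have h2 : algebraMap F F₂ N = algebraMap F F₂ T * g - g ^ 2 := by linear_combination heq
        rw [← map_pow, ← map_mul, h2]
        exact Valuation.map_sub _ _ _
      rcases EXQ_three _ _ _ h1 h2 h3 with h4 | h4 | h4
      · exact ⟨E N, by rw [h4, hvN]⟩
      · have h5 : V.valuation g = V.valuation (algebraMap F F₂ T) := by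
          rw [sq] at h4
          exact mul_right_cancel₀ hvg h4
        refine ⟨2 * E T, ?_⟩
        rw [h5, hvT, ← zpow_natCast, ← zpow_mul]
        congr 1
        push_cast; ring
      · have h5 : V.valuation g = P ^ (E N - E T : ℤ) := by
          rw [zpow_sub₀ hP1, ← hvT, ← hvN, ← h4]
          have h6 : V.valuation (algebraMap F F₂ T) ≠ 0 := by
            rw [Valuation.ne_zero_iff]
            simpa using hT0
          field_simp
        refine ⟨2 * (E N - E T), ?_⟩
        rw [h5, ← zpow_natCast, ← zpow_mul]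
        congr 1
        push_cast; ring
  have hinj : ∀ m n : ℤ, P ^ m = P ^ n → m = n := fun m n h =>
    (zpow_right_strictAnti₀ hP0 hlt).injective h
  have hle : ∀ m n : ℤ, P ^ m ≤ P ^ n → n ≤ m := fun m n h =>
    (zpow_le_zpow_iff_right_of_lt_one₀ hP0 hlt).1 h
  choose! m hm using key
  have hres : ∀ f : F, f ≠ 0 → m (algebraMap F F₂ f) = 2 * E f := by
    intro f hf
    have h1 : algebraMap F F₂ f ≠ 0 := by simpa using hf
    apply hinj
    rw [← hm _ h1, hV f hf, ← zpow_natCast, ← zpow_mul]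
    congr 1
    push_cast; ring
  refine ⟨⟨fun g => if g = 0 then 0 else m g, by simp, ?_, ?_, ?_⟩, ?_⟩
  · intro g h hg hh
    simp only [hg, hh, mul_ne_zero hg hh, if_false]
    apply hinj
    rw [zpow_add₀ hP1, ← hm _ hg, ← hm _ hh, ← hm _ (mul_ne_zero hg hh), map_mul, mul_pow]
  · intro g h hg hh hgh
    simp only [hg, hh, hgh, if_false]
    have h1 : V.valuation (g + h) ≤ max (V.valuation g) (V.valuation h) :=
      Valuation.map_add _ _ _
    rcases le_max_iff.1 h1 with h2 | h2
    · refine (min_le_left _ _).trans ?_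
      apply hle
      rw [← hm _ hg, ← hm _ hgh]
      gcongr
    · refine (min_le_right _ _).trans ?_
      apply hle
      rw [← hm _ hh, ← hm _ hgh]
      gcongr
  · intro c
    by_cases hc : algebraMap ℂ F₂ c = 0
    · simp [hc]
    · simp only [hc, if_false]
      rw [IsScalarTower.algebraMap_apply ℂ F F₂]
      have h1 : algebraMap ℂ F c ≠ 0 := by
        intro h
        apply hc
        rw [IsScalarTower.algebraMap_apply ℂ F F₂, h, map_zero]
      rw [hres _ h1]
      have h2 : E (algebraMap ℂ F c) = 0 := E.const' c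
      omega
  · intro f
    by_cases hf : f = 0
    · subst hf
      have h1 : E (0 : F) = 0 := E.zero'
      simp [h1]
    · have h1 : algebraMap F F₂ f ≠ 0 := by simpa using hf
      have h2 := hres f hf
      simpa [h1] using h2

end WNP
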