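import Pool.Agent.WNP.Cov
import Pool.Agent.WNP.EXQ
import Pool.Agent.WNV.TRV

/-!
UNR. Valuations which are trivial on `K` are unramified in `F₂ / F`.

PROOFS. Write `α` also for its image in `F₂`. If `E₂` vanishes on `K` then `2 E₂ α = E₂ a = 0`
(`C.hα`, `C.hcomm`, `C.hcon.ha`).
`exists_unif` (the main point): take `g` with `E₂ g = 1`, `g = x + y α`. If `x = 0` or `y = 0` then the
other one has value `1`. If `E₂ x ≠ E₂ y` then `1 = E₂ g = min (E₂ x) (E₂ y)` (`QVal.add_of_gt`). If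
`E₂ x = E₂ y = m` then `m ≤ 1` (otherwise `E₂ g ≥ 2`). If `m = 1`: done. If `m ≤ 0`: `z = x / y : F` has
value `0`, `z + α = g / y` has value `1 - m ≥ 1`, so `z - α = (z + α) - 2 α` has value `0`
(`QVal.add_of_gt`), and `z² - a = (z + α)(z - α)` is an element of `F` of value `1 - m`; so
`y * (z² - a) : F` has value `1`.
`restr_dval`: `E f = E₂ (algebraMap f)`.
`exists_over`: `exists_extQ` gives `E₂'` with `E₂' f = 2 E f`; it is not trivial, so
`exists_normalise` gives `E₂ : DVal F₂` and `e > 0` with `E₂' = e E₂`. `E₂` vanishes on `K`, on `α`, and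
so on `K₂`: by `C.hK₂` an element `z ≠ 0` of `K₂` is `k + k' α`, its value is `≥ 0`, the same for `z⁻¹`.
By `exists_unif` there is `f` with `E₂ f = 1`, and `2 E f = e`; by `E.surj'` there is `f'` with
`E f' = 1`, and `2 = e * E₂ f'`. So `e ∣ 2`, `2 ∣ e`, `e = 2`.
-/

open Polynomial WNV

namespace WNP

variable {K F K₂ F₂ : Type} [Field K] [Field F] [Field K₂] [Field F₂]
    [Algebra ℂ K] [Algebra ℂ F] [Algebra ℂ K₂] [Algebra ℂ F₂]
    [Algebra K F] [Algebra K K₂] [Algebra F F₂] [Algebra K₂ F₂] [Algebra K₂[X] F₂]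
    [IsScalarTower ℂ K F] [IsScalarTower ℂ K K₂] [IsScalarTower ℂ F F₂] [IsScalarTower ℂ K₂ F₂]
    {a b : K} {u v : F} {α : K₂} {σ : F₂ ≃+* F₂}

private theorem UNR_alpha (C : Cov a b u v α σ) :
    algebraMap K₂ F₂ α ≠ 0 ∧
      algebraMap K₂ F₂ α ^ 2 = algebraMap F F₂ (algebraMap K F a) := by
  have h1 : algebraMap K₂ F₂ α ^ 2 = algebraMap F F₂ (algebraMap K F a) := by
    rw [← map_pow, C.hα, C.hcomm]
  refine ⟨?_, h1⟩
  intro h
  rw [h] at h1
  have h2 : algebraMap F F₂ (algebraMap K F a) = 0 := by rw [← h1]; ring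
  rw [map_eq_zero, map_eq_zero] at h2
  exact C.hcon.ha h2

private theorem UNR_alpha_val (C : Cov a b u v α σ) (E₂ : QVal F₂)
    (h : ∀ k : K, E₂ (algebraMap F F₂ (algebraMap K F k)) = 0) :
    E₂ (algebraMap K₂ F₂ α) = 0 := by
  obtain ⟨h0, h1⟩ := UNR_alpha C
  have h2 := h a
  rw [← h1, E₂.pow h0] at h2
  push_cast at h2
  omega

private theorem UNR_two (E₂ : QVal F₂) : (2 : F₂) ≠ 0 ∧ E₂ (2 : F₂) = 0 := by
  constructor
  · intro h0
    have h1 : algebraMap ℂ F₂ 2 = 0 := by rw [map_ofNat]; exact h0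
    rw [map_eq_zero] at h1
    exact two_ne_zero h1
  · have h4 := E₂.const' (2 : ℂ)
    rwa [map_ofNat] at h4

theorem exists_unif (C : Cov a b u v α σ) (E₂ : DVal F₂)
    (h : ∀ k : K, E₂ (algebraMap F F₂ (algebraMap K F k)) = 0) :
    ∃ f : F, E₂ (algebraMap F F₂ f) = 1 := by
  obtain ⟨hA0, hAA⟩ := UNR_alpha C
  have hEA := UNR_alpha_val C E₂.toQVal h
  obtain ⟨h20, hE2⟩ := UNR_two E₂.toQVal
  set A : F₂ := algebraMap K₂ F₂ α with hA
  change E₂ A = 0 at hEA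
  change E₂ 2 = 0 at hE2
  obtain ⟨g, hg0, hg1⟩ := E₂.exists_unif
  obtain ⟨x, y, hg⟩ := C.hF₂ g
  rw [← hA] at hg
  set X : F₂ := algebraMap F F₂ x with hX
  set Y : F₂ := algebraMap F F₂ y with hY
  by_cases hx0 : X = 0
  · have hY0 : Y ≠ 0 := by
      intro hy
      rw [hx0, hy, zero_mul, zero_add] at hg
      exact hg0 hg
    refine ⟨y, ?_⟩
    have h1 : E₂ (Y * A) = E₂ Y + E₂ A := E₂.toQVal.mul hY0 hA0
    have h2 : g = Y * A := by rw [hg, hx0, zero_add]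
    rw [← h2, hg1, hEA] at h1
    change E₂ Y = 1
    omega
  by_cases hy0 : Y = 0
  · refine ⟨x, ?_⟩
    have h2 : g = X := by rw [hg, hy0, zero_mul, add_zero]
    change E₂ X = 1
    rw [← h2, hg1]
  have hYA0 : Y * A ≠ 0 := mul_ne_zero hy0 hA0
  have hEYA : E₂ (Y * A) = E₂ Y := by
    have h1 : E₂ (Y * A) = E₂ Y + E₂ A := E₂.toQVal.mul hy0 hA0
    rw [h1, hEA, add_zero]
  rcases lt_trichotomy (E₂ X) (E₂ (Y * A)) with hlt | heq | hgt
  · have h1 : E₂ (X + Y * A) = E₂ X :=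
      (E₂.toQVal.add_of_gt hx0 (Or.inr (by omega) : Ge E₂ (E₂ X + 1) (Y * A))).2
    refine ⟨x, ?_⟩
    change E₂ X = 1
    rw [← h1, ← hg, hg1]
  · have hm1 : E₂ X ≤ 1 := by
      have h1 : min (E₂ X) (E₂ (Y * A)) ≤ E₂ (X + Y * A) :=
        E₂.add' X (Y * A) hx0 hYA0 (by rw [← hg]; exact hg0)
      rw [← hg, hg1] at h1
      omega
    rcases hm1.eq_or_lt with h1 | h1
    · exact ⟨x, h1⟩
    · have hy0' : y ≠ 0 := by
        rintro rfl
        exact hy0 (by rw [hY, map_zero])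
      have hx0' : x ≠ 0 := by
        rintro rfl
        exact hx0 (by rw [hX, map_zero])
      set z : F := x / y with hz
      set Z : F₂ := algebraMap F F₂ z with hZ
      have hz0 : z ≠ 0 := div_ne_zero hx0' hy0'
      have hZ0 : Z ≠ 0 := by simpa [hZ] using hz0
      have hZXY : Z * Y = X := by
        rw [hZ, hz, map_div₀, hY, hX]
        have : algebraMap F F₂ y ≠ 0 := hy0
        field_simp
      have hgY : g = Y * (Z + A) := by
        rw [hg, ← hZXY]; ring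
      have hZA0 : Z + A ≠ 0 := by
        intro h0
        apply hg0
        rw [hgY, h0, mul_zero]
      have hEg : E₂ g = E₂ Y + E₂ (Z + A) := by
        rw [hgY]
        exact E₂.toQVal.mul hy0 hZA0
      rw [hg1] at hEg
      have hm20 : (-2 : F₂) ≠ 0 := neg_ne_zero.2 h20
      have hEm2 : E₂ (-2 : F₂) = 0 := by
        have h3 : E₂ (-2 : F₂) = E₂ (2 : F₂) := E₂.toQVal.neg 2
        rw [h3, hE2]
      have hE2A : E₂ (-2 * A) = 0 := by
        have h3 : E₂ (-2 * A) = E₂ (-2 : F₂) + E₂ A := E₂.toQVal.mul hm20 hA0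
        rw [h3, hEm2, hEA]; rfl
      have hZmA := E₂.toQVal.add_of_gt (f := -2 * A) (g := Z + A) (mul_ne_zero hm20 hA0)
        (Or.inr (by
          change E₂ (-2 * A) + 1 ≤ E₂ (Z + A)
          omega))
      have hsub : -2 * A + (Z + A) = Z - A := by ring
      rw [hsub] at hZmA
      obtain ⟨hZmA0, hEZmA⟩ := hZmA
      change E₂ (Z - A) = E₂ (-2 * A) at hEZmA
      rw [hE2A] at hEZmA
      have hprod : algebraMap F F₂ (y * (z ^ 2 - algebraMap K F a)) =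
          Y * ((Z + A) * (Z - A)) := by
        rw [map_mul, map_sub, map_pow, ← hAA]; ring
      refine ⟨y * (z ^ 2 - algebraMap K F a), ?_⟩
      rw [hprod]
      have h3 : E₂ (Y * ((Z + A) * (Z - A))) = E₂ Y + E₂ ((Z + A) * (Z - A)) :=
        E₂.toQVal.mul hy0 (mul_ne_zero hZA0 hZmA0)
      have h4 : E₂ ((Z + A) * (Z - A)) = E₂ (Z + A) + E₂ (Z - A) :=
        E₂.toQVal.mul hZA0 hZmA0
      rw [h3, h4, hEZmA]
      omega
  · have h1 : E₂ (Y * A + X) = E₂ (Y * A) :=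
      (E₂.toQVal.add_of_gt hYA0 (Or.inr (by omega) : Ge E₂ (E₂ (Y * A) + 1) X)).2
    refine ⟨y, ?_⟩
    change E₂ Y = 1
    rw [← hEYA, ← h1, add_comm, ← hg, hg1]

theorem restr_dval (C : Cov a b u v α σ) (E₂ : DVal F₂)
    (h : ∀ k : K, E₂ (algebraMap F F₂ (algebraMap K F k)) = 0) :
    ∃ E : DVal F, ∀ f : F, E f = E₂ (algebraMap F F₂ f) := by
  obtain ⟨f₀, hf₀⟩ := exists_unif C E₂ h
  have hinj : ∀ f : F, f ≠ 0 → algebraMap F F₂ f ≠ 0 := by
    intro f hf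
    simpa using hf
  refine ⟨⟨⟨fun f => E₂ (algebraMap F F₂ f), ?_, ?_, ?_, ?_⟩, ⟨f₀, hf₀⟩⟩, fun f => rfl⟩
  · rw [map_zero]; exact E₂.zero'
  · intro f g hf hg
    rw [map_mul]
    exact E₂.mul' _ _ (hinj f hf) (hinj g hg)
  · intro f g hf hg hfg
    rw [map_add]
    exact E₂.add' _ _ (hinj f hf) (hinj g hg) (by rw [← map_add]; exact hinj _ hfg)
  · intro c
    rw [← IsScalarTower.algebraMap_apply]
    exact E₂.const' c

theorem exists_over (C : Cov a b u v α σ) (E : DVal F)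
    (h : ∀ k : K, E (algebraMap K F k) = 0) :
    ∃ E₂ : DVal F₂, (∀ z : K₂, E₂ (algebraMap K₂ F₂ z) = 0) ∧
      ∀ f : F, E f = E₂ (algebraMap F F₂ f) := by
  obtain ⟨hA0, hAA⟩ := UNR_alpha C
  obtain ⟨E₂', hE₂'⟩ := exists_extQ (algebraMap K F a) (algebraMap K₂ F₂ α) hAA C.hF₂ E
  obtain ⟨f', hf'⟩ := E.surj'
  have hnt : ∃ g, E₂' g ≠ 0 := ⟨algebraMap F F₂ f', by
    rw [hE₂']
    change 2 * E f' ≠ 0
    rw [hf']; norm_num⟩
  obtain ⟨E₂, e, he, hE₂⟩ := exists_normalise E₂' hnt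
  have hKF : ∀ k : K, E₂ (algebraMap F F₂ (algebraMap K F k)) = 0 := by
    intro k
    have h1 := hE₂ (algebraMap F F₂ (algebraMap K F k))
    rw [hE₂', h k, mul_zero] at h1
    rcases mul_eq_zero.1 h1.symm with h2 | h2
    · omega
    · exact h2
  have hα0 : E₂ (algebraMap K₂ F₂ α) = 0 := UNR_alpha_val C E₂.toQVal hKF
  have hge : ∀ z : K₂, Ge E₂ 0 (algebraMap K₂ F₂ z) := by
    intro z
    obtain ⟨k, k', hz⟩ := C.hK₂ z
    rw [hz, map_add, map_mul, C.hcomm, C.hcomm]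
    apply E₂.toQVal.ge_add
    · exact Or.inr (le_of_eq (hKF k).symm)
    · have h1 := E₂.toQVal.ge_mul
        (Or.inr (le_of_eq (hKF k').symm) : Ge E₂ 0 (algebraMap F F₂ (algebraMap K F k')))
        (Or.inr (le_of_eq hα0.symm) : Ge E₂ 0 (algebraMap K₂ F₂ α))
      simpa using h1
  have hK₂ : ∀ z : K₂, E₂ (algebraMap K₂ F₂ z) = 0 := by
    intro z
    by_cases hz : z = 0
    · subst hz
      rw [map_zero]; exact E₂.zero'
    have h1 := hge z
    have h2 := hge z⁻¹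
    have h3 : algebraMap K₂ F₂ z ≠ 0 := by simpa using hz
    have h4 : algebraMap K₂ F₂ z⁻¹ ≠ 0 := by simpa using hz
    have h5 := h1.resolve_left h3
    have h6 := h2.resolve_left h4
    rw [map_inv₀] at h6
    have h7 : E₂ (algebraMap K₂ F₂ z)⁻¹ = - E₂ (algebraMap K₂ F₂ z) := E₂.toQVal.inv _
    omega
  obtain ⟨f, hf⟩ := exists_unif C E₂ hKF
  have h1 := hE₂ (algebraMap F F₂ f)
  rw [hE₂', hf, mul_one] at h1
  have h2 := hE₂ (algebraMap F F₂ f')
  rw [hE₂'] at h2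
  change 2 * E f' = _ at h2
  rw [hf', mul_one] at h2
  have he2 : e = 2 := by
    have h3 : (2 : ℤ) ∣ e := ⟨_, h1.symm⟩
    have h4 : e ∣ 2 := ⟨_, h2⟩
    exact Int.dvd_antisymm he.le (by norm_num) h4 h3
  refine ⟨E₂, hK₂, ?_⟩
  intro g
  have h3 := hE₂ (algebraMap F F₂ g)
  rw [hE₂', he2] at h3
  omega

end WNP
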