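import Pool.Agent.WNP.DGB
import Pool.Agent.WNP.CHO
import Pool.Agent.WNP.UNR

/-!
DGC. The weights of the points.

PROOF. For a monic irreducible `q` choose `Ev q` (`exists_ordPol`) and its restriction `Rv q`
(`restr_dval`; `ordPol_const` and `C.hcomm`) (arbitrary for the other `q`: use `if`/`Classical`, or
choose a valuation by `by_cases`), `E₀` (`exists_ordInf`), `R₀`. Put `δ q = 1` if `Rv q` is not a prime of
a chart, `δ q = Δ (Rv q)` if it is; the same for `δ₀`. `0 ≤ δ ≤ 1` (`S.hΔ`, `delta_le_one`).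
It is enough to find a finite set `S` of monic irreducible polynomials with
`2 ≤ ∑ q ∈ S, deg q * δ q + δ₀`: `choose_weights` (an `E₂` with `IsOrdPol E₂ (p i)` is `Ev (p i)`
by `ordPol_unique`, and then `E = Rv (p i)`: `DVal` extensionality, `DVal.ext_of` or
`cases`/`congr`; if it is a prime then `δ (p i) = Δ E`).
Let `T` be the set of the monic irreducible `q` for which `Rv q` is not a prime. If `T` is infinite
take two different elements of `T` (`Set.Infinite.exists_subset_card_eq`): degrees `≥ 1`, `δ = 1`.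
If `T` is finite let `S = T ∪ {q : δ q ≠ 0}`: this is finite by `degree_ge`'s hypothesis… : by
`S.hfin` the set of the primes `E` with `Δ E ≠ 0` is finite, and for each `E` only finitely many
`q` have `Rv q = E`: choose `π : F` with `E π = 1`; then `Ev q (algebraMap π) = 1 ≠ 0`
(`finite_support`). `degree_ge` with `S₀ = S`.
-/

set_option linter.unusedSectionVars false

open Polynomial WNV

namespace WNP

variable {c N : ℕ} {K F K₂ F₂ : Type} [Field K] [Field F] [Field K₂] [Field F₂]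
    [Algebra ℂ K] [Algebra ℂ F] [Algebra ℂ K₂] [Algebra ℂ F₂]
    [Algebra K F] [Algebra K K₂] [Algebra F F₂] [Algebra K₂ F₂] [Algebra K₂[X] F₂]
    [IsScalarTower ℂ K F] [IsScalarTower ℂ K K₂] [IsScalarTower ℂ F F₂] [IsScalarTower ℂ K₂ F₂]
    [IsScalarTower K₂ K₂[X] F₂] [IsFractionRing K₂[X] F₂]
    {a b : K} {u v : F} {α : K₂} {σ : F₂ ≃+* F₂} {x : Fin (N + 1) → F} {Δ D : DVal F → ℝ}

theorem exists_weights (C : Cov a b u v α σ) (y : Fin c → K) (hy : IsTranscendenceBasis ℂ y)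
    (S : Sit K x (cform y u) Δ D) :
    ∃ (s : ℕ) (p : Fin s → K₂[X]) (w : Fin s → ℝ) (w₀ : ℝ),
      (∀ i, (p i).Monic) ∧ (∀ i, Irreducible (p i)) ∧ Function.Injective p ∧
      (∀ i, 0 ≤ w i ∧ w i ≤ 1) ∧ (0 ≤ w₀ ∧ w₀ ≤ 1) ∧
      ∑ i, ((p i).natDegree : ℝ) * w i + w₀ = 2 ∧
      (∀ i (E₂ : DVal F₂) (E : DVal F), IsOrdPol (K := K₂) E₂ (p i) →
        (∀ f : F, E f = E₂ (algebraMap F F₂ f)) → (∃ k, IsPrimeOf (chart x k) E) → w i ≤ Δ E) ∧
      (∀ (E₂ : DVal F₂) (E : DVal F), IsOrdInf K₂ E₂ →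
        (∀ f : F, E f = E₂ (algebraMap F F₂ f)) → (∃ k, IsPrimeOf (chart x k) E) → w₀ ≤ Δ E) := by
  classical
  obtain ⟨E₀, hE₀⟩ := exists_ordInf K₂ F₂
  have hc : ∀ (E₂ : DVal F₂), (∀ z : K₂, E₂ (algebraMap K₂ F₂ z) = 0) →
      ∀ k : K, E₂ (algebraMap F F₂ (algebraMap K F k)) = 0 := by
    intro E₂ h k
    rw [← C.hcomm]
    exact h _
  obtain ⟨R₀, hR₀⟩ := restr_dval C E₀ (hc E₀ fun z => ordInf_const hE₀ z)
  have hex : ∀ q : K₂[X], ∃ E : DVal F₂, q.Monic → Irreducible q →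
      IsOrdPol (K := K₂) E q := by
    intro q
    by_cases hq : Irreducible q
    · obtain ⟨E, hE⟩ := exists_ordPol F₂ q hq
      exact ⟨E, fun _ _ => hE⟩
    · exact ⟨E₀, fun _ h => absurd h hq⟩
  choose Ev hEv using hex
  have hexR : ∀ q : K₂[X], ∃ R : DVal F, q.Monic → Irreducible q →
      ∀ f : F, R f = Ev q (algebraMap F F₂ f) := by
    intro q
    by_cases hq : q.Monic ∧ Irreducible q
    · obtain ⟨R, hR⟩ := restr_dval C (Ev q)
        (hc (Ev q) fun z => ordPol_const hq.2 (hEv q hq.1 hq.2) z)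
      exact ⟨R, fun _ _ => hR⟩
    · exact ⟨R₀, fun h h' => absurd ⟨h, h'⟩ hq⟩
  choose Rv hRv using hexR
  -- valuations trivial on K
  have hRK : ∀ q, q.Monic → Irreducible q → ∀ k : K, Rv q (algebraMap K F k) = 0 := by
    intro q hm hi k
    rw [hRv q hm hi]
    exact hc (Ev q) (fun z => ordPol_const hi (hEv q hm hi) z) k
  have hR₀K : ∀ k : K, R₀ (algebraMap K F k) = 0 := by
    intro k
    rw [hR₀]
    exact hc E₀ (fun z => ordInf_const hE₀ z) k
  let Pr : DVal F → Prop := fun E => ∃ k, IsPrimeOf (chart x k) E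
  let δ : K₂[X] → ℝ := fun q => if Pr (Rv q) then Δ (Rv q) else 1
  let δ₀ : ℝ := if Pr R₀ then Δ R₀ else 1
  have h1 : ∀ q, Pr (Rv q) → δ q = Δ (Rv q) := fun q h => if_pos h
  have h2 : ∀ q, ¬ Pr (Rv q) → δ q = 1 := fun q h => if_neg h
  have h3 : Pr R₀ → δ₀ = Δ R₀ := fun h => if_pos h
  have h4 : ¬ Pr R₀ → δ₀ = 1 := fun h => if_neg h
  have hδ0 : ∀ q, 0 ≤ δ q := by
    intro q
    by_cases h : Pr (Rv q)
    · rw [h1 q h]
      obtain ⟨k, hk⟩ := h
      exact S.hΔ k _ hk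
    · rw [h2 q h]
      norm_num
  have hδ1 : ∀ q, q.Monic → Irreducible q → δ q ≤ 1 := by
    intro q hm hi
    by_cases h : Pr (Rv q)
    · rw [h1 q h]
      obtain ⟨k, hk⟩ := h
      exact delta_le_one S (Rv q) (hRK q hm hi) k hk
    · exact (h2 q h).le
  have hδ00 : 0 ≤ δ₀ := by
    by_cases h : Pr R₀
    · rw [h3 h]
      obtain ⟨k, hk⟩ := h
      exact S.hΔ k _ hk
    · rw [h4 h]
      norm_num
  have hδ01 : δ₀ ≤ 1 := by
    by_cases h : Pr R₀
    · rw [h3 h]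
      obtain ⟨k, hk⟩ := h
      exact delta_le_one S R₀ hR₀K k hk
    · exact (h4 h).le
  -- the finite set
  have hS : ∃ S' : Finset K₂[X], (∀ q ∈ S', q.Monic ∧ Irreducible q) ∧
      2 ≤ ∑ q ∈ S', (q.natDegree : ℝ) * δ q + δ₀ := by
    by_cases hT : {q : K₂[X] | q.Monic ∧ Irreducible q ∧ ¬ Pr (Rv q)}.Finite
    · have hBf : ∀ E : DVal F,
          {q : K₂[X] | q.Monic ∧ Irreducible q ∧ Rv q = E}.Finite := by
        intro E
        obtain ⟨π, hπ0, hπ⟩ := E.exists_unif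
        refine (finite_support K₂ (algebraMap F F₂ π)
          (by simpa using hπ0)).subset ?_
        rintro q ⟨hm, hi, hq⟩
        refine ⟨hm, hi, Ev q, hEv q hm hi, ?_⟩
        rw [← hRv q hm hi, hq, hπ]
        norm_num
      have hfin2 : {q : K₂[X] | q.Monic ∧ Irreducible q ∧ δ q ≠ 0}.Finite := by
        refine (hT.union (S.hfin.biUnion fun E _ => hBf E)).subset ?_
        rintro q ⟨hm, hi, hq⟩
        by_cases h : Pr (Rv q)
        · right
          rw [h1 q h] at hq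
          simp only [Set.mem_iUnion]
          exact ⟨Rv q, ⟨h, hq⟩, hm, hi, rfl⟩
        · left
          exact ⟨hm, hi, h⟩
      refine ⟨hfin2.toFinset, ?_, ?_⟩
      · intro q hq
        rw [Set.Finite.mem_toFinset] at hq
        exact ⟨hq.1, hq.2.1⟩
      · refine degree_ge C y hy S Ev Rv hEv hRv E₀ R₀ hE₀ hR₀ δ δ₀ (fun q _ _ h => h1 q h)
          (fun q _ _ h => h2 q h) h3 h4 hfin2.toFinset ?_ ?_
        · intro q hq
          rw [Set.Finite.mem_toFinset] at hq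
          exact ⟨hq.1, hq.2.1⟩
        · intro q hm hi hq
          by_contra hne
          exact hq ((Set.Finite.mem_toFinset _).2 ⟨hm, hi, hne⟩)
    · obtain ⟨t, ht, hcard⟩ := Set.Infinite.exists_subset_card_eq hT 2
      refine ⟨t, fun q hq => ⟨(ht hq).1, (ht hq).2.1⟩, ?_⟩
      have h5 : ∑ q ∈ t, (1 : ℝ) ≤ ∑ q ∈ t, (q.natDegree : ℝ) * δ q := by
        refine Finset.sum_le_sum fun q hq => ?_
        rw [h2 q (ht hq).2.2, mul_one]
        have h6 : 0 < q.natDegree := (ht hq).2.1.natDegree_pos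
        exact_mod_cast h6
      rw [Finset.sum_const, hcard] at h5
      norm_num at h5
      linarith
  obtain ⟨S', hS', hs⟩ := hS
  obtain ⟨s, p, w, w₀, hp, hinj, hw, hw0, hsum⟩ :=
    choose_weights S' δ δ₀ (fun q _ => hδ0 q) hδ00 hs
  refine ⟨s, p, w, w₀, fun i => (hS' _ (hp i)).1, fun i => (hS' _ (hp i)).2, hinj,
    fun i => ⟨(hw i).1, (hw i).2.trans (hδ1 _ (hS' _ (hp i)).1 (hS' _ (hp i)).2)⟩,
    ⟨hw0.1, hw0.2.trans hδ01⟩, hsum, ?_, ?_⟩
  · intro i E₂ E hE₂ hE hk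
    have hm := (hS' _ (hp i)).1
    have hi := (hS' _ (hp i)).2
    have h7 : E₂ = Ev (p i) := ordPol_unique hi hE₂ (hEv _ hm hi)
    have h8 : E = Rv (p i) := by
      refine DVal.ext_of fun f _ => ?_
      rw [hE, h7, hRv _ hm hi]
    have h9 : Pr (Rv (p i)) := by
      rw [← h8]
      exact hk
    rw [h8, ← h1 _ h9]
    exact (hw i).2
  · intro E₂ E hE₂ hE hk
    have h7 : E₂ = E₀ := ordInf_unique hE₂ hE₀
    have h8 : E = R₀ := by
      refine DVal.ext_of fun f _ => ?_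
      rw [hE, h7, hR₀]
    have h9 : Pr R₀ := by
      rw [← h8]
      exact hk
    rw [h8, ← h3 h9]
    exact hw0.2

end WNP
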