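import Pool.Agent.WNP.Defs

/-!
TAY. Taylor coefficients.

PROOF. (1) By induction on `k`: `Ge E (E q - k ρ) (derivative^[k] q)` (all polynomials in `F`
through `algebraMap K[X] F`): for `k + 1` let `q' = derivative^[k] q`
(`Function.iterate_succ_apply'`); if its image is `0` then `q' = 0` (`IsFractionRing.injective`), the
derivative is `0`; else `E q' ≥ E q - k ρ` and `h q'` says `Ge E (E q' - ρ) (derivative q')`
(`QVal.ge_mono`).
(2) `(taylor t f).coeff k = (hasseDeriv k f).eval t` (`Polynomial.taylor_coeff`), with
`f = q.map (algebraMap K F)`, `hasseDeriv` commutes with `map` (if there is no lemma: `ext`,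
`Polynomial.hasseDeriv_coeff`, `coeff_map`), and
`(g.map (algebraMap K F)).eval (tv K F) = algebraMap K[X] F g` (`eval_map`, both sides are ring
homomorphisms of `g` that agree on `C a` (scalar tower) and on `X`: `Polynomial.induction_on`).
(3) `k! • hasseDeriv k q = derivative^[k] q` (`Polynomial.factorial_smul_hasseDeriv`), and
multiplication by the nonzero complex number `k!` does not change values (`QVal.ge_smul` applied with
the constant `(k! : ℂ)⁻¹`, or `QVal.mul` and `QVal.const`).
-/

set_option linter.unusedSectionVars false

open Polynomial WNV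

namespace WNP

variable {K F : Type} [Field K] [Algebra ℂ K] [Field F] [Algebra ℂ F]
    [Algebra K F] [IsScalarTower ℂ K F] [Algebra K[X] F] [IsScalarTower K K[X] F]
    [IsFractionRing K[X] F]

theorem eval_tv (g : K[X]) : (g.map (algebraMap K F)).eval (tv K F) = algebraMap K[X] F g := by
  rw [eval_map]
  induction g using Polynomial.induction_on with
  | C a =>
    rw [eval₂_C]
    rw [show (C a : K[X]) = algebraMap K K[X] a from rfl, ← IsScalarTower.algebraMap_apply]
  | add p q hp hq => rw [eval₂_add, hp, hq, map_add]
  | monomial n a _ =>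
    rw [eval₂_mul, eval₂_C, eval₂_pow, eval₂_X, map_mul, map_pow]
    rw [show (C a : K[X]) = algebraMap K K[X] a from rfl, ← IsScalarTower.algebraMap_apply, tv]

theorem tay_iter (E : QVal F) (ρ : ℤ) (h : DerivBd K E ρ) (q : K[X]) (k : ℕ) :
    Ge E (E (algebraMap K[X] F q) - k * ρ) (algebraMap K[X] F (derivative^[k] q)) := by
  induction k with
  | zero => simpa using E.ge_self _
  | succ k ih =>
    rw [Function.iterate_succ_apply']
    rcases ih with h0 | h1
    · have h2 : derivative^[k] q = 0 := by
        apply IsFractionRing.injective K[X] F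
        rw [h0, map_zero]
      rw [h2, derivative_zero, map_zero]
      exact E.ge_zero _
    · refine E.ge_mono ?_ (h (derivative^[k] q))
      push_cast
      linarith

theorem ge_taylor (E : QVal F) (ρ : ℤ) (h : DerivBd K E ρ) (q : K[X]) (k : ℕ) :
    Ge E (E (algebraMap K[X] F q) - k * ρ)
      ((taylor (tv K F) (q.map (algebraMap K F))).coeff k) := by
  have h1 : (taylor (tv K F) (q.map (algebraMap K F))).coeff k =
      algebraMap K[X] F (hasseDeriv k q) := by
    rw [taylor_coeff, ← eval_tv (F := F)]
    congr 1
    ext n
    simp [hasseDeriv_coeff]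
  rw [h1]
  have h2 := tay_iter E ρ h q k
  have h3 : derivative^[k] q = (k.factorial : K[X]) * hasseDeriv k q := by
    have := factorial_smul_hasseDeriv (R := K) k
    have h4 := congrFun this q
    rw [← h4]
    simp [nsmul_eq_mul]
  rw [h3, map_mul, map_natCast] at h2
  have h5 : algebraMap K[X] F (hasseDeriv k q) =
      ((k.factorial : ℂ)⁻¹) • ((k.factorial : F) * algebraMap K[X] F (hasseDeriv k q)) := by
    have hne : (k.factorial : ℂ) ≠ 0 := by exact_mod_cast k.factorial_ne_zero
    rw [Algebra.smul_def, ← mul_assoc, map_inv₀, map_natCast]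
    have hne' : (k.factorial : F) ≠ 0 := by
      have := (map_ne_zero (algebraMap ℂ F)).2 hne
      simpa using this
    rw [inv_mul_cancel₀ hne', one_mul]
  rw [h5]
  exact E.ge_smul _ h2

/-- For `k = natDegree` the Taylor coefficient of a monic polynomial is `1`. -/
theorem le_of_monic (E : QVal F) (ρ : ℤ) (h : DerivBd K E ρ) (q : K[X]) (hq : q.Monic) :
    E (algebraMap K[X] F q) ≤ q.natDegree * ρ := by
  have h1 := ge_taylor E ρ h q q.natDegree
  have h2 : (taylor (tv K F) (q.map (algebraMap K F))).coeff q.natDegree = 1 := by
    have hm : (q.map (algebraMap K F)).Monic := hq.map _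
    have hd : (q.map (algebraMap K F)).natDegree = q.natDegree := natDegree_map _
    have h3 : (taylor (tv K F) (q.map (algebraMap K F))).Monic := by
      rw [Monic, leadingCoeff_taylor]
      exact hm
    have h4 : (taylor (tv K F) (q.map (algebraMap K F))).natDegree = q.natDegree := by
      rw [natDegree_taylor, hd]
    rw [← h4]
    exact h3
  rw [h2] at h1
  rcases h1 with h1 | h1
  · exact absurd h1 one_ne_zero
  · rw [E.one] at h1
    linarith

end WNP
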