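import Pool.Agent.WNP.DTB
import Pool.Agent.WNP.TAY

/-!
DSB. Value of a discriminant.

PROOF. Let `d = p.natDegree > 0`, `P = taylor t (p.map _)` (same degree `d`; the derivative of `P` is
the Taylor shift of the derivative). Invariance: `discr` of the shifted polynomial is `discr` of `p`:
`resultant_deriv` for `p.map _` and for `P`, `resultant_taylor`, `leadingCoeff` unchanged and nonzero
(cancel it); note `resultant_taylor` is stated with the default degrees, and
`(derivative p).natDegree = d - 1` in characteristic zero (`natDegree_derivative_eq`,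
`CharZero F` from `algebraRat.charZero`/`Algebra ℂ F`). `discr (p.map f) = f (discr p)`: there may be
a lemma (`discr_map`?), else from `sylvesterDeriv`/`resultant_deriv` and `resultant_map_map`.
So `algebraMap K F (discr p) = ± det (sylvesterDeriv P)`. The matrix has size `(d-1) + d`, rows
`i < 2d-1`. For `i ≠ 2d-2` the entries are those of `sylvester (derivative P) P (d-1) d`: the first
`d-1` columns `j₁` have the entries `P.coeff (i - j₁)` (value `≥ E p - (i-j₁) ρ`), the last `d`
columns `j₁` the entries `(derivative P).coeff (i - j₁) = (i-j₁+1) P.coeff (i-j₁+1)` (value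
`≥ E p - (i-j₁+1) ρ`); the row `2d-2` has the entries `0, 1, d` only, `1` in the column `d-2`
(the last of the first `d - 1` columns, if `d ≥ 2`), `d` in the last column.
Weights: rows `r i = -i ρ` for `i < 2d-2`, `r (2d-2) = -E p - (d-2) ρ`; columns `s = E p + j₁ ρ`
(first `d-1`), `s = E p - ρ + j₁ ρ` (last `d`). In the last row: `r + s = 0` in the column `j₁ = d-2`
of the first block and in the column `j₁ = d-1` of the second block. Sum of all weights:
`(2d-2) E p - d (d-1) ρ`. (For `d = 1`: the matrix is `(1)`, weights `-E p + ρ` and `E p - ρ`; or use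
`discr_of_degree_eq_one`.)
-/

set_option linter.unusedSectionVars false

open Polynomial WNV

namespace WNP

theorem dsb_sum (n : ℕ) : 2 * ∑ i ∈ Finset.range n, (i : ℤ) = n * ((n : ℤ) - 1) := by
  induction n with
  | zero => simp
  | succ n ih => rw [Finset.sum_range_succ, mul_add, ih]; push_cast; ring

theorem dsb_weights (m : ℕ) (e ρ : ℤ) :
    ∑ i ∈ Finset.range (m + (m + 1)), (if i = 2 * m then -e - ((m : ℤ) - 1) * ρ else -(i : ℤ) * ρ) +
    ∑ j ∈ Finset.range (m + (m + 1)), (if j < m then e + (j : ℤ) * ρ
      else e - ρ + ((j : ℤ) - m) * ρ) = 2 * m * e - (m + 1) * m * ρ := by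
  have h1 : ∑ i ∈ Finset.range (m + (m + 1)),
      (if i = 2 * m then -e - ((m : ℤ) - 1) * ρ else -(i : ℤ) * ρ) =
      -ρ * (∑ i ∈ Finset.range (2 * m), (i : ℤ)) + (-e - ((m : ℤ) - 1) * ρ) := by
    rw [show m + (m + 1) = 2 * m + 1 by ring, Finset.sum_range_succ, if_pos rfl, Finset.mul_sum]
    congr 1
    refine Finset.sum_congr rfl fun i hi => ?_
    rw [Finset.mem_range] at hi
    rw [if_neg (by omega)]
    ring
  have h2 : ∑ j ∈ Finset.range (m + (m + 1)), (if j < m then e + (j : ℤ) * ρ
      else e - ρ + ((j : ℤ) - m) * ρ) =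
      (m * e + ρ * ∑ j ∈ Finset.range m, (j : ℤ)) +
      ((m + 1) * (e - ρ) + ρ * ∑ j ∈ Finset.range (m + 1), (j : ℤ)) := by
    rw [Finset.sum_range_add]
    congr 1
    · rw [Finset.sum_congr rfl (g := fun j : ℕ => e + ρ * (j : ℤ))]
      · rw [Finset.sum_add_distrib, ← Finset.mul_sum]; simp
      · intro j hj
        rw [Finset.mem_range] at hj
        rw [if_pos hj]; ring
    · rw [Finset.sum_congr rfl (g := fun j : ℕ => (e - ρ) + ρ * (j : ℤ))]
      · rw [Finset.sum_add_distrib, ← Finset.mul_sum]; simp; ring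
      · intro j hj
        rw [if_neg (by omega)]; push_cast; ring
  rw [h1, h2]
  have a1 := dsb_sum (2 * m)
  have a2 := dsb_sum m
  have a3 := dsb_sum (m + 1)
  push_cast at a1 a3
  have : 2 * (-ρ * (∑ i ∈ Finset.range (2 * m), (i : ℤ)) + (-e - ((m : ℤ) - 1) * ρ) +
      ((m * e + ρ * ∑ j ∈ Finset.range m, (j : ℤ)) +
      ((m + 1) * (e - ρ) + ρ * ∑ j ∈ Finset.range (m + 1), (j : ℤ)))) =
      2 * (2 * m * e - (m + 1) * m * ρ) := by
    linear_combination (-ρ) * a1 + ρ * a2 + ρ * a3
  linarith

theorem dsb_taylor_deriv {F : Type} [Field F] (t : F) (f : F[X]) :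
    derivative (taylor t f) = taylor t (derivative f) := by
  rw [taylor_apply, taylor_apply, derivative_comp]
  simp

theorem dsb_det {F : Type} [Field F] [Algebra ℂ F] (E : QVal F) (e ρ : ℤ) (P : F[X])
    (hP : 0 < P.natDegree) (hc : ∀ k : ℕ, Ge E (e - k * ρ) (P.coeff k)) :
    Ge E (2 * ((P.natDegree : ℤ) - 1) * e - P.natDegree * ((P.natDegree : ℤ) - 1) * ρ)
      (sylvesterDeriv P).det := by
  obtain ⟨m, hm⟩ : ∃ m, P.natDegree = m + 1 := ⟨P.natDegree - 1, by omega⟩
  have hmd : P.natDegree - 1 = m := by omega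
  set r : ℕ → ℤ := fun i => if i = 2 * m then -e - ((m : ℤ) - 1) * ρ else -(i : ℤ) * ρ with hr
  set s : ℕ → ℤ := fun j => if j < m then e + (j : ℤ) * ρ else e - ρ + ((j : ℤ) - m) * ρ with hs
  have key := ge_det E (sylvesterDeriv P) (fun i => r (i : ℕ)) (fun j => s (j : ℕ)) (by
    intro i j
    rw [sylvesterDeriv, dif_neg (by omega)]
    by_cases hi : (i : ℕ) = 2 * P.natDegree - 2
    · have hi' : i = ⟨2 * P.natDegree - 2, by omega⟩ := Fin.ext hi
      rw [hi', Matrix.updateRow_self]
      simp only
      have hri : r (2 * P.natDegree - 2) = -e - ((m : ℤ) - 1) * ρ := by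
        rw [hr]; simp only; rw [if_pos (by omega)]
      rw [hri]
      split_ifs with h1 h2
      · by_cases hm0 : m = 0
        · subst hm0
          have : s (j : ℕ) = e - ρ + ((j : ℕ) : ℤ) * ρ := by
            rw [hs]; simp
          have hj0 : ((j : ℕ) : ℤ) = 0 := by
            have : (j : ℕ) = 0 := by omega
            rw [this]; rfl
          rw [this, hj0]
          refine E.ge_mono (le_of_eq ?_) E.ge_one
          push_cast; ring
        · have : s (j : ℕ) = e + ((j : ℕ) : ℤ) * ρ := by
            rw [hs]; simp only; rw [if_pos (by omega)]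
          have hj0 : ((j : ℕ) : ℤ) = (m : ℤ) - 1 := by omega
          rw [this, hj0]
          refine E.ge_mono (le_of_eq ?_) E.ge_one
          ring
      · have : s (j : ℕ) = e - ρ + (((j : ℕ) : ℤ) - m) * ρ := by
          rw [hs]; simp only; rw [if_neg (by omega)]
        have hj0 : ((j : ℕ) : ℤ) = 2 * (m : ℤ) := by omega
        rw [this, hj0]
        refine E.ge_mono (le_of_eq ?_) (E.ge_natCast _)
        ring
      · exact E.ge_zero _
    · rw [Matrix.updateRow_ne (fun h => hi (congrArg Fin.val h))]
      have hri : r (i : ℕ) = -((i : ℕ) : ℤ) * ρ := by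
        rw [hr]; simp only; rw [if_neg (by omega)]
      rw [hri]
      induction j using Fin.addCases with
      | left j₁ =>
        have hj : (j₁ : ℕ) < m := by omega
        have hsj : s ((Fin.castAdd P.natDegree j₁ : Fin _) : ℕ) = e + ((j₁ : ℕ) : ℤ) * ρ := by
          rw [hs]; simp only [Fin.val_castAdd]; rw [if_pos hj]
        rw [hsj]
        simp only [sylvester, Matrix.of_apply, Fin.addCases_left]
        split_ifs with h1
        · rw [Set.mem_Icc] at h1
          refine E.ge_mono (le_of_eq ?_) (hc _)
          push_cast [Nat.cast_sub h1.1]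
          ring
        · exact E.ge_zero _
      | right j₁ =>
        have hsj : s ((Fin.natAdd (P.natDegree - 1) j₁ : Fin _) : ℕ) =
            e - ρ + ((j₁ : ℕ) : ℤ) * ρ := by
          rw [hs]; simp only [Fin.val_natAdd]; rw [if_neg (by omega), hmd]
          push_cast; ring
        rw [hsj]
        simp only [sylvester, Matrix.of_apply, Fin.addCases_right]
        split_ifs with h1
        · rw [Set.mem_Icc] at h1
          rw [coeff_derivative]
          have h2 := E.ge_mul (hc ((i : ℕ) - j₁ + 1)) (E.ge_natCast ((i : ℕ) - j₁ + 1))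
          push_cast at h2
          refine E.ge_mono (le_of_eq ?_) h2
          push_cast [Nat.cast_sub h1.1]
          ring
        · exact E.ge_zero _)
  rw [Fin.sum_univ_eq_sum_range (fun i => r i), Fin.sum_univ_eq_sum_range (fun i => s i)] at key
  have hw := dsb_weights m e ρ
  refine E.ge_mono (le_of_eq ?_) key
  have hN : P.natDegree - 1 + P.natDegree = m + (m + 1) := by omega
  rw [hN, hr, hs]
  simp only
  rw [hw]
  rw [hm]; push_cast; ring

variable {K F : Type} [Field K] [Algebra ℂ K] [Field F] [Algebra ℂ F]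
    [Algebra K F] [IsScalarTower ℂ K F] [Algebra K[X] F] [IsScalarTower K K[X] F]
    [IsFractionRing K[X] F]

theorem ge_discr (E : QVal F) (ρ : ℤ) (h : DerivBd K E ρ) (p : K[X]) (hp : 0 < p.natDegree) :
    Ge E (2 * ((p.natDegree : ℤ) - 1) * E (algebraMap K[X] F p) -
      p.natDegree * ((p.natDegree : ℤ) - 1) * ρ) (algebraMap K F (discr p)) := by
  have : CharZero F := charZero_of_injective_algebraMap (algebraMap ℂ F).injective
  set p₁ : F[X] := p.map (algebraMap K F) with hp₁
  set P : F[X] := taylor (tv K F) p₁ with hPdef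
  have hd₁ : p₁.natDegree = p.natDegree := natDegree_map _
  have hdP : P.natDegree = p.natDegree := by rw [hPdef, natDegree_taylor, hd₁]
  have hlc : P.leadingCoeff = algebraMap K F p.leadingCoeff := by
    rw [hPdef, leadingCoeff_taylor, hp₁, leadingCoeff_map]
  have e1 : resultant p₁ (derivative p₁) p.natDegree (p.natDegree - 1) =
      algebraMap K F (resultant p (derivative p) p.natDegree (p.natDegree - 1)) := by
    rw [hp₁, derivative_map, resultant_map_map]
  have e2 : resultant P (derivative P) p.natDegree (p.natDegree - 1) =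
      resultant p₁ (derivative p₁) p.natDegree (p.natDegree - 1) := by
    have := resultant_taylor p₁ (derivative p₁) (tv K F)
    rw [← hPdef, ← dsb_taylor_deriv, ← hPdef] at this
    rw [natDegree_derivative, natDegree_derivative, hdP, hd₁] at this
    exact this
  have e3 := resultant_deriv (f := p) (natDegree_pos_iff_degree_pos.1 hp)
  have e4 := resultant_deriv (f := P) (natDegree_pos_iff_degree_pos.1 (by rw [hdP]; exact hp))
  rw [hdP, e2, e1, e3, hlc] at e4
  have hlc0 : algebraMap K F p.leadingCoeff ≠ 0 := by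
    rw [Ne, map_eq_zero]
    exact leadingCoeff_ne_zero.2 (by rintro rfl; simp at hp)
  have e5 : algebraMap K F (discr p) = discr P := by
    rw [map_mul, map_mul, map_pow, map_neg, map_one] at e4
    have hs : ((-1 : F) ^ (p.natDegree * (p.natDegree - 1) / 2) *
        algebraMap K F p.leadingCoeff) ≠ 0 :=
      mul_ne_zero (pow_ne_zero _ (by norm_num)) hlc0
    exact mul_left_cancel₀ hs e4
  rw [e5, discr]
  have hk := dsb_det E (E (algebraMap K[X] F p)) ρ P (by rw [hdP]; exact hp)
    (fun k => ge_taylor E ρ h p k)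
  have hk : Ge E (2 * ((p.natDegree : ℤ) - 1) * E (algebraMap K[X] F p) -
      p.natDegree * ((p.natDegree : ℤ) - 1) * ρ) (sylvesterDeriv P).det := by
    refine E.ge_mono (le_of_eq ?_) hk
    rw [hdP]
  rcases neg_one_pow_eq_or F (P.natDegree * (P.natDegree - 1) / 2) with h1 | h1
  · rw [h1, mul_one]; exact hk
  · rw [h1, mul_neg, mul_one]; exact E.ge_neg hk

end WNP
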