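import Pool.Agent.WNP.Defs

/-!
DTB. Value of a determinant.

PROOF. `Matrix.det_apply`: the determinant is the sum over permutations `σ` of
`sign σ • ∏ i, M (σ i) i`. Products: induction over a finset. With `a i = r (σ i) + s i` and
`∑ i, r (σ i) = ∑ i, r i` every term has value at least `∑ r + ∑ s`.
-/

open Polynomial WNV

namespace WNP

theorem ge_prod {F ι : Type} [Field F] [Algebra ℂ F] (E : QVal F) (S : Finset ι) (a : ι → ℤ)
    (f : ι → F) (h : ∀ i ∈ S, Ge E (a i) (f i)) : Ge E (∑ i ∈ S, a i) (∏ i ∈ S, f i) := by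
  classical
  induction S using Finset.induction_on with
  | empty => simpa using E.ge_one
  | insert b S hb ih =>
    rw [Finset.sum_insert hb, Finset.prod_insert hb]
    exact E.ge_mul (h b (Finset.mem_insert_self b S))
      (ih fun i hi => h i (Finset.mem_insert_of_mem hi))

theorem ge_det {F ι : Type} [Field F] [Algebra ℂ F] [Fintype ι] [DecidableEq ι] (E : QVal F)
    (M : Matrix ι ι F) (r s : ι → ℤ) (h : ∀ i j, Ge E (r i + s j) (M i j)) :
    Ge E (∑ i, r i + ∑ j, s j) M.det := by
  rw [Matrix.det_apply]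
  refine E.ge_sum _ _ fun σ _ => ?_
  have h1 : Ge E (∑ i, (r (σ i) + s i)) (∏ i, M (σ i) i) :=
    ge_prod E Finset.univ _ _ fun i _ => h (σ i) i
  rw [Finset.sum_add_distrib, Equiv.sum_comp σ r] at h1
  rcases Int.units_eq_one_or (Equiv.Perm.sign σ) with hσ | hσ
  · rw [hσ, one_smul]
    exact h1
  · rw [hσ]
    have h2 := E.ge_neg h1
    simpa using h2

end WNP
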