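import Pool.Agent.WNV.VAL

/-!
Definitions for the weak non-vanishing theorem on varieties which are birational to `Y × P^1`.

`K` is a field over the complex numbers (the function field of `Y`) and `F = K(t)` is the field of
fractions of the polynomial ring `K[X]` (the function field of `X`).
-/

open Polynomial WNV

namespace WNP

section

variable {c : ℕ} {K F : Type} [Field K] [Algebra ℂ K] [Field F] [Algebra ℂ F]
  [Algebra K F] [Algebra K[X] F]

variable (K F) in
/-- The variable `t` as an element of `F = K(t)`. -/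
noncomputable def tv : F := algebraMap K[X] F X

variable (F) in
/-- The form `dy_1 ∧ … ∧ dy_c ∧ θ`. -/
noncomputable def wedgeY (y : Fin c → K) (θ : KaehlerDifferential ℂ F) :
    ⋀[F]^(c + 1) (KaehlerDifferential ℂ F) :=
  exteriorPower.ιMulti F (c + 1)
    (Fin.append (fun j => KaehlerDifferential.D ℂ F (algebraMap K F (y j))) (fun _ : Fin 1 => θ))

/-- `E` is the order along the polynomial `p ∈ K[t]`. -/
def IsOrdPol (E : F → ℤ) (p : K[X]) : Prop :=
  ∀ (n : ℕ) (q : K[X]), q ≠ 0 → ¬ p ∣ q → E (algebraMap K[X] F (p ^ n * q)) = n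

variable (K) in
/-- `E` is the order at infinity of `K(t)`. -/
def IsOrdInf (E : F → ℤ) : Prop :=
  ∀ q : K[X], q ≠ 0 → E (algebraMap K[X] F q) = -(q.natDegree : ℤ)

variable (K) in
/-- The derivative `d/dt` lowers the value of a polynomial by at most `ρ`. -/
def DerivBd (E : F → ℤ) (ρ : ℤ) : Prop :=
  ∀ q : K[X], Ge E (E (algebraMap K[X] F q) - ρ) (algebraMap K[X] F (derivative q))

end

end WNP
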