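import Pool.Agent.WNV.VAL

/-!
NRM. Conjugate valuations and the norm of a real combination.
-/

open WNV

namespace WNP

variable {F F₂ : Type} [Field F] [Algebra ℂ F] [Field F₂] [Algebra ℂ F₂]
    [Algebra F F₂] [IsScalarTower ℂ F F₂]

theorem exists_conj (σ : F₂ ≃+* F₂) (hσ : ∀ f : F, σ (algebraMap F F₂ f) = algebraMap F F₂ f)
    (E₂ : QVal F₂) : ∃ E₃ : QVal F₂, ∀ g, E₃ g = E₂ (σ g) := by
  refine ⟨⟨fun g => E₂ (σ g), ?_, ?_, ?_, ?_⟩, fun g => rfl⟩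
  · rw [map_zero]
    exact E₂.zero'
  · intro a b ha hb
    rw [map_mul]
    exact E₂.mul' _ _ ((map_ne_zero σ).2 ha) ((map_ne_zero σ).2 hb)
  · intro a b ha hb hab
    rw [map_add]
    exact E₂.add' _ _ ((map_ne_zero σ).2 ha) ((map_ne_zero σ).2 hb)
      (by rw [← map_add]; exact (map_ne_zero σ).2 hab)
  · intro c
    rw [IsScalarTower.algebraMap_apply ℂ F F₂, hσ, ← IsScalarTower.algebraMap_apply ℂ F F₂]
    exact E₂.const' c

theorem exists_conjD (σ : F₂ ≃+* F₂) (hσ : ∀ f : F, σ (algebraMap F F₂ f) = algebraMap F F₂ f)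
    (E₂ : DVal F₂) : ∃ E₃ : DVal F₂, ∀ g, E₃ g = E₂ (σ g) := by
  obtain ⟨E₃, h⟩ := exists_conj σ hσ E₂.toQVal
  obtain ⟨a, ha⟩ := E₂.surj'
  refine ⟨⟨E₃, ⟨σ.symm a, ?_⟩⟩, fun g => h g⟩
  have := h (σ.symm a)
  rw [RingEquiv.apply_symm_apply] at this
  exact this.trans ha

theorem exists_norm (σ : F₂ ≃+* F₂) (hN : ∀ g : F₂, ∃ f : F, algebraMap F F₂ f = g * σ g)
    (φ₂ : F₂ →₀ ℝ) :
    ∃ φ : F →₀ ℝ, ∀ (E : DVal F) (e : ℤ) (E₂ E₃ : QVal F₂),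
      (∀ f : F, E₂ (algebraMap F F₂ f) = e * E f) → (∀ g, E₃ g = E₂ (σ g)) →
      (e : ℝ) * val φ E = (val φ₂ E₂ + val φ₂ E₃) / 2 := by
  classical
  choose n hn using hN
  refine ⟨∑ g ∈ φ₂.support, (φ₂ g / 2) • Finsupp.single (n g) 1, ?_⟩
  intro E e E₂ E₃ h2 h3
  have key : ∀ g : F₂, (e : ℝ) * (E (n g) : ℝ) = (E₂ g : ℝ) + (E₃ g : ℝ) := by
    intro g
    have h1 : e * E (n g) = E₂ g + E₃ g := by
      by_cases hg : g = 0
      · have hn0 : n g = 0 := by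
          have := hn g
          rw [hg, zero_mul] at this
          rw [hg]
          exact (map_eq_zero _).1 this
        rw [hn0, h3 g, hg, map_zero, E₂.zero, E.toQVal.zero]
        simp
      · rw [← h2 (n g), hn g, E₂.mul hg ((map_ne_zero σ).2 hg), h3 g]
    exact_mod_cast h1
  have hval : val (∑ g ∈ φ₂.support, (φ₂ g / 2) • Finsupp.single (n g) (1 : ℝ)) E =
      ∑ g ∈ φ₂.support, (φ₂ g / 2) * (E (n g) : ℝ) := by
    rw [val_sum]
    refine Finset.sum_congr rfl fun g _ => ?_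
    rw [val_smul, val_single, one_mul]
  rw [hval]
  have e2 : val φ₂ E₂ = ∑ g ∈ φ₂.support, φ₂ g * (E₂ g : ℝ) := rfl
  have e3 : val φ₂ E₃ = ∑ g ∈ φ₂.support, φ₂ g * (E₃ g : ℝ) := rfl
  rw [e2, e3, Finset.mul_sum, ← Finset.sum_add_distrib, Finset.sum_div]
  refine Finset.sum_congr rfl fun g _ => ?_
  have := key g
  linear_combination (φ₂ g / 2) * this

end WNP
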