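import Pool.Agent.WNP.RSB
import Pool.Agent.WNP.DSB
import Pool.Agent.WNP.CIR

/-!
PHI. The element `Φ` (a real combination of resultants and discriminants).

PROOF. Write `d i = (p i).natDegree > 0`, `E_i = E (algebraMap (p i))`. Apply `exists_pairing` on
`Option ι`, with `d none = 1`, `c none = c0`: get `m`. Put
`Φ = ∑_i ∑_{j ≠ i} (m i j / 2) • single (resultant (p i) (p j)) 1
   + ∑_i (m i i / 2) • single (discr (p i)) 1`.
-/

set_option linter.unusedSectionVars false

open Polynomial WNV

namespace WNP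

variable {K F : Type} [Field K] [Algebra ℂ K] [Field F] [Algebra ℂ F]
    [Algebra K F] [IsScalarTower ℂ K F] [Algebra K[X] F] [IsScalarTower K K[X] F]
    [IsFractionRing K[X] F]

private theorem PHI_res (E : QVal F) (ρ : ℤ) (h : DerivBd K E ρ) (p q : K[X]) (hp : p.Monic)
    (hq : q.Monic) (hpi : Irreducible p) (hqi : Irreducible q) (hne : p ≠ q) :
    (q.natDegree : ℝ) * (E (algebraMap K[X] F p) : ℝ) +
      (p.natDegree : ℝ) * (E (algebraMap K[X] F q) : ℝ) -
      (p.natDegree : ℝ) * (q.natDegree : ℝ) * (ρ : ℝ) ≤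
      ((E (algebraMap K F (resultant p q)) : ℤ) : ℝ) := by
  have hcop : IsCoprime p q := by
    rcases EuclideanDomain.dvd_or_coprime p q hpi with h1 | h1
    · exfalso
      apply hne
      exact eq_of_monic_of_associated hp hq (hpi.associated_of_dvd hqi h1)
    · exact h1
  have h0 : algebraMap K F (resultant p q) ≠ 0 :=
    (_root_.map_ne_zero _).2 (resultant_ne_zero p q hcop)
  rcases ge_resultant E ρ h p q with h1 | h1
  · exact absurd h1 h0
  · exact_mod_cast h1

private theorem PHI_dis (E : QVal F) (ρ : ℤ) (h : DerivBd K E ρ) (p : K[X]) (_hp : p.Monic)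
    (hpi : Irreducible p) :
    2 * ((p.natDegree : ℝ) - 1) * (E (algebraMap K[X] F p) : ℝ) -
      (p.natDegree : ℝ) * ((p.natDegree : ℝ) - 1) * (ρ : ℝ) ≤
      ((E (algebraMap K F (discr p)) : ℤ) : ℝ) := by
  have hc : CharZero K := charZero_of_injective_algebraMap (algebraMap ℂ K).injective
  have hd : 0 < p.natDegree := hpi.natDegree_pos
  have hsep : IsCoprime p (derivative p) := hpi.separable
  have hdeg : 0 < p.degree := natDegree_pos_iff_degree_pos.1 hd
  have hdd : (derivative p).natDegree = p.natDegree - 1 := by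
    have h1 := degree_derivative (p := p) hd.ne'
    exact natDegree_eq_of_degree_eq_some h1
  have h0 : discr p ≠ 0 := by
    intro h0
    have h1 := resultant_deriv hdeg
    rw [h0, mul_zero, ← hdd] at h1
    exact resultant_ne_zero p (derivative p) hsep h1
  have h0' : algebraMap K F (discr p) ≠ 0 := (_root_.map_ne_zero _).2 h0
  rcases ge_discr E ρ h p hd with h1 | h1
  · exact absurd h1 h0'
  · exact_mod_cast h1

private theorem PHI_alg {ι : Type} [Fintype ι] [DecidableEq ι] (m : ι → ι → ℝ)
    (hsym : ∀ i j, m i j = m j i) (mi : ι → ℝ) (d e c : ι → ℝ) (ρ c0 : ℝ)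
    (hrow : ∀ i, mi i + ∑ j, m i j * d j - m i i = c i)
    (hinf : ∑ j, mi j * d j = c0) (hs : ∑ i, d i * c i + c0 = 2) :
    ∑ i, ∑ j, (m i j / 2) * (if i = j then 2 * (d i - 1) * e i - d i * (d i - 1) * ρ
      else d j * e i + d i * e j - d i * d j * ρ) =
    ∑ i, e i * (c i - mi i) - ρ * (1 - c0) := by
  have h1 : ∀ i, ∑ j, (m i j / 2) * (if i = j then 2 * (d i - 1) * e i - d i * (d i - 1) * ρ
      else d j * e i + d i * e j - d i * d j * ρ) =
      ∑ j, (m i j / 2) * (d j * e i + d i * e j - d i * d j * ρ) -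
        (m i i / 2) * (2 * e i - d i * ρ) := by
    intro i
    rw [← Finset.add_sum_erase Finset.univ _ (Finset.mem_univ i),
      ← Finset.add_sum_erase Finset.univ (fun j => (m i j / 2) *
        (d j * e i + d i * e j - d i * d j * ρ)) (Finset.mem_univ i)]
    rw [if_pos rfl]
    have h2 : ∀ j ∈ Finset.univ.erase i, (m i j / 2) * (if i = j then
        2 * (d i - 1) * e i - d i * (d i - 1) * ρ
        else d j * e i + d i * e j - d i * d j * ρ) =
        (m i j / 2) * (d j * e i + d i * e j - d i * d j * ρ) := by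
      intro j hj
      rw [if_neg (Finset.ne_of_mem_erase hj).symm]
    rw [Finset.sum_congr rfl h2]
    ring
  rw [Finset.sum_congr rfl fun i _ => h1 i, Finset.sum_sub_distrib]
  -- split the double sum
  have h3 : ∑ i, ∑ j, (m i j / 2) * (d j * e i + d i * e j - d i * d j * ρ) =
      ∑ i, e i * ∑ j, m i j * d j - ρ / 2 * ∑ i, d i * ∑ j, m i j * d j := by
    have h4 : ∑ i, ∑ j, (m i j / 2) * (d i * e j) = ∑ i, ∑ j, (m i j / 2) * (d j * e i) := by
      rw [Finset.sum_comm]
      refine Finset.sum_congr rfl fun i _ => Finset.sum_congr rfl fun j _ => ?_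
      rw [hsym j i]
    have h5 : ∀ i j, (m i j / 2) * (d j * e i + d i * e j - d i * d j * ρ) =
        (m i j / 2) * (d j * e i) + (m i j / 2) * (d i * e j) -
          ρ / 2 * (d i * (m i j * d j)) := by
      intro i j
      ring
    simp_rw [h5, Finset.sum_sub_distrib, Finset.sum_add_distrib]
    rw [h4]
    have h6 : ∀ i, e i * ∑ j, m i j * d j =
        ∑ j, (m i j / 2) * (d j * e i) + ∑ j, (m i j / 2) * (d j * e i) := by
      intro i
      rw [← Finset.sum_add_distrib, Finset.mul_sum]
      exact Finset.sum_congr rfl fun j _ => by ring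
    simp_rw [h6, Finset.sum_add_distrib, Finset.mul_sum]
  rw [h3]
  have h7 : ∀ i, ∑ j, m i j * d j = c i - mi i + m i i := fun i => by linarith [hrow i]
  simp_rw [h7]
  have h8 : ∑ i, e i * (c i - mi i + m i i) =
      ∑ i, e i * (c i - mi i) + ∑ i, e i * m i i := by
    rw [← Finset.sum_add_distrib]
    exact Finset.sum_congr rfl fun i _ => by ring
  have h9 : ∑ i, d i * (c i - mi i + m i i) =
      ∑ i, d i * c i - ∑ i, mi i * d i + ∑ i, d i * m i i := by
    rw [← Finset.sum_sub_distrib, ← Finset.sum_add_distrib]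
    exact Finset.sum_congr rfl fun i _ => by ring
  have h10 : ∑ i, (m i i / 2) * (2 * e i - d i * ρ) =
      ∑ i, e i * m i i - ρ / 2 * ∑ i, d i * m i i := by
    rw [Finset.mul_sum, ← Finset.sum_sub_distrib]
    exact Finset.sum_congr rfl fun i _ => by ring
  rw [h8, h9, h10, hinf]
  have h11 : ∑ i, d i * c i = 2 - c0 := by linarith
  rw [h11]
  ring

theorem exists_phi {ι : Type} [Fintype ι] (p : ι → K[X]) (hm : ∀ i, (p i).Monic)
    (hi : ∀ i, Irreducible (p i)) (hne : Function.Injective p) (c : ι → ℝ) (c0 : ℝ)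
    (hc : ∀ i, 0 ≤ c i ∧ c i ≤ 1) (hc0 : 0 ≤ c0 ∧ c0 ≤ 1)
    (hs : ∑ i, ((p i).natDegree : ℝ) * c i + c0 = 2) :
    ∃ Φ : K →₀ ℝ, ∀ (E : QVal F) (ρ : ℤ), DerivBd K E ρ →
      0 ≤ (ρ : ℝ) - ∑ i, c i * (E (algebraMap K[X] F (p i)) : ℝ) + val Φ (QVal.restr K E) := by
  classical
  obtain ⟨m, m0, msym, mrow⟩ := exists_pairing (ι := Option ι)
    (fun o => o.elim 1 fun i => (p i).natDegree)
    (fun o => by
      cases o with
      | none => exact one_pos
      | some i => exact (hi i).natDegree_pos)
    (fun o => o.elim c0 c)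
    (fun o => by
      cases o with
      | none => exact hc0.1
      | some i => exact (hc i).1)
    (fun o => by
      cases o with
      | none => exact hc0.2
      | some i => exact (hc i).2)
    (by
      rw [Fintype.sum_option]
      simp only [Option.elim_none, Option.elim_some, Nat.cast_one, one_mul]
      linarith)
  have hrow : ∀ i, m (some i) none + ∑ j, m (some i) (some j) * ((p j).natDegree : ℝ) -
      m (some i) (some i) = c i := by
    intro i
    have := mrow (some i)
    rw [Fintype.sum_option] at this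
    simpa only [Option.elim_none, Option.elim_some, Nat.cast_one, mul_one] using this
  have hinf : ∑ j, m (some j) none * ((p j).natDegree : ℝ) = c0 := by
    have := mrow none
    rw [Fintype.sum_option] at this
    simp only [Option.elim_none, Option.elim_some, Nat.cast_one, mul_one] at this
    have h2 : ∑ j, m (some j) none * ((p j).natDegree : ℝ) =
        ∑ j, m none (some j) * ((p j).natDegree : ℝ) :=
      Finset.sum_congr rfl fun j _ => by rw [msym]
    rw [h2]
    linarith
  refine ⟨∑ i, ∑ j, (m (some i) (some j) / 2) • Finsupp.single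
    (if i = j then discr (p i) else resultant (p i) (p j)) (1 : ℝ), ?_⟩
  intro E ρ hE
  set e : ι → ℝ := fun i => (E (algebraMap K[X] F (p i)) : ℝ) with he
  have hval : ∑ i, ∑ j, (m (some i) (some j) / 2) *
      (if i = j then 2 * (((p i).natDegree : ℝ) - 1) * e i -
          ((p i).natDegree : ℝ) * (((p i).natDegree : ℝ) - 1) * (ρ : ℝ)
        else ((p j).natDegree : ℝ) * e i + ((p i).natDegree : ℝ) * e j -
          ((p i).natDegree : ℝ) * ((p j).natDegree : ℝ) * (ρ : ℝ)) ≤
      val (∑ i, ∑ j, (m (some i) (some j) / 2) • Finsupp.single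
        (if i = j then discr (p i) else resultant (p i) (p j)) (1 : ℝ)) (QVal.restr K E) := by
    rw [val_sum]
    refine Finset.sum_le_sum fun i _ => ?_
    rw [val_sum]
    refine Finset.sum_le_sum fun j _ => ?_
    rw [val_smul, val_single, one_mul, QVal.restr_apply]
    refine mul_le_mul_of_nonneg_left ?_ (by have := m0 (some i) (some j); linarith)
    split_ifs with hij
    · exact PHI_dis E ρ hE (p i) (hm i) (hi i)
    · exact PHI_res E ρ hE (p i) (p j) (hm i) (hm j) (hi i) (hi j) fun h => hij (hne h)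
  have halg := PHI_alg (fun i j => m (some i) (some j)) (fun i j => msym _ _)
    (fun i => m (some i) none) (fun i => ((p i).natDegree : ℝ)) e c (ρ : ℝ) c0 hrow hinf hs
  rw [halg] at hval
  have hlast : 0 ≤ ∑ i, m (some i) none * (((p i).natDegree : ℝ) * (ρ : ℝ) - e i) := by
    refine Finset.sum_nonneg fun i _ => mul_nonneg (m0 _ _) ?_
    have h1 := le_of_monic E ρ hE (p i) (hm i)
    have h2 : e i ≤ ((p i).natDegree : ℝ) * (ρ : ℝ) := by
      have h3 : ((E (algebraMap K[X] F (p i)) : ℤ) : ℝ) ≤
          ((((p i).natDegree : ℤ) * ρ : ℤ) : ℝ) := by exact_mod_cast h1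
      push_cast at h3
      exact h3
    linarith
  have h5 : ∑ i, m (some i) none * (((p i).natDegree : ℝ) * (ρ : ℝ) - e i) =
      (ρ : ℝ) * c0 - ∑ i, m (some i) none * e i := by
    rw [← hinf, Finset.mul_sum, ← Finset.sum_sub_distrib]
    exact Finset.sum_congr rfl fun i _ => by ring
  have h6 : ∑ i, e i * (c i - m (some i) none) =
      ∑ i, c i * e i - ∑ i, m (some i) none * e i := by
    rw [← Finset.sum_sub_distrib]
    exact Finset.sum_congr rfl fun i _ => by ring
  have h7 : ∑ i, c i * (E (algebraMap K[X] F (p i)) : ℝ) = ∑ i, c i * e i := rfl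
  rw [h7]
  rw [h6] at hval
  rw [h5] at hlast
  linarith

end WNP
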