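import Pool.Agent.WNP.Cov

/-!
LGD. A bound for the loss of value under a derivation extends from `F` to `F₂ = F(α)`.

PROOF. Write `α` for its image in `F₂`, `a` for the image of `a`; `δ₂ a = 0` as `δ₂ a = 2 α δ₂ α`
(`C.hα`, `C.hcomm`). Let `g = x + y α`, `x y : F`. If `x = 0` or `y = 0`: `δ₂ (y α) = α δ₂ y` and `h`.
If `E₂ x ≠ E₂ (y α)` then `E₂ g` is the minimum `m` of the two (`QVal.add_of_gt`), and `δ₂ x`,
`δ₂ (y α) = α δ₂ y` are both `Ge E₂ (m - ρ)`. If `E₂ x = E₂ (y α) = m`: if `g = 0` nothing is to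
prove; if `E₂ g = m` as before. Else `E₂ g > m`. Let `z = x / y : F`, `g = y (z + α)`, so
`E₂ z = E₂ α`, `E₂ (z + α) > E₂ α`, and `z - α = (z + α) - 2 α` has value `E₂ α`. Then
`z² - a = (z + α)(z - α)` is an element of `F` with value `E₂ (z + α) + E₂ α`, and `h` for it gives, as
`δ₂ (z² - a) = 2 z δ₂ z`: `δ₂ z = 0` or `E₂ z + E₂ (δ₂ z) ≥ E₂ (z + α) + E₂ α - ρ`, i.e.
`Ge E₂ (E₂ (z + α) - ρ) (δ₂ z)`. Finally `δ₂ g = δ₂ y * (z + α) + y * δ₂ z` and
`E₂ g = E₂ y + E₂ (z + α)`.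
-/

open Polynomial WNV

namespace WNP

variable {K F K₂ F₂ : Type} [Field K] [Field F] [Field K₂] [Field F₂]
    [Algebra ℂ K] [Algebra ℂ F] [Algebra ℂ K₂] [Algebra ℂ F₂]
    [Algebra K F] [Algebra K K₂] [Algebra F F₂] [Algebra K₂ F₂] [Algebra K₂[X] F₂]
    {a b : K} {u v : F} {α : K₂} {σ : F₂ ≃+* F₂}

theorem ge_deriv_ext (C : Cov a b u v α σ) (δ₂ : Derivation ℂ F₂ F₂)
    (hα : δ₂ (algebraMap K₂ F₂ α) = 0) (E₂ : QVal F₂) (ρ : ℤ)
    (h : ∀ f : F, Ge E₂ (E₂ (algebraMap F F₂ f) - ρ) (δ₂ (algebraMap F F₂ f))) (g : F₂) :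
    Ge E₂ (E₂ g - ρ) (δ₂ g) := by
  set A : F₂ := algebraMap K₂ F₂ α with hA
  have hAA : A ^ 2 = algebraMap F F₂ (algebraMap K F a) := by
    rw [hA, ← map_pow, C.hα, C.hcomm]
  have ha0 : algebraMap F F₂ (algebraMap K F a) ≠ 0 := by
    rw [Ne, map_eq_zero, map_eq_zero]
    exact C.hcon.ha
  have hA0 : A ≠ 0 := by
    intro h
    rw [h] at hAA
    exact ha0 (by rw [← hAA]; ring)
  have h20 : (2 : F₂) ≠ 0 := by
    intro h0
    have h1 : algebraMap ℂ F₂ 2 = 0 := by rw [map_ofNat]; exact h0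
    rw [map_eq_zero] at h1
    exact two_ne_zero h1
  have hE2 : E₂ (2 : F₂) = 0 := by
    have h4 := E₂.const' (2 : ℂ)
    rwa [map_ofNat] at h4
  have hm20 : (-2 : F₂) ≠ 0 := neg_ne_zero.2 h20
  have hEm2 : E₂ (-2 : F₂) = 0 := by rw [E₂.neg, hE2]
  have hda : δ₂ (algebraMap F F₂ (algebraMap K F a)) = 0 := by
    rw [← hAA, sq, Derivation.leibniz, hα]
    simp
  obtain ⟨x, y, hg⟩ := C.hF₂ g
  rw [← hA] at hg
  set X : F₂ := algebraMap F F₂ x with hX
  set Y : F₂ := algebraMap F F₂ y with hY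
  have hdY : δ₂ (Y * A) = A * δ₂ Y := by
    rw [Derivation.leibniz, hα]
    simp
  have hgeX : Ge E₂ (E₂ X - ρ) (δ₂ X) := h x
  have hgeY : Ge E₂ (E₂ (Y * A) - ρ) (δ₂ (Y * A)) := by
    by_cases hY0 : Y = 0
    · left
      rw [hY0, zero_mul, map_zero]
    · have h1 := E₂.ge_mul (E₂.ge_self A) (h y)
      rw [← hY] at h1
      rw [hdY]
      refine E₂.ge_mono ?_ h1
      rw [E₂.mul hY0 hA0]
      omega
  by_cases hx0 : x = 0
  · have h1 : g = Y * A := by rw [hg, hX, hx0, map_zero, zero_add]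
    rw [h1]; exact hgeY
  by_cases hy0 : y = 0
  · have h1 : g = X := by rw [hg, hY, hy0, map_zero, zero_mul, add_zero]
    rw [h1]; exact hgeX
  have hX0 : X ≠ 0 := by simpa [hX] using hx0
  have hY0 : Y ≠ 0 := by simpa [hY] using hy0
  have hYA0 : Y * A ≠ 0 := mul_ne_zero hY0 hA0
  have hsum : ∀ m : ℤ, m ≤ E₂ X → m ≤ E₂ (Y * A) → Ge E₂ (m - ρ) (δ₂ g) := by
    intro m h1 h2
    rw [hg, map_add]
    exact E₂.ge_add (E₂.ge_mono (by omega) hgeX) (E₂.ge_mono (by omega) hgeY)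
  by_cases hg0 : g = 0
  · left
    rw [hg0, map_zero]
  rcases lt_trichotomy (E₂ X) (E₂ (Y * A)) with hlt | heq | hgt
  · have h1 := (E₂.add_of_gt hX0 (Or.inr (by omega) : Ge E₂ (E₂ X + 1) (Y * A))).2
    have h2 : E₂ g = E₂ X := by rw [hg]; exact h1
    rw [h2]
    exact hsum _ le_rfl hlt.le
  · have hmin : E₂ X ≤ E₂ g := by
      have h1 := E₂.add' X (Y * A) hX0 hYA0 (by rw [← hg]; exact hg0)
      change min (E₂ X) (E₂ (Y * A)) ≤ E₂ (X + Y * A) at h1
      rw [← hg] at h1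
      omega
    rcases hmin.eq_or_lt with h1 | h1
    · rw [← h1]
      exact hsum _ le_rfl heq.le
    · set z : F := x / y with hz
      set Z : F₂ := algebraMap F F₂ z with hZ
      have hz0 : z ≠ 0 := div_ne_zero hx0 hy0
      have hZ0 : Z ≠ 0 := by simpa [hZ] using hz0
      have hZXY : Z * Y = X := by
        rw [hZ, hz, map_div₀, hY, hX]
        have : algebraMap F F₂ y ≠ 0 := hY0
        field_simp
      have hgY : g = Y * (Z + A) := by
        rw [hg, ← hZXY]; ring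
      have hZA0 : Z + A ≠ 0 := by
        intro h0
        apply hg0
        rw [hgY, h0, mul_zero]
      have hEg : E₂ g = E₂ Y + E₂ (Z + A) := by
        rw [hgY, E₂.mul hY0 hZA0]
      have hEX : E₂ X = E₂ Z + E₂ Y := by rw [← hZXY, E₂.mul hZ0 hY0]
      have hEYA : E₂ (Y * A) = E₂ Y + E₂ A := E₂.mul hY0 hA0
      have hE2A : E₂ (-2 * A) = E₂ A := by
        rw [E₂.mul hm20 hA0, hEm2, zero_add]
      have hZmA := E₂.add_of_gt (f := -2 * A) (g := Z + A) (mul_ne_zero hm20 hA0)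
        (Or.inr (by rw [hE2A]; omega))
      have hsub : -2 * A + (Z + A) = Z - A := by ring
      rw [hsub, hE2A] at hZmA
      obtain ⟨hZmA0, hEZmA⟩ := hZmA
      have hprod : algebraMap F F₂ (z ^ 2 - algebraMap K F a) = (Z + A) * (Z - A) := by
        rw [map_sub, map_pow, ← hAA]; ring
      have hEprod : E₂ (algebraMap F F₂ (z ^ 2 - algebraMap K F a)) = E₂ (Z + A) + E₂ A := by
        rw [hprod, E₂.mul hZA0 hZmA0, hEZmA]
      have hder : δ₂ (algebraMap F F₂ (z ^ 2 - algebraMap K F a)) = 2 * Z * δ₂ Z := by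
        rw [map_sub, map_sub, hda, sub_zero, map_pow, sq, Derivation.leibniz]
        simp only [smul_eq_mul]
        ring
      have h2 := h (z ^ 2 - algebraMap K F a)
      rw [hder, hEprod] at h2
      have hdZ : Ge E₂ (E₂ (Z + A) - ρ) (δ₂ Z) := by
        rcases h2 with h2 | h2
        · left
          have h3 : (2 * Z : F₂) ≠ 0 := mul_ne_zero h20 hZ0
          exact (mul_eq_zero.1 h2).resolve_left h3
        · by_cases h5 : δ₂ Z = 0
          · exact Or.inl h5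
          right
          have h3 : E₂ (2 * Z * δ₂ Z) = E₂ Z + E₂ (δ₂ Z) := by
            rw [E₂.mul (mul_ne_zero h20 hZ0) h5, E₂.mul h20 hZ0, hE2, zero_add]
          rw [h3] at h2
          omega
      have hdg : δ₂ g = (Z + A) * δ₂ Y + Y * δ₂ Z := by
        rw [hgY, Derivation.leibniz, map_add, hα, add_zero]
        simp only [smul_eq_mul]
        ring
      rw [hdg]
      apply E₂.ge_add
      · refine E₂.ge_mono ?_ (E₂.ge_mul (E₂.ge_self (Z + A)) (h y))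
        rw [hEg]
        change E₂ Y + E₂ (Z + A) - ρ ≤ E₂ (Z + A) + (E₂ Y - ρ)
        omega
      · refine E₂.ge_mono ?_ (E₂.ge_mul (E₂.ge_self Y) hdZ)
        rw [hEg]
        omega
  · have h1 := (E₂.add_of_gt hYA0 (Or.inr (by omega) : Ge E₂ (E₂ (Y * A) + 1) X)).2
    have h2 : E₂ g = E₂ (Y * A) := by rw [hg, add_comm]; exact h1
    rw [h2]
    exact hsum _ hgt.le le_rfl

end WNP
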