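import Pool.Agent.WNV.BRG

/-!
ZER. A derivation which vanishes on a transcendence basis is zero; the form
`dy_1 ∧ … ∧ dy_c ∧ df`.

PROOFS. `deriv_eq_zero`: the `F`-linear map `D.liftKaehlerDifferential` vanishes on the
`KaehlerDifferential.D ℂ F (y j)`, which span (`WNV.span_D y hy`), so it is `0`
(`Submodule.linearMap_eq_iff_of_span_eq_top`, or `LinearMap.ext_on`), and
`D x = D.liftKaehlerDifferential (D ℂ F x)` (`Derivation.liftKaehlerDifferential_comp_D`).
`wedge_last`: let `z = Fin.append y (fun _ => u)` and `∂_i` the derivations dual to `z`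
(`WNV.exists_deriv z hb`; see `pairMap_injective` in `Pool/Agent/WNV/BRG.lean`). For a
derivation `d` of `L` the derivation `d - ∑_j (d (y j)) • ∂_(castAdd j) - (d u) • δ` vanishes on `z`
(note `∂_(castAdd j) u = 0`, `δ (y j) = 0`), so it is `0`, and
`d f = ∑_j d (y j) * ∂_j f + d u * δ f`. So in the matrix of `wedge (Fin.append y f)` (entries
`d i (…)`) the last column is the sum of multiples of the first `c` columns and `δ f` times the
last column of the matrix of `wedge z` (`Matrix.det_updateCol_add`, `Matrix.det_updateCol_smul`,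
`Matrix.det_zero_of_column_eq`; or `Matrix.det_updateCol_sum`).
-/

open WNV

namespace WNP

theorem deriv_eq_zero {F M : Type} [Field F] [Algebra ℂ F] [AddCommGroup M] [Module ℂ M]
    [Module F M] [IsScalarTower ℂ F M] {n : ℕ} (y : Fin n → F) (hy : IsTranscendenceBasis ℂ y)
    (D : Derivation ℂ F M) (h : ∀ j, D (y j) = 0) : D = 0 := by
  have h1 : D.liftKaehlerDifferential = 0 := by
    refine LinearMap.ext_on (span_D y hy) ?_
    rintro _ ⟨j, rfl⟩
    rw [Derivation.liftKaehlerDifferential_comp_D, h, LinearMap.zero_apply]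
  ext x
  rw [← Derivation.liftKaehlerDifferential_comp_D D x, h1, LinearMap.zero_apply,
    Derivation.zero_apply]

private theorem zer_sum_apply {F : Type} [Field F] [Algebra ℂ F] {ι : Type} (s : Finset ι)
    (g : ι → Derivation ℂ F F) (x : F) : (∑ i ∈ s, g i) x = ∑ i ∈ s, g i x := by
  classical
  induction s using Finset.induction_on with
  | empty => rw [Finset.sum_empty, Finset.sum_empty, Derivation.zero_apply]
  | insert i s hi ih => rw [Finset.sum_insert hi, Finset.sum_insert hi, Derivation.add_apply, ih]

theorem wedge_last {L : Type} [Field L] [Algebra ℂ L] {c : ℕ} (y : Fin c → L) (u : L)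
    (hb : IsTranscendenceBasis ℂ (Fin.append y (fun _ : Fin 1 => u)))
    (δ : Derivation ℂ L L) (hu : δ u = 1) (hy : ∀ j, δ (y j) = 0) (f : L) :
    wedge (Fin.append y (fun _ : Fin 1 => f)) =
      fun d => δ f * wedge (Fin.append y (fun _ : Fin 1 => u)) d := by
  classical
  set z := Fin.append y (fun _ : Fin 1 => u) with hz
  choose e he using WNV.exists_deriv z hb
  have z1 : ∀ j, z (Fin.castAdd 1 j) = y j := fun j => Fin.append_left _ _ j
  have z2 : ∀ j, z (Fin.natAdd c j) = u := fun j => Fin.append_right _ _ j
  have hne : ∀ (i : Fin c) (j : Fin 1), Fin.natAdd c j ≠ Fin.castAdd 1 i := by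
    intro i j h
    have h1 := congrArg Fin.val h
    rw [Fin.val_natAdd, Fin.val_castAdd] at h1
    have h2 := i.2
    omega
  let w : Fin (c + 1) → L :=
    Fin.append (fun j => e (Fin.castAdd 1 j) f) (fun _ : Fin 1 => δ f)
  have w1 : ∀ j, w (Fin.castAdd 1 j) = e (Fin.castAdd 1 j) f := fun j => Fin.append_left _ _ j
  have w2 : ∀ j, w (Fin.natAdd c j) = δ f := fun j => Fin.append_right _ _ j
  have key : ∀ d : Derivation ℂ L L, d f = ∑ k, w k * d (z k) := by
    intro d
    have h1 := deriv_eq_zero z hb (d - ∑ j : Fin c, d (y j) • e (Fin.castAdd 1 j) - d u • δ) (by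
      intro k
      refine Fin.addCases (fun j => ?_) (fun j => ?_) k
      · rw [z1]
        simp only [Derivation.sub_apply, Derivation.smul_apply, smul_eq_mul, hy, mul_zero,
          sub_zero]
        have h2 : (∑ i : Fin c, d (y i) • e (Fin.castAdd 1 i)) (y j) = d (y j) := by
          rw [zer_sum_apply, Finset.sum_eq_single j]
          · rw [Derivation.smul_apply, ← z1, he, if_pos rfl, smul_eq_mul, mul_one]
          · intro i _ hij
            rw [Derivation.smul_apply, ← z1 j, he, if_neg, smul_zero]
            intro h3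
            exact hij (Fin.castAdd_injective _ _ h3).symm
          · intro h3
            exact absurd (Finset.mem_univ j) h3
        rw [h2, sub_self]
      · rw [z2]
        simp only [Derivation.sub_apply, Derivation.smul_apply, smul_eq_mul, hu, mul_one]
        have h2 : (∑ i : Fin c, d (y i) • e (Fin.castAdd 1 i)) u = 0 := by
          rw [zer_sum_apply]
          refine Finset.sum_eq_zero fun i _ => ?_
          rw [Derivation.smul_apply, ← z2 j, he, if_neg (hne i j), smul_zero]
        rw [h2, sub_zero, sub_self])
    have h3 := DFunLike.congr_fun h1 f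
    simp only [Derivation.sub_apply, Derivation.smul_apply, smul_eq_mul, Derivation.zero_apply,
      zer_sum_apply] at h3
    rw [Fin.sum_univ_add]
    simp only [w1, w2, z1, z2, Finset.univ_unique, Finset.sum_singleton]
    have h4 : ∑ i : Fin c, e (Fin.castAdd 1 i) f * d (y i)
        = ∑ i : Fin c, d (y i) * e (Fin.castAdd 1 i) f :=
      Finset.sum_congr rfl fun i _ => mul_comm _ _
    rw [h4, mul_comm (δ f)]
    linear_combination h3
  funext d
  unfold wedge
  set A : Matrix (Fin (c + 1)) (Fin (c + 1)) L := Matrix.of fun i j => d i (z j) with hA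
  have h1 : (Matrix.of fun i j => d i (Fin.append y (fun _ : Fin 1 => f) j) :
      Matrix (Fin (c + 1)) (Fin (c + 1)) L)
      = A.updateCol (Fin.natAdd c 0) (fun k => ∑ i, w i • A k i) := by
    ext i j
    rw [Matrix.of_apply]
    refine Fin.addCases (fun j => ?_) (fun j => ?_) j
    · rw [Fin.append_left, Matrix.updateCol_ne (Ne.symm (hne j 0)), hA, Matrix.of_apply, z1]
    · have hj : j = 0 := Subsingleton.elim _ _
      rw [hj, Fin.append_right, Matrix.updateCol_self, key]
      refine Finset.sum_congr rfl fun k _ => ?_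
      rw [smul_eq_mul, hA, Matrix.of_apply]
  rw [h1, Matrix.det_updateCol_sum, w2, smul_eq_mul]

end WNP
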