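import Pool.Agent.WNP.LGF
import Pool.Agent.WNP.FOR
import Pool.Agent.WNP.ZER
import Pool.Agent.WNP.CDF

/-!
RHU. The order of the form `cform y u` along a valuation over `w₀` bounds the loss of value under the
derivation `δ = ∂/∂u`.

PROOF. If `f = 0` or `δ f = 0` there is nothing to do. `hb'` gives `OrdGE w₀ (formY y) b'`
(`ordGE_of` with `pairMap_injective y hy`, `pairMap_D`; `formY y` is `ιMulti (D y)`), so
`ordGE_wedge_log` gives `OrdGE E (wedgeY F y (f⁻¹ • D f)) (e b' + (e - 1))`, and `fOrdGE_of`: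
`FOrdGE E (pairMap … (wedgeY F y (f⁻¹ • D f))) (…)`. By `pairMap_iMulti` (see `pairMap_form` in
`Pool/Agent/WNV/BRG.lean` for the same computation; `Matrix.det_mul_row`, or pull the scalar `f⁻¹` out
of the last column) this form is `fun d => f⁻¹ * wedge (ycoord y f) d`, which by `wedge_last` is
`fun d => (f⁻¹ * δ f) * cform y u d` (`ycoord` is `Fin.append _ _` by definition). By
`le_of_fIsOrd_smul`: `e b' + (e - 1) ≤ a' + E (δ f) - E f`.
-/

open WNV

namespace WNP

theorem ge_delta {c : ℕ} {K F : Type} [Field K] [Algebra ℂ K] [Field F] [Algebra ℂ F]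
    [Algebra K F] [IsScalarTower ℂ K F] (y : Fin c → K) (hy : IsTranscendenceBasis ℂ y) (u : F)
    (hb : IsTranscendenceBasis ℂ (ycoord y u)) (δ : Derivation ℂ F F) (hu : δ u = 1)
    (hk : ∀ k : K, δ (algebraMap K F k) = 0) (E : DVal F) (w₀ : DVal K)
    (e : ℤ) (he : 0 < e) (hE : ∀ k : K, E (algebraMap K F k) = e * w₀ k) (b' : ℤ)
    (hb' : FOrdGE w₀ (wedge y) b') (a' : ℤ) (ha' : FIsOrd E (cform y u) a') (f : F) :
    Ge E (E f - (a' + 1 - e * (b' + 1))) (δ f) := by
  classical
  by_cases hf : f = 0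
  · left
    rw [hf, map_zero]
  by_cases hd : δ f = 0
  · left
    exact hd
  right
  have h1 : OrdGE w₀ (formY y) b' := by
    refine ordGE_of (pairMap_injective y hy) ?_
    unfold formY
    rw [pairMap_D]
    exact hb'
  have h2 := fOrdGE_of (ordGE_wedge_log y hy E w₀ e he hE b' h1 f hf)
  have h3 : pairMap F (c + 1) (wedgeY F y (f⁻¹ • KaehlerDifferential.D ℂ F f)) =
      fun d => (f⁻¹ * δ f) * cform y u d := by
    funext d
    have h4 : wedge (ycoord y f) = fun d => δ f * wedge (ycoord y u) d :=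
      wedge_last (fun j => algebraMap K F (y j)) u hb δ hu (fun j => hk (y j)) f
    have h6 := congrFun h4 d
    unfold wedgeY
    rw [pairMap_iMulti]
    have h5 : (Matrix.of fun i j => (d i).liftKaehlerDifferential
        (Fin.append (fun j => KaehlerDifferential.D ℂ F (algebraMap K F (y j)))
          (fun _ : Fin 1 => f⁻¹ • KaehlerDifferential.D ℂ F f) j)) =
        Matrix.of fun i j => (Fin.append (fun _ : Fin c => (1 : F)) (fun _ : Fin 1 => f⁻¹) j) *
          (d i (ycoord y f j)) := by
      ext i j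
      rw [Matrix.of_apply, Matrix.of_apply]
      unfold ycoord
      refine Fin.addCases (fun j => ?_) (fun j => ?_) j
      · rw [Fin.append_left, Fin.append_left, Fin.append_left,
          Derivation.liftKaehlerDifferential_comp_D, one_mul]
      · rw [Fin.append_right, Fin.append_right, Fin.append_right, map_smul,
          Derivation.liftKaehlerDifferential_comp_D, smul_eq_mul]
    rw [h5, Matrix.det_mul_row, Fin.prod_univ_add]
    have h7 : Matrix.det (fun i j => d i (ycoord y f j)) =
        δ f * wedge (ycoord y u) d := h6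
    have h8 : (∏ i, Fin.append (fun _ : Fin c => (1 : F)) (fun _ : Fin 1 => f⁻¹)
        (Fin.castAdd 1 i)) = 1 :=
      Finset.prod_eq_one fun i _ => Fin.append_left _ _ i
    have h9 : (∏ i, Fin.append (fun _ : Fin c => (1 : F)) (fun _ : Fin 1 => f⁻¹)
        (Fin.natAdd c i)) = f⁻¹ := by
      rw [Finset.univ_unique, Finset.prod_singleton, Fin.append_right]
    rw [h8, h9]
    unfold cform
    refine (congrArg (fun z => 1 * f⁻¹ * z) h7).trans ?_
    ring
  rw [h3] at h2
  have h8 := le_of_fIsOrd_smul E.toQVal (mul_ne_zero (inv_ne_zero hf) hd) ha' h2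
  have h9 : E.toQVal (f⁻¹ * δ f) = E (δ f) - E f := by
    rw [E.toQVal.mul (inv_ne_zero hf) hd, E.toQVal.inv]
    ring
  rw [h9] at h8
  have h10 : e * (b' + 1) = e * b' + e := by ring
  rw [h10]
  linarith

end WNP
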