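import Pool.Agent.WNP.DBC
import Pool.Agent.WNP.LGD
import Pool.Agent.WNP.RHU
import Pool.Agent.WNP.DEL
import Pool.Agent.WNP.TAY

/-!
VRT. The inequality at the primes which are not trivial on `K`.

PROOF. Let `δ`, `δ₂` be given by `exists_delta`. `ge_delta` (with `tb_F`): for `f : F`,
`Ge E (E f - ρ) (δ f)`, `ρ = a' + 1 - e (b' + 1)`. Hence
`Ge E₂ (E₂ (algebraMap f) - 2 ρ) (δ₂ (algebraMap f))` (`hE₂`; `δ₂ (algebraMap f) = algebraMap (δ f)`),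
and `ge_deriv_ext` (`δ₂` kills `α`) gives this for all `g : F₂`. `gz * δ₂ t = 1` shows `δ₂ t ≠ 0` and
`E₂ (δ₂ t) = - E₂ gz`. `derivBd_of` with `K := K₂`, `F := F₂`: `DerivBd K₂ E₂ (2 ρ - E₂ gz)`. Apply `hΦ`.
-/

set_option linter.unusedSectionVars false

open Polynomial WNV

namespace WNP

variable {c : ℕ} {K F K₂ F₂ : Type} [Field K] [Field F] [Field K₂] [Field F₂]
    [Algebra ℂ K] [Algebra ℂ F] [Algebra ℂ K₂] [Algebra ℂ F₂]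
    [Algebra K F] [Algebra K K₂] [Algebra F F₂] [Algebra K₂ F₂] [Algebra K₂[X] F₂]
    [IsScalarTower ℂ K F] [IsScalarTower ℂ K K₂] [IsScalarTower ℂ F F₂] [IsScalarTower ℂ K₂ F₂]
    [IsScalarTower K₂ K₂[X] F₂] [IsFractionRing K₂[X] F₂]
    {a b : K} {u v : F} {α : K₂} {σ : F₂ ≃+* F₂}

theorem vertical (C : Cov a b u v α σ) (y : Fin c → K) (hy : IsTranscendenceBasis ℂ y)
    {s : ℕ} (p : Fin s → K₂[X]) (w : Fin s → ℝ) (Φ : K₂ →₀ ℝ)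
    (hΦ : ∀ (E₂ : QVal F₂) (ρ : ℤ), DerivBd K₂ E₂ ρ →
      0 ≤ (ρ : ℝ) - ∑ i, w i * (E₂ (algebraMap K₂[X] F₂ (p i)) : ℝ) + val Φ (QVal.restr K₂ E₂))
    (E : DVal F) (w₁ : DVal K) (e : ℤ) (he : 0 < e)
    (hE : ∀ k : K, E (algebraMap K F k) = e * w₁ k) (b' : ℤ) (hb' : FOrdGE w₁ (wedge y) b')
    (a' : ℤ) (ha' : FIsOrd E (cform y u) a') (E₂ : QVal F₂)
    (hE₂ : ∀ f : F, E₂ (algebraMap F F₂ f) = 2 * E f) :
    0 ≤ 2 * ((a' : ℝ) + 1 - e * (b' + 1)) - (E₂ (gz b v α : F₂) : ℝ) -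
      ∑ i, w i * (E₂ (algebraMap K₂[X] F₂ (p i)) : ℝ) + val Φ (QVal.restr K₂ E₂) := by
  obtain ⟨δ, δ₂, hu, hk, hk₂, hcomp, hg⟩ := exists_delta C y hy
  have hD : ∀ f : F, Ge E (E f - (a' + 1 - e * (b' + 1))) (δ f) := fun f =>
    ge_delta y hy u (tb_F C.hcon y hy) δ hu hk E w₁ e he hE b' hb' a' ha' f
  have hD₂ : ∀ f : F, Ge E₂ (E₂ (algebraMap F F₂ f) - 2 * (a' + 1 - e * (b' + 1)))
      (δ₂ (algebraMap F F₂ f)) := by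
    intro f
    rw [hcomp f, hE₂ f]
    rcases hD f with h | h
    · left
      rw [h, map_zero]
    · right
      rw [hE₂ (δ f)]
      linarith
  have hall : ∀ g : F₂, Ge E₂ (E₂ g - 2 * (a' + 1 - e * (b' + 1))) (δ₂ g) :=
    ge_deriv_ext C δ₂ (hk₂ α) E₂ (2 * (a' + 1 - e * (b' + 1))) hD₂
  have hg0 : (gz b v α : F₂) * δ₂ (tv K₂ F₂) ≠ 0 := by
    rw [hg]
    exact one_ne_zero
  have hne : δ₂ (tv K₂ F₂) ≠ 0 := right_ne_zero_of_mul hg0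
  have hgz : (gz b v α : F₂) ≠ 0 := left_ne_zero_of_mul hg0
  have hval : E₂ (gz b v α : F₂) + E₂ (δ₂ (tv K₂ F₂)) = 0 := by
    rw [← E₂.mul hgz hne, hg, QVal.one]
  have hB := hΦ E₂ _ (derivBd_of δ₂ hk₂ hne E₂ (2 * (a' + 1 - e * (b' + 1))) hall)
  have hcast : (E₂ (gz b v α : F₂) : ℝ) + (E₂ (δ₂ (tv K₂ F₂)) : ℝ) = 0 := by
    exact_mod_cast hval
  push_cast at hB
  linarith

end WNP
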