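import Pool.Agent.WNP.DGC
import Pool.Agent.WNP.VRT
import Pool.Agent.WNP.PHI
import Pool.Agent.WNP.NRM
import Pool.Agent.WNP.EXQ
import Pool.Agent.WNV.ASC

/-!
FIN. The theorem for a conic with the (possibly trivial) quadratic extension `F₂ = K₂(t)`.

PROOF. Weights `w i`, `w₀` of the points `p i`, infinity from `exists_weights`; `Φ : K₂ →₀ ℝ` from
`exists_phi` (with `K := K₂`, `F := F₂`, `c := w`, `c0 := w₀`). Put
`φ₂ = lift F₂ Φ - ∑ i, w i • single (algebraMap (p i)) 1 - single gz 1 : F₂ →₀ ℝ` (`WNV.lift`,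
`val_lift`), `φ₁` its norm (`exists_norm`), `φ = φ₁ + lift F g` (`g` from `hB`). Let `E` be a
prime of `chart x i`, `a'` its order: `D E = a' + Δ E` (`S.hD`).
VERTICAL: `E` is not trivial on `K`: `exists_normalise (QVal.restr K E.toQVal)` gives `w₁`, `e`, and `hB`
gives `b'` with `0 ≤ e (b' + 1) - 1 + Δ E + e val g w₁`. `E₂` from `exists_extQ` (`C.hα`, `C.hF₂`),
`E₃ = E₂ ∘ σ` (`exists_conj`); both restrict to `2 E`. `vertical` for `E₂` and `E₃`:
`0 ≤ 2 (a' + 1 - e (b' + 1)) + val φ₂ E₂`, the same for `E₃`; the mean value and `exists_norm`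
(factor `2`): `0 ≤ 2 (a' + 1 - e (b' + 1)) + 2 val φ₁ E`. With `val (lift F g) E = e val g w₁`:
`D E + val φ E ≥ a' + Δ E - (a' + 1 - e (b' + 1)) + e val g w₁ ≥ 0`.
HORIZONTAL: `E` is trivial on `K`: `exists_over` gives `E₂ : DVal F₂`, trivial on `K₂`,
restricting to `E`; `E₃` from `exists_conjD`, it is also trivial on `K₂` (as in `UNR`, or because
`E₂ (σ z) = 0`: use `C.hK₂` and that `E₃` restricts to `E` on `F`). `exists_norm` with factor `1`.
`val (lift F g) E = 0`, `val (lift F₂ Φ) E₂ = 0`. It is enough to show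
`0 ≤ a' + Δ E + val φ₂ E'` for `E' = E₂, E₃`. `classify E'` (`K := K₂`):
* `IsOrdPol E' q`: `a' = E' gz` (`cform_ordPol`, `fIsOrd_unique`), `E' (p i) = 1` if `p i = q` (at
  most one `i`; monic irreducible: `p i ∣ …` by `ordPol_self`), else `0` (`ordPol_of_not_dvd`): total
  `Δ E - w i ≥ 0` or `Δ E ≥ 0` (`S.hΔ`).
* `IsOrdInf K₂ E'`: `a' = E' gz - 2`, `E' (p i) = - deg (p i)`, total
  `-2 + Δ E + ∑ w i deg (p i) = Δ E - w₀ ≥ 0`.
-/

set_option linter.unusedSectionVars false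

open Polynomial WNV

namespace WNP

variable {c N : ℕ} {K F K₂ F₂ : Type} [Field K] [Field F] [Field K₂] [Field F₂]
    [Algebra ℂ K] [Algebra ℂ F] [Algebra ℂ K₂] [Algebra ℂ F₂]
    [Algebra K F] [Algebra K K₂] [Algebra F F₂] [Algebra K₂ F₂] [Algebra K₂[X] F₂]
    [IsScalarTower ℂ K F] [IsScalarTower ℂ K K₂] [IsScalarTower ℂ F F₂] [IsScalarTower ℂ K₂ F₂]
    [IsScalarTower K₂ K₂[X] F₂] [IsFractionRing K₂[X] F₂]
    {a b : K} {u v : F} {α : K₂} {σ : F₂ ≃+* F₂} {x : Fin (N + 1) → F} {Δ D : DVal F → ℝ}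

/-- The combination of functions on `F₂`. -/
private noncomputable def fphi (b : K) (v : F) (α : K₂) {s : ℕ} (p : Fin s → K₂[X])
    (w : Fin s → ℝ) (Φ : K₂ →₀ ℝ) : F₂ →₀ ℝ :=
  lift F₂ Φ - ∑ i, w i • Finsupp.single (algebraMap K₂[X] F₂ (p i)) (1 : ℝ) -
    Finsupp.single (gz b v α : F₂) 1

private theorem val_fphi {s : ℕ} (p : Fin s → K₂[X]) (w : Fin s → ℝ) (Φ : K₂ →₀ ℝ)
    (E : F₂ → ℤ) :
    val (fphi (F₂ := F₂) b v α p w Φ) E = val Φ (fun z => E (algebraMap K₂ F₂ z)) -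
      ∑ i, w i * (E (algebraMap K₂[X] F₂ (p i)) : ℝ) - (E (gz b v α : F₂) : ℝ) := by
  unfold fphi
  rw [val_sub, val_sub, val_lift, val_sum, val_single, one_mul]
  congr 2
  refine Finset.sum_congr rfl fun i _ => ?_
  rw [val_smul, val_single, one_mul]

private theorem val_triv {L : Type} [Field L] (φ : L →₀ ℝ) (E : L → ℤ) (h : ∀ z, E z = 0) :
    val φ E = 0 := by
  rw [val_eq_sum]
  refine Finset.sum_eq_zero fun z _ => ?_
  rw [h z]
  simp

private theorem fin_point (C : Cov a b u v α σ) (y : Fin c → K) (hy : IsTranscendenceBasis ℂ y)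
    {s : ℕ} (p : Fin s → K₂[X]) (w : Fin s → ℝ) (w₀ : ℝ) (Φ : K₂ →₀ ℝ)
    (hpm : ∀ i, (p i).Monic) (hpi : ∀ i, Irreducible (p i)) (hinj : Function.Injective p)
    (hsum : ∑ i, ((p i).natDegree : ℝ) * w i + w₀ = 2)
    (hwp : ∀ i (E₂ : DVal F₂) (E : DVal F), IsOrdPol (K := K₂) E₂ (p i) →
        (∀ f : F, E f = E₂ (algebraMap F F₂ f)) → (∃ k, IsPrimeOf (chart x k) E) → w i ≤ Δ E)
    (hw₀p : ∀ (E₂ : DVal F₂) (E : DVal F), IsOrdInf K₂ E₂ →
        (∀ f : F, E f = E₂ (algebraMap F F₂ f)) → (∃ k, IsPrimeOf (chart x k) E) → w₀ ≤ Δ E)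
    (E : DVal F) (hE : ∃ k, IsPrimeOf (chart x k) E) (hΔ : 0 ≤ Δ E) (a' : ℤ)
    (ha' : FIsOrd E (cform y u) a') (E' : DVal F₂) (hK₂ : ∀ z : K₂, E' (algebraMap K₂ F₂ z) = 0)
    (hres : ∀ f : F, E f = E' (algebraMap F F₂ f)) :
    0 ≤ (a' : ℝ) + Δ E + val (fphi (F₂ := F₂) b v α p w Φ) E' := by
  classical
  rw [val_fphi, val_triv Φ _ hK₂]
  rcases classify (K := K₂) E' hK₂ with ⟨q, hqm, hqi, hq⟩ | hinf
  · have h1 : a' = E' (gz b v α : F₂) := fIsOrd_unique ha' (cform_ordPol C y hy E' E hres q hqi hq)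
    have hne : ∀ i, p i ≠ q → E' (algebraMap K₂[X] F₂ (p i)) = 0 := by
      intro i hi
      refine ordPol_of_not_dvd hq (p i) (hpi i).ne_zero ?_
      intro hdvd
      apply hi
      have hassoc : Associated q (p i) := (hqi.associated_of_dvd (hpi i) hdvd)
      exact (Polynomial.eq_of_monic_of_associated hqm (hpm i) hassoc).symm
    by_cases hex : ∃ i, p i = q
    · obtain ⟨i, hi⟩ := hex
      subst hi
      have h2 : ∑ j, w j * (E' (algebraMap K₂[X] F₂ (p j)) : ℝ) = w i := by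
        rw [Finset.sum_eq_single i]
        · rw [ordPol_self (hpi i) hq]
          simp
        · intro j _ hj
          rw [hne j (fun h => hj (hinj h))]
          simp
        · intro h
          exact absurd (Finset.mem_univ i) h
      rw [h2, h1]
      have := hwp i E' E hq hres hE
      linarith
    · push Not at hex
      have h2 : ∑ j, w j * (E' (algebraMap K₂[X] F₂ (p j)) : ℝ) = 0 := by
        refine Finset.sum_eq_zero fun j _ => ?_
        rw [hne j (hex j)]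
        simp
      rw [h2, h1]
      linarith
  · have h1 : a' = E' (gz b v α : F₂) - 2 := fIsOrd_unique ha' (cform_ordInf C y hy E' E hres hinf)
    have h2 : ∑ j, w j * (E' (algebraMap K₂[X] F₂ (p j)) : ℝ) =
        -∑ j, ((p j).natDegree : ℝ) * w j := by
      rw [← Finset.sum_neg_distrib]
      refine Finset.sum_congr rfl fun j _ => ?_
      rw [hinf (p j) (hpi j).ne_zero]
      push_cast
      ring
    rw [h2, h1]
    have := hw₀p E' E hinf hres hE
    push_cast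
    linarith

theorem main (C : Cov a b u v α σ) (y : Fin c → K) (hy : IsTranscendenceBasis ℂ y)
    (S : Sit K x (cform y u) Δ D) (hB : IsBaseEff x y Δ) : IsLinEff x D := by
  classical
  obtain ⟨s, p, w, w₀, hpm, hpi, hinj, hw, hw₀, hsum, hwp, hw₀p⟩ := exists_weights C y hy S
  obtain ⟨Φ, hΦ⟩ := exists_phi (K := K₂) (F := F₂) p hpm hpi hinj w w₀ hw hw₀ hsum
  obtain ⟨g, hg⟩ := hB
  obtain ⟨φ₁, hφ₁⟩ := exists_norm σ C.hN (fphi (F₂ := F₂) b v α p w Φ)
  refine ⟨φ₁ + lift F g, fun i E hE => ?_⟩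
  obtain ⟨a', ha', hD⟩ := S.hD i E hE
  rw [val_add, val_lift, hD]
  by_cases htriv : ∃ k, QVal.restr K E.toQVal k ≠ 0
  · -- vertical
    obtain ⟨w₁, e, he, hw₁⟩ := exists_normalise (QVal.restr K E.toQVal) htriv
    have hEe : ∀ k : K, E (algebraMap K F k) = e * w₁ k := fun k => hw₁ k
    obtain ⟨b', hb', hb0⟩ := hg i E hE w₁ e he hEe
    have hα' : (algebraMap K₂ F₂ α) ^ 2 = algebraMap F F₂ (algebraMap K F a) := by
      rw [← map_pow, C.hα, C.hcomm]
    obtain ⟨E₂, hE₂⟩ := exists_extQ (algebraMap K F a) (algebraMap K₂ F₂ α) hα' C.hF₂ E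
    obtain ⟨E₃, hE₃⟩ := exists_conj (F := F) σ C.hσ E₂
    have hE₃' : ∀ f : F, E₃ (algebraMap F F₂ f) = 2 * E f := by
      intro f
      rw [hE₃, C.hσ, hE₂]
    have h2 := vertical C y hy p w Φ hΦ E w₁ e he hEe b' hb' a' ha' E₂ hE₂
    have h3 := vertical C y hy p w Φ hΦ E w₁ e he hEe b' hb' a' ha' E₃ hE₃'
    have hn := hφ₁ E 2 E₂ E₃ hE₂ hE₃
    rw [val_fphi, val_fphi] at hn
    have e2 : val Φ (fun z => E₂ (algebraMap K₂ F₂ z)) = val Φ (QVal.restr K₂ E₂) := rfl
    have e3 : val Φ (fun z => E₃ (algebraMap K₂ F₂ z)) = val Φ (QVal.restr K₂ E₃) := rfl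
    rw [e2, e3] at hn
    have hvg : val g (fun k => E (algebraMap K F k)) = e * val g w₁ := by
      rw [val_eq_sum, val_eq_sum, Finset.mul_sum]
      refine Finset.sum_congr rfl fun k _ => ?_
      rw [hEe k]
      push_cast
      ring
    rw [hvg]
    push_cast at hn hb0 ⊢
    linarith
  · -- horizontal
    push Not at htriv
    have hEK : ∀ k : K, E (algebraMap K F k) = 0 := htriv
    obtain ⟨E₂, hE₂K, hE₂⟩ := exists_over C E hEK
    obtain ⟨E₃, hE₃⟩ := exists_conjD (F := F) σ C.hσ E₂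
    have hE₃' : ∀ f : F, E f = E₃ (algebraMap F F₂ f) := by
      intro f
      rw [hE₃, C.hσ, hE₂]
    have hE₃K : ∀ z : K₂, E₃ (algebraMap K₂ F₂ z) = 0 := by
      have hα0 : E₃ (algebraMap K₂ F₂ α) = 0 := by
        by_cases hz : (algebraMap K₂ F₂ α) = 0
        · rw [hz]
          exact E₃.toQVal.zero
        · have h1 : E₃.toQVal ((algebraMap K₂ F₂ α) ^ 2) = 2 * E₃ (algebraMap K₂ F₂ α) :=
            E₃.toQVal.pow hz 2
          have h2 : (algebraMap K₂ F₂ α) ^ 2 = algebraMap F F₂ (algebraMap K F a) := by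
            rw [← map_pow, C.hα, C.hcomm]
          rw [h2] at h1
          have h3 : E₃.toQVal (algebraMap F F₂ (algebraMap K F a)) = 0 := by
            have := hE₃' (algebraMap K F a)
            rw [hEK] at this
            exact this.symm
          omega
      have hge : ∀ z : K₂, Ge E₃.toQVal 0 (algebraMap K₂ F₂ z) := by
        intro z
        obtain ⟨k, k', rfl⟩ := C.hK₂ z
        have hk : ∀ k : K, Ge E₃.toQVal 0 (algebraMap K₂ F₂ (algebraMap K K₂ k)) := by
          intro k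
          right
          rw [C.hcomm]
          have := hE₃' (algebraMap K F k)
          rw [hEK] at this
          exact this.le
        have hαge : Ge E₃.toQVal 0 (algebraMap K₂ F₂ α) := Or.inr hα0.ge
        rw [map_add, map_mul]
        refine E₃.toQVal.ge_add (hk k) ?_
        simpa using E₃.toQVal.ge_mul (hk k') hαge
      intro z
      by_cases hz : z = 0
      · subst hz
        rw [map_zero]
        exact E₃.toQVal.zero
      · have hz' : algebraMap K₂ F₂ z ≠ 0 := (map_ne_zero_iff _ (algebraMap K₂ F₂).injective).2 hz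
        have h1 := (hge z).resolve_left hz'
        have h2 := (hge z⁻¹).resolve_left (by
          rw [map_inv₀]
          exact inv_ne_zero hz')
        rw [map_inv₀, QVal.inv] at h2
        have e1 : E₃ (algebraMap K₂ F₂ z) = E₃.toQVal (algebraMap K₂ F₂ z) := rfl
        rw [e1]
        omega
    have hn := hφ₁ E 1 E₂.toQVal E₃.toQVal (fun f => by rw [one_mul]; exact (hE₂ f).symm) hE₃
    have h2 := fin_point C y hy p w w₀ Φ hpm hpi hinj hsum hwp hw₀p E ⟨i, hE⟩ (S.hΔ i E hE) a' ha'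
      E₂ hE₂K hE₂
    have h3 := fin_point C y hy p w w₀ Φ hpm hpi hinj hsum hwp hw₀p E ⟨i, hE⟩ (S.hΔ i E hE) a' ha'
      E₃ hE₃K hE₃'
    have hvg : val g (fun k => E (algebraMap K F k)) = 0 := val_triv g _ hEK
    rw [hvg]
    have e2 : val (fphi (F₂ := F₂) b v α p w Φ) E₂.toQVal = val (fphi (F₂ := F₂) b v α p w Φ) E₂ :=
      rfl
    have e3 : val (fphi (F₂ := F₂) b v α p w Φ) E₃.toQVal = val (fphi (F₂ := F₂) b v α p w Φ) E₃ :=
      rfl
    rw [e2, e3] at hn
    push_cast at hn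
    linarith

end WNP
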