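import Pool.Agent.WNP.PTS
import Pool.Agent.WNP.FOR
import Pool.Agent.WNP.CDF
import Pool.Agent.WNV.UPB
import Pool.Agent.WNV.ORQ

/-!
ORH. The order of `dy_1 ∧ … ∧ dy_c ∧ dt` at the closed points of `P^1_K`: `0`, and `-2` at infinity.
-/

set_option linter.unusedSectionVars false

open Polynomial WNV

namespace WNP

section core

variable {c : ℕ} {K F : Type} [Field K] [Algebra ℂ K] [Field F] [Algebra ℂ F]
    [Algebra K F] [IsScalarTower ℂ K F] [Algebra K[X] F] [IsScalarTower K K[X] F]
    [IsFractionRing K[X] F] [Algebra (MvPolynomial (Fin 1) K) F]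
    [IsScalarTower K (MvPolynomial (Fin 1) K) F] [IsFractionRing (MvPolynomial (Fin 1) K) F]

private lemma orh_tt (hα : ∀ P : MvPolynomial (Fin 1) K,
      algebraMap _ F P = algebraMap K[X] F (MvPolynomial.uniqueAlgEquiv K (Fin 1) P)) (i : Fin 1) :
    tt 1 K F i = tv K F := by
  unfold tt tv
  rw [hα]
  congr 1
  simp

private lemma orh_ycoord (hα : ∀ P : MvPolynomial (Fin 1) K,
      algebraMap _ F P = algebraMap K[X] F (MvPolynomial.uniqueAlgEquiv K (Fin 1) P))
    (y : Fin c → K) :
    Fin.append (fun j => algebraMap K F (y j)) (tt 1 K F) = ycoord y (tv K F) := by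
  unfold ycoord
  congr 1
  funext i
  exact orh_tt hα i

private lemma orh_tb (hα : ∀ P : MvPolynomial (Fin 1) K,
      algebraMap _ F P = algebraMap K[X] F (MvPolynomial.uniqueAlgEquiv K (Fin 1) P))
    (y : Fin c → K) (hy : IsTranscendenceBasis ℂ y) :
    IsTranscendenceBasis ℂ (ycoord y (tv K F)) := by
  rw [← orh_ycoord hα y]
  exact transcendence_append y hy

private lemma orh_tv_ne : tv K F ≠ 0 := by
  unfold tv
  rw [Ne, FaithfulSMul.algebraMap_eq_zero_iff K[X] F]
  exact X_ne_zero

private lemma orh_scale (E : DVal F) {ω : RForm F c} {g : F} (hg : g ≠ 0) {b : ℤ}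
    (h : FIsOrd E (fun d => g * ω d) b) : FIsOrd E ω (b - E g) := by
  obtain ⟨h1, h2⟩ := h
  constructor
  · have h3 := fOrdGE_smul E.toQVal (g := g⁻¹) (l := - E g)
      (Or.inr (by rw [E.toQVal.inv])) h1
    have h4 : (fun d => g⁻¹ * (g * ω d)) = ω := by
      funext d
      rw [← mul_assoc, inv_mul_cancel₀ hg, one_mul]
    rw [h4] at h3
    have h5 : b - E g = -E g + b := by ring
    rw [h5]
    exact h3
  · intro h3
    apply h2
    have h4 := fOrdGE_smul E.toQVal (g := g) (l := E g) (Or.inr le_rfl) h3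
    have h5 : E g + (b - E g + 1) = b + 1 := by ring
    rw [h5] at h4
    exact h4

private lemma orh_form (hα : ∀ P : MvPolynomial (Fin 1) K,
      algebraMap _ F P = algebraMap K[X] F (MvPolynomial.uniqueAlgEquiv K (Fin 1) P))
    (y : Fin c → K) (hy : IsTranscendenceBasis ℂ y) (E : DVal F) {a : ℤ}
    (h : IsOrd E (form 1 F y) a) : FIsOrd E (cform y (tv K F)) (a + E (tv K F)) := by
  have hb := transcendence_append (r := 1) (F := F) y hy
  have h1 := (fIsOrd_iff _ hb E (form 1 F y) a).2 h
  rw [pairMap_form] at h1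
  have h2 : tform 1 F y = fun d => (tv K F)⁻¹ * cform y (tv K F) d := by
    funext d
    unfold tform cform
    rw [← orh_ycoord hα y, Fin.prod_univ_one, orh_tt hα]
  rw [h2] at h1
  have h3 := orh_scale E (inv_ne_zero orh_tv_ne) h1
  rw [E.toQVal.inv] at h3
  have h4 : a - -E (tv K F) = a + E (tv K F) := by ring
  rw [h4] at h3
  exact h3

private lemma orh_gauss (hα : ∀ P : MvPolynomial (Fin 1) K,
      algebraMap _ F P = algebraMap K[X] F (MvPolynomial.uniqueAlgEquiv K (Fin 1) P))
    (y : Fin c → K) (hy : IsTranscendenceBasis ℂ y) (E : DVal F) (v : ℤ)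
    (h1 : ∀ f : K[X], f ≠ 0 → ∀ n, f.coeff n ≠ 0 → E (algebraMap K[X] F f) ≤ n * v)
    (h2 : ∀ f : K[X], f ≠ 0 → ∃ n : ℕ, f.coeff n ≠ 0 ∧ E (algebraMap K[X] F f) = n * v) :
    FIsOrd E (cform y (tv K F)) (-1 + v) := by
  have hG : IsGauss (F := F) E (QVal.triv K) (fun _ : Fin 1 => v) := by
    intro P hP
    have hP' : MvPolynomial.uniqueAlgEquiv K (Fin 1) P ≠ 0 := by
      intro h0
      exact hP ((MvPolynomial.uniqueAlgEquiv K (Fin 1)).injective (by rw [h0, map_zero]))
    have hcoef : ∀ s : Fin 1 →₀ ℕ, P.coeff s =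
        (MvPolynomial.uniqueAlgEquiv K (Fin 1) P).coeff (s 0) := by
      intro s
      rw [MvPolynomial.coeff_uniqueAlgEquiv]
      have h0 : s = Finsupp.single default (s 0) := by
        refine Finsupp.ext fun i => ?_
        have : i = 0 := Subsingleton.elim _ _
        subst this
        simp
      rw [← h0]
    constructor
    · intro s hs
      rw [MvPolynomial.mem_support_iff, hcoef s] at hs
      have h3 := h1 _ hP' (s 0) hs
      rw [hα P]
      simpa using h3
    · obtain ⟨n, hn, h3⟩ := h2 _ hP'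
      refine ⟨Finsupp.single 0 n, ?_, ?_⟩
      · rw [MvPolynomial.mem_support_iff, hcoef]
        simpa using hn
      · rw [hα P]
        simpa using h3
  have h3 := form_toric y hy E (fun _ : Fin 1 => v) hG
  have h4 := orh_form hα y hy E h3
  have h5 : E (tv K F) = v := by
    rw [← orh_tt hα 0]
    exact gauss_tt (G := E.toQVal) (w := QVal.triv K) (v := fun _ : Fin 1 => v) hG 0
  rw [h5] at h4
  exact h4

private lemma orh_pol (hα : ∀ P : MvPolynomial (Fin 1) K,
      algebraMap _ F P = algebraMap K[X] F (MvPolynomial.uniqueAlgEquiv K (Fin 1) P))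
    (y : Fin c → K) (hy : IsTranscendenceBasis ℂ y) (E : DVal F) (p : K[X])
    (hp : Irreducible p) (h : IsOrdPol (K := K) E p) : FIsOrd E (cform y (tv K F)) 0 := by
  by_cases hX : Associated p X
  · have h1 : (0 : ℤ) = -1 + 1 := by norm_num
    rw [h1]
    have key : ∀ f : K[X], f ≠ 0 → ∃ n : ℕ, E (algebraMap K[X] F f) = n ∧ X ^ n ∣ f ∧
        ¬ X ^ (n + 1) ∣ f := by
      intro f hf
      obtain ⟨n, q, hq, hnd, hfq⟩ := exists_pow_mul p hp f hf
      refine ⟨n, ?_, ?_, ?_⟩
      · rw [hfq]
        exact h n q hq hnd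
      · rw [hfq]
        exact ((hX.pow_pow (n := n)).symm.dvd).trans (dvd_mul_right _ _)
      · intro hd
        have h2 : p ^ (n + 1) ∣ p ^ n * q := by
          rw [← hfq]
          exact ((hX.pow_pow (n := n + 1)).dvd).trans hd
        rw [pow_succ] at h2
        exact hnd ((mul_dvd_mul_iff_left (pow_ne_zero n hp.ne_zero)).1 h2)
    refine orh_gauss hα y hy E 1 ?_ ?_
    · intro f hf m hm
      obtain ⟨n, hn, hd, -⟩ := key f hf
      rw [hn, mul_one]
      by_contra hlt
      push Not at hlt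
      exact hm ((X_pow_dvd_iff.1 hd) m (by exact_mod_cast hlt))
    · intro f hf
      obtain ⟨n, hn, hd, hnd⟩ := key f hf
      refine ⟨n, ?_, by rw [hn, mul_one]⟩
      intro h0
      apply hnd
      rw [X_pow_dvd_iff] at hd ⊢
      intro d hd'
      rcases Nat.lt_succ_iff_lt_or_eq.1 hd' with h3 | h3
      · exact hd d h3
      · rw [h3]
        exact h0
  · set ψ := MvPolynomial.uniqueAlgEquiv K (Fin 1) with hψ
    have hp' : Irreducible (ψ.symm p) := by
      exact (MulEquiv.irreducible_iff ψ.symm).2 hp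
    have hdv : ∀ q : MvPolynomial (Fin 1) K, ψ.symm p ∣ q ↔ p ∣ ψ q := by
      intro q
      constructor
      · intro hd
        have h3 := map_dvd ψ hd
        rwa [AlgEquiv.apply_symm_apply] at h3
      · intro hd
        have h3 := map_dvd ψ.symm hd
        rwa [AlgEquiv.symm_apply_apply] at h3
    have hm : NotMono (ψ.symm p) := by
      intro i hi
      apply hX
      have h3 := hi.map (ψ : MvPolynomial (Fin 1) K →* K[X])
      have h4 : ψ (ψ.symm p) = p := AlgEquiv.apply_symm_apply ψ p
      have h5 : ψ (MvPolynomial.X i) = X := by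
        rw [hψ]
        simp
      have h6 : Associated (ψ (ψ.symm p)) (ψ (MvPolynomial.X i)) := h3
      rw [h4, h5] at h6
      exact h6
    have hE : IsOrdP (F := F) E (ψ.symm p) := by
      intro n q hq hnd
      rw [hα, map_mul, map_pow, AlgEquiv.apply_symm_apply]
      refine h n (ψ q) ?_ ?_
      · intro h0
        exact hq (ψ.injective (by rw [h0, map_zero]))
      · intro hd
        exact hnd ((hdv q).2 hd)
    have h1 := form_ordP y hy E (ψ.symm p) hp' hm hE
    have h2 := orh_form hα y hy E h1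
    have h3 : E (tv K F) = 0 := by
      unfold tv
      refine ordPol_of_not_dvd h X X_ne_zero ?_
      intro hd
      exact hX (hp.associated_of_dvd irreducible_X hd)
    rw [h3, add_zero] at h2
    exact h2

private lemma orh_inf (hα : ∀ P : MvPolynomial (Fin 1) K,
      algebraMap _ F P = algebraMap K[X] F (MvPolynomial.uniqueAlgEquiv K (Fin 1) P))
    (y : Fin c → K) (hy : IsTranscendenceBasis ℂ y) (E : DVal F)
    (h : IsOrdInf K E) : FIsOrd E (cform y (tv K F)) (-2) := by
  have h1 : (-2 : ℤ) = -1 + -1 := by norm_num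
  rw [h1]
  refine orh_gauss hα y hy E (-1) ?_ ?_
  · intro f hf n hn
    rw [h f hf]
    have := le_natDegree_of_ne_zero hn
    have h2 : (n : ℤ) ≤ f.natDegree := by exact_mod_cast this
    linarith
  · intro f hf
    refine ⟨f.natDegree, ?_, ?_⟩
    · exact leadingCoeff_ne_zero.2 hf
    · rw [h f hf]
      ring

end core

variable {c : ℕ} {K F : Type} [Field K] [Algebra ℂ K] [Field F] [Algebra ℂ F]
    [Algebra K F] [IsScalarTower ℂ K F] [Algebra K[X] F] [IsScalarTower K K[X] F]
    [IsFractionRing K[X] F]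

variable (K F) in
private lemma orh_exists : ∃ (i₁ : Algebra (MvPolynomial (Fin 1) K) F)
    (_ : IsScalarTower K (MvPolynomial (Fin 1) K) F)
    (_ : IsFractionRing (MvPolynomial (Fin 1) K) F),
    ∀ P : MvPolynomial (Fin 1) K,
      algebraMap _ F P = algebraMap K[X] F (MvPolynomial.uniqueAlgEquiv K (Fin 1) P) := by
  let i₁ : Algebra (MvPolynomial (Fin 1) K) F := ((algebraMap K[X] F).comp
    (MvPolynomial.uniqueAlgEquiv K (Fin 1)).toRingEquiv.toRingHom).toAlgebra
  have hα : ∀ P : MvPolynomial (Fin 1) K,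
      algebraMap _ F P = algebraMap K[X] F (MvPolynomial.uniqueAlgEquiv K (Fin 1) P) :=
    fun P => rfl
  refine ⟨i₁, ?_, ?_, hα⟩
  · refine IsScalarTower.of_algebraMap_eq fun a => ?_
    rw [hα, IsScalarTower.algebraMap_apply K K[X] F]
    congr 1
    rw [AlgEquiv.commutes]
  · have : IsLocalization (nonZeroDivisors K[X]) F := inferInstanceAs (IsFractionRing K[X] F)
    refine IsLocalization.of_ringEquiv_left (M₁ := nonZeroDivisors K[X])
      (MvPolynomial.uniqueAlgEquiv K (Fin 1)).toRingEquiv ?_ hα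
    exact MulEquivClass.map_nonZeroDivisors _

theorem tb_t (y : Fin c → K) (hy : IsTranscendenceBasis ℂ y) :
    IsTranscendenceBasis ℂ (ycoord y (tv K F)) := by
  obtain ⟨i₁, i₂, i₃, hα⟩ := orh_exists K F
  exact orh_tb hα y hy

theorem cform_pol (y : Fin c → K) (hy : IsTranscendenceBasis ℂ y) (E : DVal F) (p : K[X])
    (hp : Irreducible p) (h : IsOrdPol (K := K) E p) : FIsOrd E (cform y (tv K F)) 0 := by
  obtain ⟨i₁, i₂, i₃, hα⟩ := orh_exists K F
  exact orh_pol hα y hy E p hp h

theorem cform_inf (y : Fin c → K) (hy : IsTranscendenceBasis ℂ y) (E : DVal F)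
    (h : IsOrdInf K E) : FIsOrd E (cform y (tv K F)) (-2) := by
  obtain ⟨i₁, i₂, i₃, hα⟩ := orh_exists K F
  exact orh_inf hα y hy E h

end WNP
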