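import Pool.Agent.WNP.PTS

/-!
PRD. The product formula for `K(t)` and finiteness of the support.
-/

set_option linter.unusedSectionVars false

open Polynomial WNV

namespace WNP

variable {K F : Type} [Field K] [Algebra ℂ K] [Field F] [Algebra ℂ F]
    [Algebra K F] [IsScalarTower ℂ K F] [Algebra K[X] F] [IsScalarTower K K[X] F]
    [IsFractionRing K[X] F]

/-- `PRD` helper: the algebra map of a nonzero polynomial is nonzero. -/
private lemma prd_map_ne {a : K[X]} (ha : a ≠ 0) : algebraMap K[X] F a ≠ 0 := by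
  rw [Ne, FaithfulSMul.algebraMap_eq_zero_iff K[X] F]
  exact ha

private lemma prd_monic_eq_of_dvd {p q : K[X]} (hp : p.Monic) (hq : q.Monic)
    (hpi : Irreducible p) (hqi : Irreducible q) (h : p ∣ q) : p = q :=
  eq_of_monic_of_associated hp hq (hpi.associated_of_dvd hqi h)

variable (K) in
theorem finite_support (f : F) (hf : f ≠ 0) :
    {q : K[X] | q.Monic ∧ Irreducible q ∧
      ∃ E : DVal F, IsOrdPol (K := K) E q ∧ E f ≠ 0}.Finite := by
  classical
  obtain ⟨a, b, hb, hab⟩ := IsFractionRing.div_surjective (A := K[X]) f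
  have hb0 : b ≠ 0 := nonZeroDivisors.ne_zero hb
  have ha0 : a ≠ 0 := by
    rintro rfl
    apply hf
    rw [← hab, map_zero, zero_div]
  have hc0 : a * b ≠ 0 := mul_ne_zero ha0 hb0
  refine Set.Finite.subset
    ((UniqueFactorizationMonoid.normalizedFactors (a * b)).toFinset.finite_toSet) ?_
  rintro q ⟨hqm, hqi, E, hE, hne⟩
  have hdvd : q ∣ a * b := by
    by_contra hnd
    apply hne
    have h1 : ¬ q ∣ a := fun h => hnd (h.mul_right b)
    have h2 : ¬ q ∣ b := fun h => hnd (h.mul_left a)
    rw [← hab, E.toQVal.div (prd_map_ne ha0) (prd_map_ne hb0),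
      ordPol_of_not_dvd hE a ha0 h1, ordPol_of_not_dvd hE b hb0 h2, sub_zero]
  obtain ⟨r, hr, hqr⟩ :=
    UniqueFactorizationMonoid.exists_mem_normalizedFactors_of_dvd hc0 hqi hdvd
  have hrn : normalize r = r := UniqueFactorizationMonoid.normalize_normalized_factor r hr
  have hr0 : r ≠ 0 := (UniqueFactorizationMonoid.irreducible_of_normalized_factor r hr).ne_zero
  have hrm : r.Monic := by
    rw [← hrn]
    exact monic_normalize hr0
  have : q = r := eq_of_monic_of_associated hqm hrm hqr
  subst this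
  exact Multiset.mem_toFinset.2 hr

private lemma prd_self_or {ι : Type} (p : ι → K[X]) (hm : ∀ i, (p i).Monic)
    (hi : ∀ i, Irreducible (p i)) (hne : Function.Injective p) (E : ι → DVal F)
    (hE : ∀ i, IsOrdPol (K := K) (E i) (p i)) [DecidableEq ι] (i j : ι) :
    E i (algebraMap K[X] F (p j)) = if i = j then 1 else 0 := by
  split_ifs with h
  · subst h
    exact ordPol_self (hi i) (hE i)
  · refine ordPol_of_not_dvd (hE i) (p j) (hi j).ne_zero ?_
    intro hd
    exact h (hne (prd_monic_eq_of_dvd (hm i) (hm j) (hi i) (hi j) hd))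

private lemma prd_pol {ι : Type} [Fintype ι] (p : ι → K[X]) (hm : ∀ i, (p i).Monic)
    (hi : ∀ i, Irreducible (p i)) (hne : Function.Injective p) (E : ι → DVal F)
    (hE : ∀ i, IsOrdPol (K := K) (E i) (p i)) (a : K[X]) :
    a ≠ 0 → (∀ q : K[X], q.Monic → Irreducible q → q ∣ a → ∃ i, q = p i) →
    ∑ i, ((p i).natDegree : ℤ) * E i (algebraMap K[X] F a) = a.natDegree := by
  classical
  induction a using WfDvdMonoid.induction_on_irreducible with
  | zero => intro h; exact absurd rfl h
  | unit u hu =>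
    intro _ _
    rw [natDegree_eq_zero_of_isUnit hu]
    refine Finset.sum_eq_zero fun i _ => ?_
    rw [ordPol_of_not_dvd (hE i) u hu.ne_zero (fun hd => (hi i).not_isUnit (isUnit_of_dvd_unit hd hu)),
      mul_zero]
  | mul a r ha hr ih =>
    intro hra hall
    have hr0 : r ≠ 0 := hr.ne_zero
    have ih' := ih ha (fun q hq1 hq2 hd => hall q hq1 hq2 (hd.mul_left r))
    have hlc : r.leadingCoeff ≠ 0 := leadingCoeff_ne_zero.2 hr0
    set s : K[X] := r * C r.leadingCoeff⁻¹ with hs
    have hsm : s.Monic := monic_mul_leadingCoeff_inv hr0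
    have hunit : IsUnit (C r.leadingCoeff⁻¹ : K[X]) :=
      isUnit_C.2 (isUnit_iff_ne_zero.2 (inv_ne_zero hlc))
    have hass : Associated r s := by
      rw [hs]
      exact (associated_mul_unit_right r _ hunit)
    have hsi : Irreducible s := hass.irreducible hr
    obtain ⟨j, hj⟩ := hall s hsm hsi (hass.symm.dvd.trans (dvd_mul_right r a))
    have hrs : r = C r.leadingCoeff * s := by
      rw [hs, mul_comm r, ← mul_assoc, ← C_mul, mul_inv_cancel₀ hlc, C_1, one_mul]
    have hC : ∀ i, E i (algebraMap K[X] F (C r.leadingCoeff)) = 0 := by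
      intro i
      refine ordPol_of_not_dvd (hE i) _ (by simpa using hlc) ?_
      intro hd
      exact (hi i).not_isUnit (isUnit_of_dvd_unit hd
        (isUnit_C.2 (isUnit_iff_ne_zero.2 hlc)))
    have hval : ∀ i, E i (algebraMap K[X] F (r * a)) =
        (if i = j then 1 else 0) + E i (algebraMap K[X] F a) := by
      intro i
      rw [map_mul, (E i).toQVal.mul (prd_map_ne hr0) (prd_map_ne ha)]
      congr 1
      conv_lhs => rw [hrs]
      rw [map_mul, (E i).toQVal.mul (prd_map_ne (by simpa using hlc)) (prd_map_ne hsi.ne_zero), hj,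
        prd_self_or p hm hi hne E hE i j]
      have := hC i
      rw [this, zero_add]
    have hdeg : (r * a).natDegree = (p j).natDegree + a.natDegree := by
      rw [natDegree_mul hr0 ha, ← hj]
      congr 1
      conv_lhs => rw [hrs]
      rw [natDegree_C_mul hlc]
    rw [hdeg]
    simp only [hval, mul_add, Finset.sum_add_distrib, ih']
    simp

theorem product_formula {ι : Type} [Fintype ι] (p : ι → K[X]) (hm : ∀ i, (p i).Monic)
    (hi : ∀ i, Irreducible (p i)) (hne : Function.Injective p) (E : ι → DVal F)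
    (hE : ∀ i, IsOrdPol (K := K) (E i) (p i)) (E₀ : DVal F) (h₀ : IsOrdInf K E₀) (f : F)
    (hf : f ≠ 0)
    (hall : ∀ (q : K[X]) (E' : DVal F), q.Monic → Irreducible q → IsOrdPol (K := K) E' q →
      E' f ≠ 0 → ∃ i, q = p i) :
    ∑ i, ((p i).natDegree : ℤ) * E i f + E₀ f = 0 := by
  classical
  obtain ⟨a, b, hrel, hab⟩ := IsFractionRing.exists_reduced_fraction (A := K[X]) f
  have hb0 : (b : K[X]) ≠ 0 := nonZeroDivisors.ne_zero b.2
  rw [IsFractionRing.mk'_eq_div] at hab
  have ha0 : a ≠ 0 := by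
    rintro rfl
    apply hf
    rw [← hab, map_zero, zero_div]
  have hdiv : ∀ E' : DVal F, E' f = E' (algebraMap K[X] F a) - E' (algebraMap K[X] F b) := by
    intro E'
    rw [← hab, E'.toQVal.div (prd_map_ne ha0) (prd_map_ne hb0)]
  have hpos : ∀ (q c : K[X]) (E' : DVal F), Irreducible q → IsOrdPol (K := K) E' q → c ≠ 0 →
      q ∣ c → 0 < E' (algebraMap K[X] F c) := by
    intro q c E' hq hE' hc hd
    obtain ⟨n, c', hc', hnd, hcc⟩ := exists_pow_mul q hq c hc
    rw [hcc, hE' n c' hc' hnd]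
    rcases Nat.eq_zero_or_pos n with h0 | h0
    · subst h0
      rw [pow_zero, one_mul] at hcc
      exact absurd (hcc ▸ hd) hnd
    · exact_mod_cast h0
  have hA := prd_pol p hm hi hne E hE a ha0 (by
    intro q hq1 hq2 hd
    obtain ⟨E', hE'⟩ := exists_ordPol F q hq2
    refine hall q E' hq1 hq2 hE' ?_
    have hnb : ¬ q ∣ (b : K[X]) := fun h => hq2.not_isUnit (hrel hd h)
    rw [hdiv E', ordPol_of_not_dvd hE' _ hb0 hnb, sub_zero]
    exact (hpos q a E' hq2 hE' ha0 hd).ne')
  have hB := prd_pol p hm hi hne E hE (b : K[X]) hb0 (by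
    intro q hq1 hq2 hd
    obtain ⟨E', hE'⟩ := exists_ordPol F q hq2
    refine hall q E' hq1 hq2 hE' ?_
    have hna : ¬ q ∣ a := fun h => hq2.not_isUnit (hrel h hd)
    rw [hdiv E', ordPol_of_not_dvd hE' _ ha0 hna, zero_sub]
    have := hpos q b E' hq2 hE' hb0 hd
    omega)
  have h1 : ∑ i, ((p i).natDegree : ℤ) * E i f
      = (a.natDegree : ℤ) - ((b : K[X]).natDegree : ℤ) := by
    rw [← hA, ← hB, ← Finset.sum_sub_distrib]
    refine Finset.sum_congr rfl fun i _ => ?_
    rw [hdiv (E i), mul_sub]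
  rw [h1, hdiv E₀, h₀ a ha0, h₀ _ hb0]
  ring

end WNP
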