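import Pool.Agent.WNP.Sit
import Pool.Agent.WNV.CAR
import Pool.Agent.WNV.NOE

/-!
PSA. Pseudo-effectivity and log discrepancies at valuations which are trivial on `K`.

PROOF. `psef_at`: let `A = chart x i`, noetherian (`chart_noetherian`), normal, with fraction field `F`
(`S.hn`, `S.hf`; `haveI`). `exists_centre A E₀.toQVal hi` gives the prime ideal `P` of the centre.
`S.hC i P` gives the local equation `ψ`: `D E = val ψ E` for the primes `E` of `A` through `P`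
(`E a = 0` for all `a ∉ P`). For those `E`: `0 ≤ val (ψ + ε • single (x 0 / x i) 1 + φ) E` by `hφ`
(`val_add`, `val_smul`, `val_single`). `rcartier_nonneg A P hP E₀.toQVal hi h1 _` gives the same for
`E₀`. `S.hlc E₀ h₀ i hi ψ _ a₀ ha₀` gives `val ψ E₀ ≤ a₀ + 1`; its hypothesis: if `E' ∈` primes of
`A` and `E₀ a = 0 → E' a = 0` for `a ∈ A`, `a ≠ 0`, then `E'` goes through `P` (`a ∉ P ↔ a ≠ 0 ∧
E₀ a = 0`). (Compare the proof of `psef_step` in `Pool/Agent/WNV/ASA.lean`.)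
`delta_le_one`: the same with `E₀ = E` itself prime: `D E = val ψ E ≤ a + 1` and `D E = a + Δ E`
(`S.hD`; the order `a` is unique, `E` is a prime of `A` through its centre `P`).
-/

set_option linter.unusedSectionVars false

open WNV

namespace WNP

variable {n N : ℕ} {K F : Type} [Field K] [Field F] [Algebra ℂ F] [Algebra K F]
    {x : Fin (N + 1) → F} {ω : RForm F n} {Δ D : DVal F → ℝ}

theorem psef_at (S : Sit K x ω Δ D) (ε : ℝ) (φ : F →₀ ℝ)
    (hφ : ∀ i (E : DVal F), IsPrimeOf (chart x i) E → 0 ≤ D E + ε * (E (x 0 / x i) : ℝ) + val φ E)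
    (E₀ : DVal F) (h₀ : ∀ a : K, E₀ (algebraMap K F a) = 0) (a₀ : ℤ)
    (ha₀ : FIsOrd E₀ ω a₀) (i : Fin (N + 1))
    (hi : ∀ a ∈ chart x i, a ≠ 0 → 0 ≤ E₀ a) :
    0 ≤ (a₀ : ℝ) + 1 + ε * (E₀ (x 0 / x i) : ℝ) + val φ E₀ := by
  obtain ⟨P, hP, hPE⟩ := exists_centre (chart x i) E₀.toQVal hi
  obtain ⟨ψ, hψ⟩ := S.hC i P hP
  have hlc' : val ψ E₀ ≤ (a₀ : ℝ) + 1 := by
    refine S.hlc E₀ h₀ i hi ψ ?_ a₀ ha₀
    intro E' hE' hc
    refine hψ E' hE' ?_
    intro a ha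
    exact hc a a.2 ((hPE a).1 ha).1 ((hPE a).1 ha).2
  haveI := S.hn i
  haveI := S.hf i
  haveI := chart_noetherian x i
  have hcar := rcartier_nonneg (chart x i) P hP E₀.toQVal hi (fun a ha => ((hPE a).1 ha).2)
    (ψ + ε • Finsupp.single (x 0 / x i) 1 + φ) (by
      intro E' hE' hc
      rw [val_add, val_add, val_smul, val_single, one_mul, ← hψ E' hE' hc]
      exact hφ i E' hE')
  rw [val_add, val_add, val_smul, val_single, one_mul] at hcar
  have e1 : val ψ E₀.toQVal = val ψ E₀ := rfl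
  have e2 : val φ E₀.toQVal = val φ E₀ := rfl
  rw [e1, e2] at hcar
  linarith

theorem delta_le_one (S : Sit K x ω Δ D) (E : DVal F) (h₀ : ∀ a : K, E (algebraMap K F a) = 0)
    (i : Fin (N + 1)) (hi : IsPrimeOf (chart x i) E) : Δ E ≤ 1 := by
  obtain ⟨P, hP, hPE⟩ := exists_centre (chart x i) E.toQVal hi.1
  obtain ⟨ψ, hψ⟩ := S.hC i P hP
  obtain ⟨a, ha, hDa⟩ := S.hD i E hi
  have hlc' : val ψ E ≤ (a : ℝ) + 1 := by
    refine S.hlc E h₀ i hi.1 ψ ?_ a ha
    intro E' hE' hc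
    refine hψ E' hE' ?_
    intro b hb
    exact hc b b.2 ((hPE b).1 hb).1 ((hPE b).1 hb).2
  have h := hψ E hi (fun b hb => ((hPE b).1 hb).2)
  linarith

end WNP
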