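import Pool.Agent.WNP.Defs
import Pool.Agent.WNV.EXT

/-!
PTS. The closed points of `P^1` over `K` as valuations of `F = K(t)`.

PROOFS. `exists_ordPol`: `g q` = the multiplicity of `p` in `q` (`multiplicity p q` or
`q.rootMultiplicity`-like; `FiniteMultiplicity`, `p` prime in the principal ideal domain `K[X]`),
`WNV.exists_ext` with `R = K[X]`; surjectivity: `E p = 1`. (See `Pool/Agent/WNV/ORP.lean`,
`exists_ordP`, for the same over `MvPolynomial`.) The scalar tower `ℂ → K[X] → F` is an instance
problem: `IsScalarTower ℂ K[X] F` follows from the towers over `K` (`IsScalarTower.of_algebraMap_eq`).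
`exists_ordInf`: `g q = -natDegree q` (`natDegree_mul`, `natDegree_add_le`); surjectivity:
`E (t⁻¹) = 1`.
`ordPol_unique`, `ordInf_unique`: every `f ≠ 0` is a quotient `algebraMap a / algebraMap b`
(`IsFractionRing.div_surjective`), `a = p^n q` with `p ∤ q` (`exists_pow_mul`), `DVal.ext_of`.
`ordPol_const`: a nonzero constant is not divisible by the irreducible `p` (`n = 0`).
`ordInf_const`: degree `0`.
`classify`: `E` trivial on `K`. If `E t ≥ 0` then `E ≥ 0` on `K[X]`; the set of `q` with `q = 0` or
`E q > 0` is a prime ideal, nonzero (otherwise all values of nonzero polynomials and then of all `f` are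
`0`, contradicting `surj'`), so generated by a monic irreducible `p` (`IsPrincipal`,
`Submodule.IsPrincipal.generator`; normalise by the leading coefficient), and `E q = 0` if `p ∤ q`.
So `E (p^n q) = n E p`; all values are multiples of `E p > 0` and `1` is a value, so `E p = 1`.
If `E t < 0`: for `q` of degree `n` the leading term `a t^n` has value `n E t`, smaller than the
values of all other terms, so `E q = n E t` (`QVal.add_of_gt`), all values are multiples of
`E t`, so `E t = -1`.
-/

set_option linter.unusedSectionVars false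

open Polynomial WNV

namespace WNP

variable {K F : Type} [Field K] [Algebra ℂ K] [Field F] [Algebra ℂ F]
    [Algebra K F] [IsScalarTower ℂ K F] [Algebra K[X] F] [IsScalarTower K K[X] F]
    [IsFractionRing K[X] F]

theorem exists_pow_mul (p : K[X]) (hp : Irreducible p) (q : K[X]) (hq : q ≠ 0) :
    ∃ (n : ℕ) (q' : K[X]), q' ≠ 0 ∧ ¬ p ∣ q' ∧ q = p ^ n * q' := by
  obtain ⟨n, c, hc, rfl⟩ := WfDvdMonoid.max_power_factor hq hp
  refine ⟨n, c, ?_, hc, rfl⟩
  rintro rfl
  simp at hq

private lemma orp_unique (p : K[X]) (hp : Irreducible p) {m n : ℕ}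
    {a b : K[X]} (ha : ¬ p ∣ a) (hb : ¬ p ∣ b)
    (h : p ^ m * a = p ^ n * b) : m = n := by
  have key : ∀ {m n : ℕ} {a b : K[X]}, ¬ p ∣ a →
      p ^ m * a = p ^ n * b → n ≤ m := by
    intro m n a b ha h
    by_contra hlt
    push Not at hlt
    obtain ⟨k, rfl⟩ := Nat.exists_eq_add_of_lt hlt
    apply ha
    have h2 : p ^ m * a = p ^ m * (p * (p ^ k * b)) := by rw [h]; ring
    have h3 := mul_left_cancel₀ (pow_ne_zero m hp.ne_zero) h2
    exact ⟨_, h3⟩
  exact le_antisymm (key hb h.symm) (key ha h)

private noncomputable def orpVal (p : K[X]) (hp : Irreducible p)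
    (q : K[X]) : ℕ :=
  open Classical in
  if hq : q = 0 then 0 else (exists_pow_mul p hp q hq).choose

private lemma orpVal_eq (p : K[X]) (hp : Irreducible p) (n : ℕ)
    (q : K[X]) (hq : q ≠ 0) (hpq : ¬ p ∣ q) :
    orpVal p hp (p ^ n * q) = n := by
  have h0 : p ^ n * q ≠ 0 := mul_ne_zero (pow_ne_zero n hp.ne_zero) hq
  unfold orpVal
  rw [dif_neg h0]
  obtain ⟨q', h1, h2, h3⟩ := (exists_pow_mul p hp _ h0).choose_spec
  exact (orp_unique p hp hpq h2 h3).symm

private lemma orpVal_mul (p : K[X]) (hp : Irreducible p)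
    (a b : K[X]) (ha : a ≠ 0) (hb : b ≠ 0) :
    orpVal p hp (a * b) = orpVal p hp a + orpVal p hp b := by
  obtain ⟨m, a', ha0, hpa, rfl⟩ := exists_pow_mul p hp a ha
  obtain ⟨n, b', hb0, hpb, rfl⟩ := exists_pow_mul p hp b hb
  rw [orpVal_eq p hp m a' ha0 hpa, orpVal_eq p hp n b' hb0 hpb]
  have h : p ^ m * a' * (p ^ n * b') = p ^ (m + n) * (a' * b') := by ring
  rw [h]
  refine orpVal_eq p hp _ _ (mul_ne_zero ha0 hb0) ?_
  intro hd
  rcases hp.prime.dvd_or_dvd hd with h1 | h1
  · exact hpa h1
  · exact hpb h1

private lemma orpVal_dvd (p : K[X]) (hp : Irreducible p) (k : ℕ)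
    (a : K[X]) (ha : a ≠ 0) (h : p ^ k ∣ a) : k ≤ orpVal p hp a := by
  obtain ⟨c, rfl⟩ := h
  have hc : c ≠ 0 := right_ne_zero_of_mul ha
  rw [orpVal_mul p hp _ _ (left_ne_zero_of_mul ha) hc]
  have : orpVal p hp (p ^ k) = k := by
    have := orpVal_eq p hp k 1 one_ne_zero (fun hd => hp.not_isUnit (isUnit_of_dvd_one hd))
    rwa [mul_one] at this
  omega

private lemma orpVal_pow_dvd (p : K[X]) (hp : Irreducible p)
    (a : K[X]) (ha : a ≠ 0) : p ^ (orpVal p hp a) ∣ a := by
  obtain ⟨m, a', ha0, hpa, rfl⟩ := exists_pow_mul p hp a ha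
  rw [orpVal_eq p hp m a' ha0 hpa]
  exact ⟨_, rfl⟩

private lemma tower : IsScalarTower ℂ K[X] F := by
  refine IsScalarTower.of_algebraMap_eq fun c => ?_
  rw [IsScalarTower.algebraMap_apply ℂ K F, IsScalarTower.algebraMap_apply K K[X] F,
    IsScalarTower.algebraMap_apply ℂ K K[X]]

variable (F) in
theorem exists_ordPol (p : K[X]) (hp : Irreducible p) : ∃ E : DVal F, IsOrdPol (K := K) E p := by
  have : IsScalarTower ℂ K[X] F := tower
  obtain ⟨E, hE⟩ := exists_ext (R := K[X]) (F := F)
    (fun q => (orpVal p hp q : ℤ)) (by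
      intro a b ha hb
      rw [orpVal_mul p hp a b ha hb]; push_cast; ring) (by
      intro a b ha hb hab
      have h1 : p ^ (min (orpVal p hp a) (orpVal p hp b)) ∣ a + b :=
        dvd_add ((pow_dvd_pow p (min_le_left _ _)).trans (orpVal_pow_dvd p hp a ha))
          ((pow_dvd_pow p (min_le_right _ _)).trans (orpVal_pow_dvd p hp b hb))
      have h2 := orpVal_dvd p hp _ _ hab h1
      exact_mod_cast h2) (by
      intro c hc
      have h0 : algebraMap ℂ K[X] c ≠ 0 :=
        (map_ne_zero_iff _ (algebraMap ℂ K[X]).injective).2 hc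
      have hu : IsUnit (algebraMap ℂ K[X] c) :=
        (isUnit_iff_ne_zero.2 hc).map _
      have := orpVal_eq p hp 0 _ h0 (fun hd => hp.not_isUnit (isUnit_of_dvd_unit hd hu))
      rw [pow_zero, one_mul] at this
      rw [this]; rfl)
  have hord : ∀ (n : ℕ) (q : K[X]), q ≠ 0 → ¬ p ∣ q →
      E (algebraMap _ F (p ^ n * q)) = n := by
    intro n q hq hpq
    rw [hE _ (mul_ne_zero (pow_ne_zero n hp.ne_zero) hq), orpVal_eq p hp n q hq hpq]
  have h1 : E (algebraMap _ F p) = 1 := by
    have := hord 1 1 one_ne_zero (fun hd => hp.not_isUnit (isUnit_of_dvd_one hd))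
    simpa using this
  exact ⟨{ toQVal := E, surj' := ⟨_, h1⟩ }, hord⟩

variable (K F) in
theorem exists_ordInf : ∃ E : DVal F, IsOrdInf K E := by
  have : IsScalarTower ℂ K[X] F := tower
  obtain ⟨E, hE⟩ := exists_ext (R := K[X]) (F := F)
    (fun q => -(q.natDegree : ℤ)) (by
      intro a b ha hb
      rw [natDegree_mul ha hb]; push_cast; ring) (by
      intro a b ha hb hab
      have h1 := natDegree_add_le a b
      have h2 : ((a + b).natDegree : ℤ) ≤ max (a.natDegree : ℤ) (b.natDegree : ℤ) := by
        exact_mod_cast h1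
      rcases le_max_iff.1 h2 with h | h
      · exact (min_le_left _ _).trans (by linarith)
      · exact (min_le_right _ _).trans (by linarith)) (by
      intro c hc
      have : algebraMap ℂ K[X] c = C (algebraMap ℂ K c) := rfl
      rw [this, natDegree_C]; rfl)
  have h1 : E (algebraMap K[X] F X) = -1 := by
    rw [hE X X_ne_zero, natDegree_X]; rfl
  refine ⟨{ toQVal := E, surj' := ⟨(algebraMap K[X] F X)⁻¹, ?_⟩ }, fun q hq => hE q hq⟩
  have h2 := E.inv (algebraMap K[X] F X)
  rw [h1] at h2
  simpa using h2

private lemma ext_pol {E E' : DVal F}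
    (key : ∀ q : K[X], q ≠ 0 → E (algebraMap _ F q) = E' (algebraMap _ F q)) : E = E' := by
  refine DVal.ext_of fun f hf => ?_
  obtain ⟨a, b, hb, rfl⟩ := IsFractionRing.div_surjective (A := K[X]) f
  have hb0 : b ≠ 0 := nonZeroDivisors.ne_zero hb
  have ha0 : a ≠ 0 := by
    rintro rfl
    simp at hf
  have hinj := IsFractionRing.injective K[X] F
  have ha1 : algebraMap _ F a ≠ 0 := (map_ne_zero_iff _ hinj).2 ha0
  have hb1 : algebraMap _ F b ≠ 0 := (map_ne_zero_iff _ hinj).2 hb0
  rw [show E.v (algebraMap _ F a / algebraMap _ F b) = E.v (algebraMap _ F a) -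
    E.v (algebraMap _ F b) from E.toQVal.div ha1 hb1,
    show E'.v (algebraMap _ F a / algebraMap _ F b) = E'.v (algebraMap _ F a) -
    E'.v (algebraMap _ F b) from E'.toQVal.div ha1 hb1, key a ha0, key b hb0]

theorem ordPol_unique {E E' : DVal F} {p : K[X]} (hp : Irreducible p)
    (h : IsOrdPol (K := K) E p) (h' : IsOrdPol (K := K) E' p) : E = E' := by
  refine ext_pol (K := K) fun q hq => ?_
  obtain ⟨n, q', hq0, hpq, rfl⟩ := exists_pow_mul p hp q hq
  rw [h n q' hq0 hpq, h' n q' hq0 hpq]

theorem ordInf_unique {E E' : DVal F} (h : IsOrdInf K E) (h' : IsOrdInf K E') : E = E' := by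
  refine ext_pol (K := K) fun q hq => ?_
  rw [h q hq, h' q hq]

private lemma algK (a : K) : algebraMap K F a = algebraMap K[X] F (C a) := by
  rw [IsScalarTower.algebraMap_apply K K[X] F]
  rfl

theorem ordPol_const {E : DVal F} {p : K[X]} (hp : Irreducible p) (h : IsOrdPol (K := K) E p)
    (a : K) : E (algebraMap K F a) = 0 := by
  by_cases ha : a = 0
  · subst ha
    rw [map_zero]
    exact E.zero'
  have hu : IsUnit (C a : K[X]) := (isUnit_iff_ne_zero.2 ha).map C
  have := h 0 (C a) hu.ne_zero (fun hd => hp.not_isUnit (isUnit_of_dvd_unit hd hu))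
  rw [pow_zero, one_mul, ← algK] at this
  simpa using this

theorem ordInf_const {E : DVal F} (h : IsOrdInf K E) (a : K) : E (algebraMap K F a) = 0 := by
  by_cases ha : a = 0
  · subst ha
    rw [map_zero]
    exact E.zero'
  rw [algK, h (C a) (C_ne_zero.2 ha), natDegree_C]
  rfl

theorem ordPol_self {E : DVal F} {p : K[X]} (hp : Irreducible p) (h : IsOrdPol (K := K) E p) :
    E (algebraMap K[X] F p) = 1 := by
  have := h 1 1 one_ne_zero (fun hd => hp.not_isUnit (isUnit_of_dvd_one hd))
  simpa using this

theorem ordPol_of_not_dvd {E : DVal F} {p : K[X]} (h : IsOrdPol (K := K) E p) (q : K[X])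
    (hq : q ≠ 0) (hpq : ¬ p ∣ q) : E (algebraMap K[X] F q) = 0 := by
  have := h 0 q hq hpq
  simpa using this

private lemma alg_ne {q : K[X]} (hq : q ≠ 0) : algebraMap K[X] F q ≠ 0 :=
  (map_ne_zero_iff _ (IsFractionRing.injective K[X] F)).2 hq

/-- a value is an integer combination of values of polynomials -/
private lemma exists_pol_val (E : DVal F) (d : ℤ)
    (hd : ∀ q : K[X], q ≠ 0 → d ∣ E (algebraMap K[X] F q)) : d ∣ 1 := by
  obtain ⟨f, hf⟩ := E.surj'
  have hf0 : f ≠ 0 := by
    rintro rfl
    have := E.zero'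
    omega
  obtain ⟨a, b, hb, rfl⟩ := IsFractionRing.div_surjective (A := K[X]) f
  have hb0 : b ≠ 0 := nonZeroDivisors.ne_zero hb
  have ha0 : a ≠ 0 := by
    rintro rfl
    simp at hf0
  have h1 : E.v (algebraMap _ F a / algebraMap _ F b) = E.v (algebraMap _ F a) -
    E.v (algebraMap _ F b) := E.toQVal.div (alg_ne ha0) (alg_ne hb0)
  rw [← hf, h1]
  exact dvd_sub (hd a ha0) (hd b hb0)

private lemma E_alg_ge (E : DVal F) (h : ∀ a : K, E (algebraMap K F a) = 0) (q : K[X]) (T : ℤ)
    (hT : ∀ n ∈ q.support, T ≤ n * E (algebraMap K[X] F X)) :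
    Ge E T (algebraMap K[X] F q) := by
  rw [q.as_sum_support, map_sum]
  refine E.toQVal.ge_sum _ _ fun n hn => ?_
  have hc : q.coeff n ≠ 0 := mem_support_iff.1 hn
  right
  have e : algebraMap K[X] F (monomial n (q.coeff n)) =
      algebraMap K F (q.coeff n) * algebraMap K[X] F X ^ n := by
    rw [← C_mul_X_pow_eq_monomial, map_mul, map_pow, ← algK]
  rw [e]
  have hX : algebraMap K[X] F X ≠ 0 := alg_ne X_ne_zero
  have h1 : E.toQVal (algebraMap K F (q.coeff n) * algebraMap K[X] F X ^ n) =
      E.toQVal (algebraMap K F (q.coeff n)) + E.toQVal (algebraMap K[X] F X ^ n) :=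
    E.toQVal.mul (by rw [algK]; exact alg_ne (C_ne_zero.2 hc)) (pow_ne_zero _ hX)
  have h2 : E.toQVal (algebraMap K[X] F X ^ n) = n * E.toQVal (algebraMap K[X] F X) :=
    E.toQVal.pow hX n
  have h3 : E.toQVal (algebraMap K F (q.coeff n)) = 0 := h _
  have h4 := hT n hn
  show T ≤ E.toQVal (algebraMap K F (q.coeff n) * algebraMap K[X] F X ^ n)
  rw [h1, h2, h3, zero_add]
  exact h4

theorem classify (E : DVal F) (h : ∀ a : K, E (algebraMap K F a) = 0) :
    (∃ p : K[X], p.Monic ∧ Irreducible p ∧ IsOrdPol (K := K) E p) ∨ IsOrdInf K E := by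
  classical
  have hX : algebraMap K[X] F X ≠ 0 := alg_ne X_ne_zero
  by_cases ht : 0 ≤ E (algebraMap K[X] F X)
  · left
    have hnn : ∀ q : K[X], Ge E 0 (algebraMap K[X] F q) := by
      intro q
      exact E_alg_ge E h q 0 fun n _ => mul_nonneg (Int.natCast_nonneg n) ht
    have hnn' : ∀ q : K[X], q ≠ 0 → 0 ≤ E (algebraMap K[X] F q) := fun q hq =>
      (hnn q).resolve_left (alg_ne hq)
    have hmul : ∀ a b : K[X], a ≠ 0 → b ≠ 0 → E (algebraMap K[X] F (a * b)) =
        E (algebraMap K[X] F a) + E (algebraMap K[X] F b) := by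
      intro a b ha hb
      rw [map_mul]
      exact E.toQVal.mul (alg_ne ha) (alg_ne hb)
    have hpos : ∃ q : K[X], q ≠ 0 ∧ 0 < E (algebraMap K[X] F q) := by
      by_contra hcon
      push Not at hcon
      have := exists_pol_val (K := K) E 0 fun q hq => by
        have h1 := hcon q hq
        have h2 := hnn' q hq
        have : E (algebraMap K[X] F q) = 0 := le_antisymm h1 h2
        rw [this]
      omega
    let I : Ideal K[X] :=
      { carrier := {q | q = 0 ∨ 0 < E (algebraMap K[X] F q)}
        zero_mem' := Or.inl rfl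
        add_mem' := by
          intro a b ha hb
          have h1 : Ge E 1 (algebraMap K[X] F a) := by
            rcases ha with rfl | ha
            · left; simp
            · right; exact ha
          have h2 : Ge E 1 (algebraMap K[X] F b) := by
            rcases hb with rfl | hb
            · left; simp
            · right; exact hb
          have h3 := E.toQVal.ge_add h1 h2
          rw [← map_add] at h3
          rcases h3 with h3 | h3
          · left
            by_contra h4
            exact alg_ne h4 h3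
          · right; exact h3
        smul_mem' := by
          intro c a ha
          rcases ha with rfl | ha
          · left; simp
          · by_cases hc : c = 0
            · left; simp [hc]
            · by_cases ha0 : a = 0
              · left; simp [ha0]
              · right
                rw [smul_eq_mul, hmul c a hc ha0]
                have := hnn' c hc
                omega }
    have hmem : ∀ q : K[X], q ∈ I ↔ (q = 0 ∨ 0 < E (algebraMap K[X] F q)) := fun q => Iff.rfl
    have hIprime : I.IsPrime := by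
      refine ⟨?_, ?_⟩
      · intro htop
        have h1 : (1 : K[X]) ∈ I := by rw [htop]; trivial
        rcases (hmem 1).1 h1 with h2 | h2
        · exact one_ne_zero h2
        · rw [map_one] at h2
          have : E.toQVal (1 : F) = 0 := E.toQVal.one
          have h3 : E (1 : F) = 0 := this
          omega
      · intro a b hab
        rcases (hmem _).1 hab with h1 | h1
        · rcases mul_eq_zero.1 h1 with h2 | h2
          · left; exact (hmem a).2 (Or.inl h2)
          · right; exact (hmem b).2 (Or.inl h2)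
        · by_cases ha0 : a = 0
          · left; exact (hmem a).2 (Or.inl ha0)
          by_cases hb0 : b = 0
          · right; exact (hmem b).2 (Or.inl hb0)
          rw [hmul a b ha0 hb0] at h1
          by_cases h2 : 0 < E (algebraMap K[X] F a)
          · left; exact (hmem a).2 (Or.inr h2)
          · right
            refine (hmem b).2 (Or.inr ?_)
            omega
    obtain ⟨q1, hq1, hq1'⟩ := hpos
    have hIne : I ≠ ⊥ := by
      intro hb
      have : q1 ∈ I := (hmem q1).2 (Or.inr hq1')
      rw [hb] at this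
      exact hq1 this
    let g : K[X] := Submodule.IsPrincipal.generator I
    have hgI : Ideal.span {g} = I := Ideal.span_singleton_generator I
    have hg0 : g ≠ 0 := by
      intro h0
      apply hIne
      rw [← hgI, h0]
      simp
    have hgprime : Prime g := by
      rw [← Ideal.span_singleton_prime hg0, hgI]
      exact hIprime
    let p : K[X] := g * C (g.leadingCoeff)⁻¹
    have hpm : p.Monic := monic_mul_leadingCoeff_inv hg0
    have hassoc : Associated g p := by
      have hu : IsUnit (C (g.leadingCoeff)⁻¹ : K[X]) :=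
        (isUnit_iff_ne_zero.2 (inv_ne_zero (leadingCoeff_ne_zero.2 hg0))).map C
      exact ⟨hu.unit, rfl⟩
    have hpirr : Irreducible p := (hassoc.prime_iff.1 hgprime).irreducible
    have hpI : ∀ q : K[X], p ∣ q ↔ q ∈ I := by
      intro q
      rw [← hgI, Ideal.mem_span_singleton]
      exact hassoc.symm.dvd_iff_dvd_left
    have hnd : ∀ q : K[X], q ≠ 0 → ¬ p ∣ q → E (algebraMap K[X] F q) = 0 := by
      intro q hq hpq
      have h1 : ¬ (q ∈ I) := fun h1 => hpq ((hpI q).2 h1)
      rw [hmem] at h1
      push Not at h1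
      exact le_antisymm h1.2 (hnn' q hq)
    have hpow : ∀ (n : ℕ) (q : K[X]), q ≠ 0 → ¬ p ∣ q →
        E (algebraMap K[X] F (p ^ n * q)) = n * E (algebraMap K[X] F p) := by
      intro n q hq hpq
      rw [hmul _ _ (pow_ne_zero n hpm.ne_zero) hq, hnd q hq hpq, map_pow]
      have := E.toQVal.pow (alg_ne (F := F) hpm.ne_zero) n
      rw [show E.v (algebraMap K[X] F p ^ n) = n * E.v (algebraMap K[X] F p) from this, add_zero]
    have hEp : 0 < E (algebraMap K[X] F p) := by
      have h1 : p ∈ I := (hpI p).1 dvd_rfl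
      rcases (hmem p).1 h1 with h2 | h2
      · exact absurd h2 hpm.ne_zero
      · exact h2
    have hdvd : E (algebraMap K[X] F p) ∣ 1 := by
      refine exists_pol_val (K := K) E _ fun q hq => ?_
      obtain ⟨n, q', hq0, hpq, rfl⟩ := exists_pow_mul p hpirr q hq
      rw [hpow n q' hq0 hpq]
      exact dvd_mul_left _ _
    have hE1 : E (algebraMap K[X] F p) = 1 := by
      have := Int.le_of_dvd one_pos hdvd
      omega
    refine ⟨p, hpm, hpirr, ?_⟩
    intro n q hq hpq
    rw [hpow n q hq hpq, hE1, mul_one]
  · right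
    push Not at ht
    have hdeg : ∀ q : K[X], q ≠ 0 →
        E (algebraMap K[X] F q) = q.natDegree * E (algebraMap K[X] F X) := by
      intro q hq
      set lead : F := algebraMap K F q.leadingCoeff * algebraMap K[X] F X ^ q.natDegree with hlead
      have hl0 : algebraMap K F q.leadingCoeff ≠ 0 := by
        rw [algK]; exact alg_ne (C_ne_zero.2 (leadingCoeff_ne_zero.2 hq))
      have hlne : lead ≠ 0 := mul_ne_zero hl0 (pow_ne_zero _ hX)
      have hlE : E lead = q.natDegree * E (algebraMap K[X] F X) := by
        have h1 : E.toQVal lead = E.toQVal (algebraMap K F q.leadingCoeff) +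
            E.toQVal (algebraMap K[X] F X ^ q.natDegree) :=
          E.toQVal.mul hl0 (pow_ne_zero _ hX)
        have h2 : E.toQVal (algebraMap K[X] F X ^ q.natDegree) =
            q.natDegree * E.toQVal (algebraMap K[X] F X) := E.toQVal.pow hX _
        have h3 : E.toQVal (algebraMap K F q.leadingCoeff) = 0 := h _
        show E.toQVal lead = _
        rw [h1, h2, h3, zero_add]
      have hsplit : algebraMap K[X] F q = lead + algebraMap K[X] F q.eraseLead := by
        have e1 : q = C q.leadingCoeff * X ^ q.natDegree + q.eraseLead := by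
          rw [add_comm]
          exact (eraseLead_add_C_mul_X_pow q).symm
        conv_lhs => rw [e1]
        rw [map_add, map_mul, map_pow, ← algK]
      have hrest : Ge E (E lead + 1) (algebraMap K[X] F q.eraseLead) := by
        refine E_alg_ge E h _ _ fun n hn => ?_
        have h1 : n < q.natDegree := lt_natDegree_of_mem_eraseLead_support hn
        rw [hlE]
        have h2 : (n : ℤ) + 1 ≤ q.natDegree := by exact_mod_cast h1
        nlinarith
      have := (E.toQVal.add_of_gt hlne hrest).2
      rw [hsplit]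
      exact this.trans hlE
    have hdvd : E (algebraMap K[X] F X) ∣ 1 := by
      refine exists_pol_val (K := K) E _ fun q hq => ?_
      rw [hdeg q hq]
      exact dvd_mul_left _ _
    have hE1 : E (algebraMap K[X] F X) = -1 := by
      have h1 : -E (algebraMap K[X] F X) ∣ 1 := (neg_dvd).2 hdvd
      have := Int.le_of_dvd one_pos h1
      omega
    intro q hq
    rw [hdeg q hq, hE1]
    ring

end WNP
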