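import Pool.Agent.WNP.DTB
import Pool.Agent.WNP.TAY

/-!
RSB. Value of a resultant.

PROOF. Let `m = p.natDegree`, `n = q.natDegree`, `P = taylor t (p.map _)`, `Q = taylor t (q.map _)`
in `F[X]` (`t = tv K F`), of the same degrees (`natDegree_taylor`, `natDegree_map`).
`algebraMap K F (resultant p q) = resultant (p.map _) (q.map _)` (`resultant_map_map`, with the
degrees `m`, `n` as explicit arguments) `= resultant P Q` (`resultant_taylor`)
`= (sylvester P Q m n).det`. Apply `ge_det` with the row weights `r i = - i ρ` and the column weights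
`s j = E q + j₁ ρ` for the first `m` columns (`j = castAdd j₁`, entries `Q.coeff (i - j₁)` for
`j₁ ≤ i ≤ j₁ + n`), `s j = E p + j₁ ρ` for the last `n` columns (`j = natAdd j₁`, entries
`P.coeff (i - j₁)`): by `ge_taylor` the entry has value at least `E q - (i - j₁) ρ`. (Column weights:
`Fin.addCases`; sums: `Fin.sum_univ_add`.) Total weight:
`-ρ Σ_{i<m+n} i + m E q + ρ Σ_{j<m} j + n E p + ρ Σ_{j<n} j = m E q + n E p - m n ρ`
(`Finset.sum_range_id_mul_two` / `Fin.sum_univ_eq_sum_range`; multiply by `2`).
-/

set_option linter.unusedSectionVars false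

open Polynomial WNV

namespace WNP

variable {K F : Type} [Field K] [Algebra ℂ K] [Field F] [Algebra ℂ F]
    [Algebra K F] [IsScalarTower ℂ K F] [Algebra K[X] F] [IsScalarTower K K[X] F]
    [IsFractionRing K[X] F]

theorem ge_resultant (E : QVal F) (ρ : ℤ) (h : DerivBd K E ρ) (p q : K[X]) :
    Ge E (q.natDegree * E (algebraMap K[X] F p) + p.natDegree * E (algebraMap K[X] F q) -
      p.natDegree * q.natDegree * ρ) (algebraMap K F (resultant p q)) := by
  set m := p.natDegree with hm
  set n := q.natDegree with hn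
  set P := taylor (tv K F) (p.map (algebraMap K F)) with hP
  set Q := taylor (tv K F) (q.map (algebraMap K F)) with hQ
  have hPd : P.natDegree = m := by rw [hP, natDegree_taylor, natDegree_map]
  have hQd : Q.natDegree = n := by rw [hQ, natDegree_taylor, natDegree_map]
  have h1 : algebraMap K F (resultant p q) = (sylvester P Q m n).det := by
    rw [← resultant_map_map]
    have h2 := resultant_taylor (p.map (algebraMap K F)) (q.map (algebraMap K F)) (tv K F)
    rw [natDegree_taylor, natDegree_taylor, natDegree_map, natDegree_map] at h2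
    rw [← h2]
    rfl
  rw [h1]
  set a := E (algebraMap K[X] F p) with ha
  set b := E (algebraMap K[X] F q) with hb
  have h3 := ge_det E (sylvester P Q m n) (fun i => -((i : ℕ) : ℤ) * ρ)
    (fun j : Fin (m + n) => Fin.addCases (motive := fun _ => ℤ)
      (fun j₁ => b + ((j₁ : ℕ) : ℤ) * ρ) (fun j₁ => a + ((j₁ : ℕ) : ℤ) * ρ) j) ?_
  · refine E.ge_mono (le_of_eq ?_) h3
    rw [Fin.sum_univ_add (fun j : Fin (m + n) => Fin.addCases (motive := fun _ => ℤ)
      (fun j₁ => b + ((j₁ : ℕ) : ℤ) * ρ) (fun j₁ => a + ((j₁ : ℕ) : ℤ) * ρ) j)]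
    simp only [Fin.addCases_left, Fin.addCases_right]
    have e : ∀ k : ℕ, 2 * ∑ i : Fin k, ((i : ℕ) : ℤ) = k * (k - 1) := by
      intro k
      rw [Fin.sum_univ_eq_sum_range (fun i => (i : ℤ)) k]
      induction k with
      | zero => simp
      | succ k ih =>
        rw [Finset.sum_range_succ, mul_add, ih]
        push_cast
        ring
    have e1 := e m
    have e2 := e n
    have e3 := e (m + n)
    rw [← Finset.sum_mul, Finset.sum_add_distrib, Finset.sum_add_distrib, ← Finset.sum_mul,
      ← Finset.sum_mul, Finset.sum_neg_distrib]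
    simp only [Finset.sum_const, Finset.card_univ, Fintype.card_fin, nsmul_eq_mul]
    push_cast at e3
    have key : (2 : ℤ) * (-(∑ i : Fin (m + n), ((i : ℕ) : ℤ)) * ρ +
        ((m : ℤ) * b + (∑ i : Fin m, ((i : ℕ) : ℤ)) * ρ +
        ((n : ℤ) * a + (∑ i : Fin n, ((i : ℕ) : ℤ)) * ρ))) =
        2 * ((n : ℤ) * a + m * b - m * n * ρ) := by
      linear_combination (-ρ) * e3 + ρ * e1 + ρ * e2
    linarith
  · intro i j
    refine Fin.addCases (fun j₁ => ?_) (fun j₁ => ?_) j
    · simp only [sylvester, Matrix.of_apply, Fin.addCases_left]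
      split_ifs with hc
      · have h4 := ge_taylor E ρ h q ((i : ℕ) - j₁)
        refine E.ge_mono (le_of_eq ?_) h4
        rw [Nat.cast_sub hc.1]
        ring
      · exact E.ge_zero _
    · simp only [sylvester, Matrix.of_apply, Fin.addCases_right]
      split_ifs with hc
      · have h4 := ge_taylor E ρ h p ((i : ℕ) - j₁)
        refine E.ge_mono (le_of_eq ?_) h4
        rw [Nat.cast_sub hc.1]
        ring
      · exact E.ge_zero _

end WNP
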