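import Pool.Agent.WNP.CDF
import Pool.Agent.WNV.VAL

/-!
The hypotheses on the pair `(X, Δ)`, `D = K_X + Δ` (without the condition on the base `Y`).
-/

open WNV

namespace WNP

/-- `X` is the projective normal model with the coordinates `x`, `ω` the form which defines
`K_X`, and `D = K_X + Δ`; `K` is the function field of the base. -/
structure Sit (K : Type) {n N : ℕ} {F : Type} [Field K] [Field F] [Algebra ℂ F] [Algebra K F]
    (x : Fin (N + 1) → F) (ω : RForm F n) (Δ D : DVal F → ℝ) : Prop where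
  hx : ∀ j, x j ≠ 0
  hn : ∀ i, IsIntegrallyClosed (chart x i)
  hf : ∀ i, IsFractionRing (chart x i) F
  hΔ : ∀ i (E : DVal F), IsPrimeOf (chart x i) E → 0 ≤ Δ E
  hfin : {E : DVal F | (∃ i, IsPrimeOf (chart x i) E) ∧ Δ E ≠ 0}.Finite
  hD : ∀ i (E : DVal F), IsPrimeOf (chart x i) E → ∃ a : ℤ, FIsOrd E ω a ∧ D E = a + Δ E
  hC : IsRCartier x D
  hP : IsPsef x D
  hlc : ∀ E : DVal F, (∀ a : K, E (algebraMap K F a) = 0) → IsLcAt x ω D E

end WNP
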